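import Pool.Agent.Lib.MP_1dc4d0_coA6.Pop

set_option autoImplicit false

namespace Pool.Agent.Lib.MP_1dc4d0_coA6

open Finset

variable {V : Type} [DecidableEq V]

theorem star_mate {G : Gr V} {F : Finset (V × Fin 3)} (d : V × Fin 3) (hd : d.1 ∈ G.A) (h : G.Star F d) :
    G.Star F (G.mate d) := by
  obtain ⟨M, hM, hdM, hg⟩ := h
  exact ⟨M, hM, (hM.1 d hd).1 hdM, hg⟩

theorem star0_fin : ∀ (i : Fin 3) (S : Finset (Fin 3)), i ∉ S → S.card % 2 = 1 → S.card = 1 ∧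
    (∃ j, i ≠ j ∧ j ∉ S) ∧ ∃ l, l ∈ S := by
  decide

/-- A vertex with a dart outside `F` has exactly two darts outside `F`. -/
theorem star0_two {F : Finset (V × Fin 3)} (v : V) (ho : Odd (deg F v)) (i : Fin 3)
    (hi : (v, i) ∉ F) : deg F v = 1 ∧ ∃ j l : Fin 3, i ≠ j ∧ (v, j) ∉ F ∧ (v, l) ∈ F := by
  have hF : ∀ j : Fin 3, j ∈ (Finset.univ.filter (fun i : Fin 3 => (v, i) ∈ F)) ↔ (v, j) ∈ F := by
    intro j
    simp
  rw [Nat.odd_iff] at ho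
  obtain ⟨h1, ⟨j, hj, hj'⟩, l, hl⟩ := star0_fin i _ (fun h => hi ((hF i).1 h)) ho
  exact ⟨h1, j, l, hj, fun h => hj' ((hF j).2 h), (hF l).1 hl⟩

/-- At a vertex outside `V3` exactly one dart is in `F`. -/
theorem deg_one {G : Gr V} {F : Finset (V × Fin 3)} (hF : G.Join F) (v : V) (hv : v ∈ G.A)
    (h3 : v ∉ G.V3 F) : deg F v = 1 := by
  obtain ⟨i, hi⟩ : ∃ i : Fin 3, (v, i) ∉ F := by
    by_contra hc
    push Not at hc
    exact h3 (Finset.mem_filter.2 ⟨hv, hc⟩)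
  exact (star0_two v (hF.2 v hv) i hi).1

/-- A dart outside `F` can be completed to the data of a pop, if it is not a loop. -/
theorem exPop {G : Gr V} {F : Finset (V × Fin 3)} (hG : G.Ok) (hF : G.Join F) (g : V × Fin 3) (hg : g.1 ∈ G.A)
    (hgF : g ∉ F) (hne : (G.mate g).1 ≠ g.1) : ∃ rx fx ry fy, PopD G F g rx fx ry fy := by
  have hgF' : G.mate g ∉ F := fun h => hgF ((hF.1 g hg).2 h)
  obtain ⟨-, j, l, h1, h2, h3⟩ := star0_two g.1 (hF.2 _ hg) g.2 hgF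
  obtain ⟨-, j', l', h1', h2', h3'⟩ := star0_two (G.mate g).1 (hF.2 _ (hG.mem g hg))
    (G.mate g).2 hgF'
  exact ⟨(g.1, j), (g.1, l), ((G.mate g).1, j'), ((G.mate g).1, l'),
    { gA := hg
      hne := hne
      rx1 := rfl
      fx1 := rfl
      ry1 := rfl
      fy1 := rfl
      grx := fun h => h1 (congrArg Prod.snd h)
      gry := fun h => h1' (congrArg Prod.snd h)
      gF := hgF
      rxF := h2
      fxF := h3
      ryF := h2'
      fyF := h3' }⟩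

/-- A vertex outside `V3` has a dart `g` outside `F`, and another one. -/
theorem two_darts {G : Gr V} {F : Finset (V × Fin 3)} (hF : G.Join F) (v : V) (hv : v ∈ G.A)
    (h3 : v ∉ G.V3 F) : ∃ g r f : V × Fin 3, g.1 = v ∧ r.1 = v ∧ f.1 = v ∧ g ∉ F ∧ r ∉ F ∧ f ∈ F ∧ g ≠ r := by
  obtain ⟨i, hi⟩ : ∃ i : Fin 3, (v, i) ∉ F := by
    by_contra hc
    push Not at hc
    exact h3 (Finset.mem_filter.2 ⟨hv, hc⟩)
  obtain ⟨-, j, l, h1, h2, h4⟩ := star0_two v (hF.2 v hv) i hi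
  exact ⟨(v, i), (v, j), (v, l), rfl, rfl, rfl, hi, h2, h4, fun h => h1 (congrArg Prod.snd h)⟩

end Pool.Agent.Lib.MP_1dc4d0_coA6
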