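import Pool.Agent.Lib.MP_1dc4d0_coA6.NDefs
import Pool.Agent.Lib.MP_1dc4d0_coA6.Star0

set_option autoImplicit false

namespace Pool.Agent.Lib.MP_1dc4d0_coA6

open Finset

variable {V : Type} [DecidableEq V]

theorem ex_atom {G : Gr V} {F : Finset (V × Fin 3)} (hG : G.Ok) (hF : G.Join F) (X : Finset V)
    (hX : G.CC F X) (w : V) (hw : w ∈ X) (h1 : deg F w = 1) : ∃ c, Atom G F c ∧ w ∈ c ∧ c ⊆ X := by
  classical
  set S := G.A.powerset.filter (fun Y => w ∈ Y ∧ ∀ d ∈ G.cut Y, d ∈ F) with hS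
  have hmem : ∀ Y, Y ∈ S ↔ Y ⊆ G.A ∧ w ∈ Y ∧ ∀ d ∈ G.cut Y, d ∈ F := by
    intro Y
    rw [hS, mem_filter, mem_powerset]
  obtain ⟨c, hc, hmin⟩ := exists_min_image S card ⟨X, (hmem X).2 ⟨hX.1, hw, hX.2⟩⟩
  obtain ⟨hcA, hwc, hccc⟩ := (hmem c).1 hc
  have hatom : ∀ Y ⊆ G.A, (∀ d ∈ G.cut Y, d ∈ F) → c ⊆ Y ∨ Disjoint c Y := by
    intro Y hY hYc
    by_cases hwY : w ∈ Y
    · left
      have h2 : c ∩ Y ∈ S := by
        refine (hmem _).2 ⟨inter_subset_left.trans hcA, mem_inter.2 ⟨hwc, hwY⟩, fun d hd => ?_⟩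
        rw [mem_cut, mem_inter, mem_inter] at hd
        by_cases h3 : (G.mate d).1 ∈ c
        · exact hYc d ((mem_cut _ _ _).2 ⟨hd.1.2, fun h4 => hd.2 ⟨h3, h4⟩⟩)
        · exact hccc d ((mem_cut _ _ _).2 ⟨hd.1.1, h3⟩)
      have h3 := hmin _ h2
      have h4 : c ∩ Y = c := eq_of_subset_of_card_le inter_subset_left h3
      rw [← h4]
      exact inter_subset_right
    · right
      have h2 : c \ Y ∈ S := by
        refine (hmem _).2 ⟨sdiff_subset.trans hcA, mem_sdiff.2 ⟨hwc, hwY⟩, fun d hd => ?_⟩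
        rw [mem_cut, mem_sdiff, mem_sdiff] at hd
        by_cases h3 : (G.mate d).1 ∈ c
        · have h4 : (G.mate d).1 ∈ Y := by
            by_contra h4
            exact hd.2 ⟨h3, h4⟩
          have hdA : d.1 ∈ G.A := hcA hd.1.1
          have h5 : G.mate d ∈ F := by
            refine hYc _ ((mem_cut _ _ _).2 ⟨h4, ?_⟩)
            rw [hG.inv d hdA]
            exact hd.1.2
          exact (hF.1 d hdA).2 h5
        · exact hccc d ((mem_cut _ _ _).2 ⟨hd.1.1, h3⟩)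
      have h3 := hmin _ h2
      have h4 : c \ Y = c := eq_of_subset_of_card_le sdiff_subset h3
      rw [← h4]
      exact sdiff_disjoint
  have hdis : ∀ Y : Finset V, w ∈ Y → ¬ Disjoint c Y := fun Y hwY h =>
    disjoint_left.1 h hwc hwY
  refine ⟨c, ⟨⟨w, hwc⟩, hcA, hccc, fun v hv => ?_, hatom⟩, hwc,
    (hatom X hX.1 hX.2).resolve_right (hdis X hw)⟩
  have hodd := hF.2 v (hcA hv)
  have hle : deg F v ≤ 3 := by
    unfold deg
    exact (card_filter_le _ _).trans (by simp)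
  by_contra hne
  have h3 : deg F v = 3 := by
    rw [Nat.odd_iff] at hodd
    omega
  have hall : ∀ i : Fin 3, (v, i) ∈ F := by
    have h4 : univ.filter (fun i : Fin 3 => (v, i) ∈ F) = univ := by
      refine eq_univ_of_card _ ?_
      rw [Fintype.card_fin]
      exact h3
    intro i
    have h5 : i ∈ univ.filter (fun i : Fin 3 => (v, i) ∈ F) := by
      rw [h4]
      exact mem_univ i
    exact (mem_filter.1 h5).2
  have hcc : ∀ d ∈ G.cut {v}, d ∈ F := by
    intro d hd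
    rw [mem_cut, mem_singleton] at hd
    obtain ⟨a, i⟩ := d
    obtain rfl : a = v := hd.1
    exact hall i
  rcases hatom {v} (singleton_subset_iff.2 (hcA hv)) hcc with h4 | h4
  · have h5 : w = v := mem_singleton.1 (h4 hwc)
    rw [h5] at h1
    omega
  · exact disjoint_left.1 h4 hv (mem_singleton_self v)

end Pool.Agent.Lib.MP_1dc4d0_coA6
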