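import Pool.Agent.Lib.MP_1dc4d0_coA6.Near
import Pool.Agent.Lib.MP_1dc4d0_coA6.Star0

set_option autoImplicit false

namespace Pool.Agent.Lib.MP_1dc4d0_coA6

open Finset

variable {V : Type} [DecidableEq V]

/-- If there is a second dart outside `F` at the start of `D`, then there is a matching through `D`. -/
theorem ball_near {G : Gr V} {F : Finset (V × Fin 3)} (hI : G.Inst F) (hc : G.Cyc)
    (h6 : 6 ≤ G.A.card) (ih : IH V G.A.card) (D g0 : V × Fin 3) (hD : D.1 ∈ G.A)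
    (h0 : g0.1 = D.1) (hF : g0 ∉ F) (hne : g0 ≠ D) : G.Star F D := by
  have hG := hI.ok
  have hg0 : g0.1 ∈ G.A := by rw [h0]; exact hD
  have hxA : (G.mate g0).1 ∈ G.A := hG.mem g0 hg0
  have hrF : G.mate g0 ∉ F := fun h => hF ((hI.join.1 g0 hg0).2 h)
  have hx3 : (G.mate g0).1 ∉ G.V3 F := fun h => hrF ((Finset.mem_filter.1 h).2 (G.mate g0).2)
  obtain ⟨g, hg1, hgF, hgr⟩ : ∃ g : V × Fin 3, g.1 = (G.mate g0).1 ∧ g ∉ F ∧ g ≠ G.mate g0 := by
    obtain ⟨g, r, f, hg, hr, -, hgF, hrF', -, hgr⟩ := two_darts hI.join _ hxA hx3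
    by_cases h : g = G.mate g0
    · exact ⟨r, hr, hrF', fun h' => hgr (h.trans h'.symm)⟩
    · exact ⟨g, hg, hgF, h⟩
  have hgA : g.1 ∈ G.A := by rw [hg1]; exact hxA
  have hinv := hG.inv g0 hg0
  obtain ⟨rx, fx, ry, fy, hp⟩ := exPop hG hI.join g hgA hgF (no_loop hG hc h6 g hgA)
  have hrx : rx = G.mate g0 := by
    rcases pop_all_x hp (G.mate g0) hg1.symm with h | h | h
    · exact absurd h.symm hgr
    · exact h.symm
    · exact absurd (h ▸ hp.fxF) hrF
  refine near_split hI hc h6 ih hp D hD ?_ ?_ ?_ ?_ (Or.inr (Or.inr (Or.inl ?_)))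
  · rw [hg1, ← h0]
    exact (no_loop hG hc h6 g0 hg0).symm
  · have h1 := no_par hG hc h6 (G.mate g0) g hxA hgr hg1
    rw [hinv, h0] at h1
    exact h1.symm
  · rw [hg1]
    exact no_par hG hc h6 g0 D hg0 hne.symm h0.symm
  · exact (no_tri hG hc h6 g0 D g hg0 hne.symm h0.symm hg1).symm
  · rw [hrx, hinv, h0]

/-- In a minimal counterexample the ball of radius one around the edge of `d` lies in `V3`. -/
theorem ball {G : Gr V} {F : Finset (V × Fin 3)} (hI : G.Inst F) (hc : G.Cyc) (h6 : 6 ≤ G.A.card)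
    (ih : IH V G.A.card) (d : V × Fin 3) (hd : d.1 ∈ G.A) (hn : ¬ G.Star F d) :
    ∀ k : V × Fin 3, k.1 = d.1 → (G.mate k).1 ∈ G.V3 F := by
  have hG := hI.ok
  have key : ∀ D : V × Fin 3, D.1 ∈ G.A → ¬ G.Star F D → D.1 ∈ G.V3 F := by
    intro D hD hS
    by_contra h3
    obtain ⟨g, r, f, hg, hr, -, hgF, hrF, -, hgr⟩ := two_darts hI.join _ hD h3
    by_cases h : g = D
    · exact hS (ball_near hI hc h6 ih D r hD hr hrF fun h' => hgr (h.trans h'.symm))
    · exact hS (ball_near hI hc h6 ih D g hD hg hgF h)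
  have hd3 := key d hd hn
  have hm3 : (G.mate d).1 ∈ G.V3 F := by
    refine key (G.mate d) (hG.mem d hd) fun h => hn ?_
    have h1 := star_mate (G.mate d) (hG.mem d hd) h
    rwa [hG.inv d hd] at h1
  intro k hk
  by_cases hkd : k = d
  · rw [hkd]
    exact hm3
  by_contra hw
  have hkA : k.1 ∈ G.A := by rw [hk]; exact hd
  have hwA : (G.mate k).1 ∈ G.A := hG.mem k hkA
  have hkF : k ∈ F := by
    have h1 := (Finset.mem_filter.1 hd3).2 k.2
    rw [← hk] at h1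
    exact h1
  have hmkF : G.mate k ∈ F := (hI.join.1 k hkA).1 hkF
  have hinv := hG.inv k hkA
  obtain ⟨g, -, -, hg1, -, -, hgF, -, -, -⟩ := two_darts hI.join _ hwA hw
  have hgA : g.1 ∈ G.A := by rw [hg1]; exact hwA
  obtain ⟨rx, fx, ry, fy, hp⟩ := exPop hG hI.join g hgA hgF (no_loop hG hc h6 g hgA)
  have hgk : g ≠ G.mate k := fun h => hgF (h ▸ hmkF)
  have hfx : fx = G.mate k := by
    rcases pop_all_x hp (G.mate k) hg1.symm with h | h | h
    · exact absurd h.symm hgk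
    · exact absurd (h ▸ hmkF) hp.rxF
    · exact h.symm
  refine hn (near_split hI hc h6 ih hp d hd ?_ ?_ ?_ ?_ (Or.inl ?_))
  · rw [hg1, ← hk]
    exact (no_loop hG hc h6 k hkA).symm
  · have h1 := no_par hG hc h6 (G.mate k) g hwA hgk hg1
    rw [hinv, hk] at h1
    exact h1.symm
  · rw [hg1]
    exact no_par hG hc h6 k d hkA (Ne.symm hkd) hk.symm
  · exact (no_tri hG hc h6 k d g hkA (Ne.symm hkd) hk.symm hg1).symm
  · rw [hfx, hinv, hk]

end Pool.Agent.Lib.MP_1dc4d0_coA6
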