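import Pool.Agent.Lib.MP_1dc4d0_coA6.Small
import Pool.Agent.Lib.MP_1dc4d0_coA6.Star0

set_option autoImplicit false

namespace Pool.Agent.Lib.MP_1dc4d0_coA6

open Finset

variable {V : Type} [DecidableEq V]

/-- A list of darts, closed under `mate`, whose vertices are the vertices of `G`, each one once. -/
theorem base_pm {G : Gr V} (hG : G.Ok) (L : List (V × Fin 3)) (hA : ∀ d ∈ L, d.1 ∈ G.A)
    (hm : ∀ d ∈ L, G.mate d ∈ L) (hn : (L.map Prod.fst).Nodup) (hl : L.length = G.A.card) :
    G.PM L.toFinset := by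
  refine ⟨fun d hd => ?_, fun v hv => ?_⟩
  · rw [List.mem_toFinset, List.mem_toFinset]
    refine ⟨hm d, fun h => ?_⟩
    have := hm _ h
    rwa [hG.inv d hd] at this
  · have h1 : (L.map Prod.fst).toFinset = G.A := by
      refine Finset.eq_of_subset_of_card_le ?_ ?_
      · intro x hx
        rw [List.mem_toFinset, List.mem_map] at hx
        obtain ⟨d, hd, rfl⟩ := hx
        exact hA d hd
      · rw [List.toFinset_card_of_nodup hn, List.length_map, hl]
    rw [← h1, List.mem_toFinset, List.mem_map] at hv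
    obtain ⟨d, hd, rfl⟩ := hv
    rw [deg, Finset.card_eq_one]
    refine ⟨d.2, ?_⟩
    ext i
    simp only [Finset.mem_filter, Finset.mem_univ, true_and, List.mem_toFinset,
      Finset.mem_singleton]
    constructor
    · intro hi
      have := List.inj_on_of_nodup_map hn hi hd rfl
      rw [← this]
    · rintro rfl
      exact hd

theorem base_loop {G : Gr V} (hG : G.Ok) (hc : G.Cyc) (d : V × Fin 3) (hd : d.1 ∈ G.A) :
    (G.mate d).1 ≠ d.1 := by
  intro h
  have he := even_A G hG
  have hX : ({d.1} : Finset V) ⊆ G.A := by simpa using hd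
  have hne : ({d.1} : Finset V) ≠ G.A := by
    intro h'
    rw [← h', Finset.card_singleton] at he
    exact absurd he (by decide)
  have h1 := (hc {d.1} hX (by simp) hne).1
  have h2 := sm_cut_le (G := G) {d.1} {d, G.mate d} (by
    intro e he
    simp only [Finset.mem_insert, Finset.mem_singleton] at he ⊢
    rcases he with rfl | rfl
    · exact ⟨rfl, h⟩
    · rw [hG.inv d hd]; exact ⟨h, rfl⟩)
  rw [Finset.card_pair (hG.ne d hd).symm] at h2
  simp only [Finset.card_singleton] at h2
  omega

/-- A cut inside a perfect matching. -/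
theorem base_le {G : Gr V} {M : Finset (V × Fin 3)} (hM : G.PM M) (X : Finset V) (hX : X ⊆ G.A)
    (h : ∀ d ∈ G.cut X, d ∈ M) : (G.cut X).card ≤ X.card := by
  refine Finset.card_le_card_of_injOn Prod.fst (fun d hd => ((mem_cut G X d).1 hd).1) ?_
  intro d hd d' hd' hdd
  rw [Finset.mem_coe] at hd hd'
  have h1 := hM.2 d.1 (hX ((mem_cut G X d).1 hd).1)
  rw [deg, Finset.card_eq_one] at h1
  obtain ⟨i, hi⟩ := h1
  have a : d.2 ∈ ({i} : Finset (Fin 3)) := by
    rw [← hi]
    simp only [Finset.mem_filter, Finset.mem_univ, true_and]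
    exact h d hd
  have b : d'.2 ∈ ({i} : Finset (Fin 3)) := by
    rw [← hi]
    simp only [Finset.mem_filter, Finset.mem_univ, true_and]
    rw [hdd]
    exact h d' hd'
  rw [Finset.mem_singleton] at a b
  exact Prod.ext hdd (a.trans b.symm)

theorem base_good {G : Gr V} (hG : G.Ok) (hc : G.Cyc) (h6 : G.A.card ≤ 6)
    (F M : Finset (V × Fin 3)) (hM : G.PM M) : G.Good F M := by
  intro X hX hcut
  by_contra hodd
  have he := even_A G hG
  have hcM : ∀ d ∈ G.cut X, d ∈ M := fun d hd => (hcut d hd).2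
  have hcM' : ∀ d ∈ G.cut (G.A \ X), d ∈ M := by
    intro d hd
    have h1 : d.1 ∈ G.A := (Finset.mem_sdiff.1 ((mem_cut G _ d).1 hd).1).1
    have h2 : G.mate (G.mate d) ∈ G.cut (G.A \ X) := by rw [hG.inv d h1]; exact hd
    have h3 := (mem_cut_compl G hG X (G.mate d) (hG.mem d h1)).1 h2
    exact (hM.1 d h1).2 (hcM _ ((mem_cut G X _).2 h3))
  have h1 := base_le hM X hX hcM
  have h2 := base_le hM (G.A \ X) Finset.sdiff_subset hcM'
  rw [card_cut_compl G hG X hX] at h2
  have h3 : (G.A \ X).card = G.A.card - X.card := Finset.card_sdiff_of_subset hX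
  have h4 := Finset.card_le_card hX
  rw [Nat.not_even_iff_odd, Nat.odd_iff] at hodd
  rw [Nat.even_iff] at he
  have hne : X.Nonempty := Finset.card_pos.1 (by omega)
  have hneA : X ≠ G.A := fun h => by rw [h] at hodd; omega
  have h5 := (hc X hX hne hneA).1
  by_cases h33 : X.card = 3 ∧ G.A.card = 6
  · have := small_cut hG hc (by omega) X hX hne (by omega)
    omega
  · omega

theorem base4 {G : Gr V} {F : Finset (V × Fin 3)} (hI : G.Inst F) (hc : G.Cyc) (h6 : G.A.card < 6)
    (d : V × Fin 3) (hd : d.1 ∈ G.A) : G.Star F d := by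
  have hG := hI.ok
  have he := even_A G hG
  rw [Nat.even_iff] at he
  have h0 : 0 < G.A.card := Finset.card_pos.2 ⟨_, hd⟩
  have hmd := hG.mem d hd
  have hl := base_loop hG hc d hd
  have hab : ({d.1, (G.mate d).1} : Finset V) ⊆ G.A := by
    intro x hx
    simp only [Finset.mem_insert, Finset.mem_singleton] at hx
    rcases hx with rfl | rfl
    · exact hd
    · exact hmd
  have hab2 : ({d.1, (G.mate d).1} : Finset V).card = 2 := Finset.card_pair hl.symm
  rcases (by omega : G.A.card = 2 ∨ G.A.card = 4) with h | h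
  · have hP := base_pm hG [d, G.mate d] (by simp [hd, hmd])
      (by
        intro e he
        simp only [List.mem_cons, List.not_mem_nil, or_false] at he ⊢
        rcases he with rfl | rfl
        · exact Or.inr rfl
        · exact Or.inl (hG.inv d hd))
      (by simp [hl.symm]) (by simp [h])
    exact ⟨_, hP, by simp, base_good hG hc (by omega) F _ hP⟩
  · have hW : (G.A \ {d.1, (G.mate d).1}).card = 2 := by
      rw [Finset.card_sdiff_of_subset hab, hab2, h]
    obtain ⟨c, e, hce, hW'⟩ := Finset.card_eq_two.1 hW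
    have hcW : c ∈ G.A \ {d.1, (G.mate d).1} := by rw [hW']; simp
    have heW : e ∈ G.A \ {d.1, (G.mate d).1} := by rw [hW']; simp
    simp only [Finset.mem_sdiff, Finset.mem_insert, Finset.mem_singleton, not_or] at hcW heW
    obtain ⟨k, hk1, hk2⟩ : ∃ k : V × Fin 3, k.1 = c ∧ (G.mate k).1 = e := by
      by_contra hno
      push Not at hno
      have h1 := sm_cut_le (G := G) {d.1, (G.mate d).1} {d, G.mate d} (by
        intro e he
        simp only [Finset.mem_insert, Finset.mem_singleton] at he ⊢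
        rcases he with rfl | rfl
        · exact ⟨Or.inl rfl, Or.inr rfl⟩
        · rw [hG.inv d hd]; exact ⟨Or.inr rfl, Or.inl rfl⟩)
      rw [Finset.card_pair (hG.ne d hd).symm, hab2, ← card_cut_compl G hG _ hab, hW'] at h1
      have h2 : ({c, e} : Finset V) ×ˢ (Finset.univ : Finset (Fin 3)) ⊆ G.cut {c, e} := by
        intro x hx
        simp only [Finset.mem_product, Finset.mem_univ, and_true, Finset.mem_insert,
          Finset.mem_singleton] at hx
        rw [mem_cut]
        simp only [Finset.mem_insert, Finset.mem_singleton, not_or]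
        rcases hx with hx | hx
        · have hxA : x.1 ∈ G.A := by rw [hx]; exact hcW.1
          refine ⟨Or.inl hx, ?_, hno x hx⟩
          have := base_loop hG hc x hxA
          rwa [hx] at this
        · have hxA : x.1 ∈ G.A := by rw [hx]; exact heW.1
          refine ⟨Or.inr hx, fun h' => hno (G.mate x) h' ?_, ?_⟩
          · rw [hG.inv x hxA]; exact hx
          · have := base_loop hG hc x hxA
            rwa [hx] at this
      have h3 := Finset.card_le_card h2
      rw [Finset.card_product, Finset.card_pair hce] at h3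
      simp only [Finset.card_univ, Fintype.card_fin] at h3
      omega
    have hkA : k.1 ∈ G.A := by rw [hk1]; exact hcW.1
    have hP := base_pm hG [d, G.mate d, k, G.mate k] (by simp [hd, hmd, hkA, hk2, heW.1])
      (by
        intro x hx
        simp only [List.mem_cons, List.not_mem_nil, or_false] at hx ⊢
        rcases hx with rfl | rfl | rfl | rfl
        · exact Or.inr (Or.inl rfl)
        · exact Or.inl (hG.inv d hd)
        · exact Or.inr (Or.inr (Or.inr rfl))
        · exact Or.inr (Or.inr (Or.inl (hG.inv k hkA))))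
      (by
        simp only [List.map_cons, List.map_nil, List.nodup_cons, List.mem_cons,
          List.not_mem_nil, or_false, not_or, hk1, hk2, not_false_eq_true, List.nodup_nil, and_true]
        exact ⟨⟨hl.symm, Ne.symm hcW.2.1, Ne.symm heW.2.1⟩,
          ⟨Ne.symm hcW.2.2, Ne.symm heW.2.2⟩, hce⟩)
      (by simp [h])
    exact ⟨_, hP, by simp, base_good hG hc (by omega) F _ hP⟩

omit [DecidableEq V] in
/-- The two other darts at the vertex of `d`. -/
theorem base_other (d : V × Fin 3) : ∃ p q : V × Fin 3, p.1 = d.1 ∧ q.1 = d.1 ∧ p ≠ d ∧ q ≠ d ∧ p ≠ q := by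
  obtain ⟨v, i⟩ := d
  have : ∀ i : Fin 3, ∃ j k : Fin 3, j ≠ i ∧ k ≠ i ∧ j ≠ k := by decide
  obtain ⟨j, k, h1, h2, h3⟩ := this i
  exact ⟨(v, j), (v, k), rfl, rfl, fun h => h1 (congrArg Prod.snd h),
    fun h => h2 (congrArg Prod.snd h), fun h => h3 (congrArg Prod.snd h)⟩

theorem base6 {G : Gr V} {F : Finset (V × Fin 3)} (hI : G.Inst F) (hc : G.Cyc) (h6 : G.A.card = 6)
    (d : V × Fin 3) (hd : d.1 ∈ G.A) : G.Star F d := by
  have hG := hI.ok
  have h6' : 6 ≤ G.A.card := h6.ge
  have hmd := hG.mem d hd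
  have hl := no_loop hG hc h6' d hd
  -- `p`, `q` the other darts at `a = d.1`; `a1, a2` their ends
  obtain ⟨p, q, hp1, hq1, hpd, hqd, hpq⟩ := base_other d
  have hpA : p.1 ∈ G.A := by rw [hp1]; exact hd
  have hqA : q.1 ∈ G.A := by rw [hq1]; exact hd
  have hmp := hG.mem p hpA
  have hmq := hG.mem q hqA
  have hlp : (G.mate p).1 ≠ d.1 := by rw [← hp1]; exact no_loop hG hc h6' p hpA
  have hlq : (G.mate q).1 ≠ d.1 := by rw [← hq1]; exact no_loop hG hc h6' q hqA
  have e1 : (G.mate p).1 ≠ (G.mate d).1 := no_par hG hc h6' d p hd hpd hp1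
  have e2 : (G.mate q).1 ≠ (G.mate d).1 := no_par hG hc h6' d q hd hqd hq1
  have e3 : (G.mate q).1 ≠ (G.mate p).1 := no_par hG hc h6' p q hpA (Ne.symm hpq) (by rw [hq1, hp1])
  -- a dart at `a1` other than `mate p`
  obtain ⟨m, m', hm1, hm1', hmp', hmp'', hmm⟩ := base_other (G.mate p)
  have hmA : m.1 ∈ G.A := by rw [hm1]; exact hmp
  have w1 : (G.mate m).1 ≠ (G.mate p).1 := by rw [← hm1]; exact no_loop hG hc h6' m hmA
  have w2 : (G.mate m).1 ≠ d.1 := by
    have := no_par hG hc h6' (G.mate p) m hmp hmp' hm1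
    rwa [hG.inv p hpA, hp1] at this
  have w3 : (G.mate m).1 ≠ (G.mate d).1 :=
    no_tri hG hc h6' p d m hpA (Ne.symm hpd) hp1.symm hm1
  have w4 : (G.mate m).1 ≠ (G.mate q).1 :=
    no_tri hG hc h6' p q m hpA (Ne.symm hpq) (by rw [hq1, hp1]) hm1
  -- a dart at `a2` other than `mate q`, not ending at the end of `m`
  obtain ⟨n, hn1, hnq, hnm⟩ : ∃ n : V × Fin 3, n.1 = (G.mate q).1 ∧ n ≠ G.mate q ∧
      (G.mate n).1 ≠ (G.mate m).1 := by
    obtain ⟨n, n', hn1, hn1', hnq, hnq', hnn⟩ := base_other (G.mate q)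
    have hnA : n.1 ∈ G.A := by rw [hn1]; exact hmq
    by_cases h : (G.mate n).1 = (G.mate m).1
    · refine ⟨n', hn1', hnq', fun h' => ?_⟩
      exact no_par hG hc h6' n n' hnA (Ne.symm hnn) (by rw [hn1', hn1]) (h'.trans h.symm)
    · exact ⟨n, hn1, hnq, h⟩
  have hnA : n.1 ∈ G.A := by rw [hn1]; exact hmq
  have u1 : (G.mate n).1 ≠ (G.mate q).1 := by rw [← hn1]; exact no_loop hG hc h6' n hnA
  have u2 : (G.mate n).1 ≠ d.1 := by
    have := no_par hG hc h6' (G.mate q) n hmq hnq hn1
    rwa [hG.inv q hqA, hq1] at this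
  have u3 : (G.mate n).1 ≠ (G.mate d).1 :=
    no_tri hG hc h6' q d n hqA (Ne.symm hqd) hq1.symm hn1
  have u4 : (G.mate n).1 ≠ (G.mate p).1 :=
    no_tri hG hc h6' q p n hqA hpq (by rw [hq1, hp1]) hn1
  have hmm1 := hG.mem m hmA
  have hmn1 := hG.mem n hnA
  have hP := base_pm hG [d, G.mate d, m, G.mate m, n, G.mate n]
    (by
      intro x hx
      simp only [List.mem_cons, List.not_mem_nil, or_false] at hx
      rcases hx with rfl | rfl | rfl | rfl | rfl | rfl
      exacts [hd, hmd, hmA, hmm1, hnA, hmn1])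
    (by
      intro x hx
      simp only [List.mem_cons, List.not_mem_nil, or_false] at hx ⊢
      rcases hx with rfl | rfl | rfl | rfl | rfl | rfl
      · exact Or.inr (Or.inl rfl)
      · exact Or.inl (hG.inv d hd)
      · exact Or.inr (Or.inr (Or.inr (Or.inl rfl)))
      · exact Or.inr (Or.inr (Or.inl (hG.inv m hmA)))
      · exact Or.inr (Or.inr (Or.inr (Or.inr (Or.inr rfl))))
      · exact Or.inr (Or.inr (Or.inr (Or.inr (Or.inl (hG.inv n hnA))))))
    (by
      simp only [List.map_cons, List.map_nil, List.nodup_cons, List.mem_cons,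
        List.not_mem_nil, or_false, not_or, hm1, hn1, not_false_eq_true, List.nodup_nil, and_true]
      exact ⟨⟨hl.symm, hlp.symm, w2.symm, hlq.symm, u2.symm⟩,
        ⟨e1.symm, w3.symm, e2.symm, u3.symm⟩, ⟨w1.symm, e3.symm, u4.symm⟩, ⟨w4, hnm.symm⟩,
        u1.symm⟩)
    (by simp [h6])
  exact ⟨_, hP, by simp, base_good hG hc h6.le F _ hP⟩

end Pool.Agent.Lib.MP_1dc4d0_coA6
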