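import Pool.Agent.Lib.MP_1dc4d0_coA6.Star0

set_option autoImplicit false

namespace Pool.Agent.Lib.MP_1dc4d0_coA6

open Finset

variable {V : Type} [DecidableEq V]

namespace Gl

theorem deg_congr' {P Q : Finset (V × Fin 3)} {v : V} (h : ∀ d : V × Fin 3, d.1 = v → (d ∈ P ↔ d ∈ Q)) :
    deg P v = deg Q v := by
  unfold deg
  congr 1
  ext i
  simp only [Finset.mem_filter, Finset.mem_univ, true_and]
  exact h (v, i) rfl

/-- Two matchings on the two sides. -/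
def glue (X : Finset V) (M₁ M₂ : Finset (V × Fin 3)) : Finset (V × Fin 3) :=
  M₁.filter (fun d => d.1 ∈ X) ∪ M₂.filter (fun d => d.1 ∉ X)

theorem mem_glue_in {X : Finset V} {M₁ M₂ : Finset (V × Fin 3)} {d : V × Fin 3} (h : d.1 ∈ X) :
    d ∈ glue X M₁ M₂ ↔ d ∈ M₁ := by
  simp [glue, h]

theorem mem_glue_out {X : Finset V} {M₁ M₂ : Finset (V × Fin 3)} {d : V × Fin 3} (h : d.1 ∉ X) :
    d ∈ glue X M₁ M₂ ↔ d ∈ M₂ := by
  simp [glue, h]

theorem deg_glue_in {X : Finset V} {M₁ M₂ : Finset (V × Fin 3)} {v : V} (h : v ∈ X) :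
    deg (glue X M₁ M₂) v = deg M₁ v :=
  deg_congr' fun _ hd => mem_glue_in (hd ▸ h)

theorem deg_glue_out {X : Finset V} {M₁ M₂ : Finset (V × Fin 3)} {v : V} (h : v ∉ X) :
    deg (glue X M₁ M₂) v = deg M₂ v :=
  deg_congr' fun _ hd => mem_glue_out (hd ▸ h)

/-- The part of a graph on a set which no edge leaves. -/
theorem inst0 {G : Gr V} {F : Finset (V × Fin 3)} (hI : G.Inst F) (X : Finset V)
    (hX : X ⊆ G.A) (h0 : G.cut X = ∅) : (Gr.mk X G.mate).Inst F := by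
  have hm : ∀ d : V × Fin 3, d.1 ∈ X → (G.mate d).1 ∈ X := by
    intro d hd
    by_contra h
    have : d ∈ G.cut X := (mem_cut G X d).2 ⟨hd, h⟩
    rw [h0] at this
    exact Finset.notMem_empty _ this
  exact {
    ok := ⟨hm, fun d hd => hI.ok.inv d (hX hd), fun d hd => hI.ok.ne d (hX hd)⟩
    br := fun Y hY => hI.br Y (hY.trans hX)
    join := ⟨fun d hd => hI.join.1 d (hX hd), fun v hv => hI.join.2 v (hX hv)⟩
    few := fun f hf ho => hI.few f (fun i => ⟨(hf i).1.trans hX, (hf i).2⟩) ho }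

theorem cut0_aux {G : Gr V} {F : Finset (V × Fin 3)} (hI : G.Inst F) (ih : IH V G.A.card) (X : Finset V)
    (hX : X ⊆ G.A) (hne' : X ≠ G.A) (h0 : G.cut X = ∅) (h0' : G.cut (G.A \ X) = ∅)
    (d : V × Fin 3) (hd : d.1 ∈ X) : G.Star F d := by
  have hm : ∀ d : V × Fin 3, d.1 ∈ X → (G.mate d).1 ∈ X := by
    intro d hd
    by_contra h
    have : d ∈ G.cut X := (mem_cut G X d).2 ⟨hd, h⟩
    rw [h0] at this
    exact Finset.notMem_empty _ this
  have hm' : ∀ d : V × Fin 3, d.1 ∈ G.A → d.1 ∉ X → (G.mate d).1 ∉ X := by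
    intro d hd hdX h
    have : d ∈ G.cut (G.A \ X) := (mem_cut G _ d).2
      ⟨Finset.mem_sdiff.2 ⟨hd, hdX⟩, fun hh => (Finset.mem_sdiff.1 hh).2 h⟩
    rw [h0'] at this
    exact Finset.notMem_empty _ this
  obtain ⟨w, hw, hwX⟩ : ∃ w ∈ G.A, w ∉ X := by
    by_contra hcon
    push Not at hcon
    exact hne' (Finset.Subset.antisymm hX hcon)
  have c1 : X.card < G.A.card := Finset.card_lt_card ((Finset.ssubset_iff_of_subset hX).2 ⟨w, hw, hwX⟩)
  have c2 : (G.A \ X).card < G.A.card := by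
    refine Finset.card_lt_card ((Finset.ssubset_iff_of_subset Finset.sdiff_subset).2 ⟨d.1, hX hd, ?_⟩)
    simp [hd]
  obtain ⟨M₁, hM₁, hdM, hg₁⟩ := ih _ F (inst0 hI X hX h0) c1 d hd
  obtain ⟨M₂, hM₂, -, hg₂⟩ := ih _ F (inst0 hI (G.A \ X) Finset.sdiff_subset h0') c2 (w, 0)
    (Finset.mem_sdiff.2 ⟨hw, hwX⟩)
  refine ⟨glue X M₁ M₂, ⟨?_, ?_⟩, (mem_glue_in hd).2 hdM, ?_⟩
  · intro e he
    by_cases heX : e.1 ∈ X
    · rw [mem_glue_in heX, mem_glue_in (hm e heX)]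
      exact hM₁.1 e heX
    · rw [mem_glue_out heX, mem_glue_out (hm' e he heX)]
      exact hM₂.1 e (Finset.mem_sdiff.2 ⟨he, heX⟩)
  · intro v hv
    by_cases hvX : v ∈ X
    · rw [deg_glue_in hvX]
      exact hM₁.2 v hvX
    · rw [deg_glue_out hvX]
      exact hM₂.2 v (Finset.mem_sdiff.2 ⟨hv, hvX⟩)
  · intro Z hZ hcut
    have e1 : Even (Z ∩ X).card := by
      refine hg₁ _ Finset.inter_subset_right fun e he => ?_
      rw [mem_cut] at he
      obtain ⟨h1, h2⟩ := he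
      rw [Finset.mem_inter] at h1 h2
      have h3 := hm e h1.2
      have h4 := hcut e ((mem_cut _ _ _).2 ⟨h1.1, fun h => h2 ⟨h, h3⟩⟩)
      exact ⟨h4.1, (mem_glue_in h1.2).1 h4.2⟩
    have e2 : Even (Z \ X).card := by
      refine hg₂ _ (fun v hv => ?_) fun e he => ?_
      · rw [Finset.mem_sdiff] at hv
        exact Finset.mem_sdiff.2 ⟨hZ hv.1, hv.2⟩
      · rw [mem_cut] at he
        obtain ⟨h1, h2⟩ := he
        rw [Finset.mem_sdiff] at h1 h2
        have h3 := hm' e (hZ h1.1) h1.2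
        have h4 := hcut e ((mem_cut _ _ _).2 ⟨h1.1, fun h => h2 ⟨h, h3⟩⟩)
        exact ⟨h4.1, (mem_glue_out h1.2).1 h4.2⟩
    rw [← Finset.card_inter_add_card_sdiff Z X]
    exact e1.add e2

end Gl

open Gl

theorem cut0 {G : Gr V} {F : Finset (V × Fin 3)} (hI : G.Inst F) (ih : IH V G.A.card) (X : Finset V)
    (hX : X ⊆ G.A) (hne : X.Nonempty) (hne' : X ≠ G.A) (h0 : (G.cut X).card = 0) (d : V × Fin 3)
    (hd : d.1 ∈ G.A) : G.Star F d := by
  have h1 : G.cut X = ∅ := Finset.card_eq_zero.1 h0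
  have h2 : G.cut (G.A \ X) = ∅ := by
    rw [← Finset.card_eq_zero, card_cut_compl G hI.ok X hX, h0]
  by_cases hdX : d.1 ∈ X
  · exact cut0_aux hI ih X hX hne' h1 h2 d hdX
  · refine cut0_aux hI ih (G.A \ X) Finset.sdiff_subset ?_ h2 ?_ d (Finset.mem_sdiff.2 ⟨hd, hdX⟩)
    · intro h
      obtain ⟨v, hv⟩ := hne
      have := hX hv
      rw [← h, Finset.mem_sdiff] at this
      exact this.2 hv
    · rw [Finset.sdiff_sdiff_eq_self hX]
      exact h1

end Pool.Agent.Lib.MP_1dc4d0_coA6
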