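import Pool.Agent.Lib.MP_1dc4d0_coA6.Cut0

set_option autoImplicit false

namespace Pool.Agent.Lib.MP_1dc4d0_coA6

open Finset

variable {V : Type} [DecidableEq V]

namespace Gl

/-- The darts `p`, `q` are the two darts that leave `X`. -/
structure C2 (G : Gr V) (X : Finset V) (p q : V × Fin 3) : Prop where
  ok : G.Ok
  hX : X ⊆ G.A
  hpq : p ≠ q
  hcut : G.cut X = {p, q}

/-- The graph on `X` with the darts `p`, `q` joined. -/
def re (G : Gr V) (X : Finset V) (p q : V × Fin 3) : Gr V where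
  A := X
  mate := fun d => if d = p then q else if d = q then p else G.mate d

section

variable {G : Gr V} {X : Finset V} {p q : V × Fin 3}

theorem C2.mem_iff (h : C2 G X p q) (d : V × Fin 3) : d ∈ G.cut X ↔ d = p ∨ d = q := by
  rw [h.hcut, Finset.mem_insert, Finset.mem_singleton]

theorem C2.p1 (h : C2 G X p q) : p.1 ∈ X := ((mem_cut G X p).1 ((h.mem_iff p).2 (Or.inl rfl))).1

theorem C2.q1 (h : C2 G X p q) : q.1 ∈ X := ((mem_cut G X q).1 ((h.mem_iff q).2 (Or.inr rfl))).1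

theorem C2.mp (h : C2 G X p q) : (G.mate p).1 ∉ X :=
  ((mem_cut G X p).1 ((h.mem_iff p).2 (Or.inl rfl))).2

theorem C2.mq (h : C2 G X p q) : (G.mate q).1 ∉ X :=
  ((mem_cut G X q).1 ((h.mem_iff q).2 (Or.inr rfl))).2

theorem C2.mem (h : C2 G X p q) {d : V × Fin 3} (hd : d.1 ∈ X) (hp : d ≠ p) (hq : d ≠ q) :
    (G.mate d).1 ∈ X := by
  by_contra hc
  rcases (h.mem_iff d).1 ((mem_cut G X d).2 ⟨hd, hc⟩) with h | h
  · exact hp h
  · exact hq h

theorem C2.compl (h : C2 G X p q) : C2 G (G.A \ X) (G.mate p) (G.mate q) where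
  ok := h.ok
  hX := Finset.sdiff_subset
  hpq := fun he => h.hpq (by rw [← h.ok.inv p (h.hX h.p1), he, h.ok.inv q (h.hX h.q1)])
  hcut := by
    ext d
    rw [Finset.mem_insert, Finset.mem_singleton]
    constructor
    · intro hd
      rw [mem_cut, Finset.mem_sdiff, Finset.mem_sdiff] at hd
      obtain ⟨⟨h1, h2⟩, h3⟩ := hd
      have h4 : (G.mate d).1 ∈ X := by
        by_contra hc
        exact h3 ⟨h.ok.mem d h1, hc⟩
      have h5 : G.mate d ∈ G.cut X := (mem_cut _ _ _).2 ⟨h4, by rw [h.ok.inv d h1]; exact h2⟩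
      rcases (h.mem_iff _).1 h5 with h6 | h6
      · left; rw [← h6, h.ok.inv d h1]
      · right; rw [← h6, h.ok.inv d h1]
    · rintro (rfl | rfl)
      · rw [mem_cut, h.ok.inv p (h.hX h.p1), Finset.mem_sdiff, Finset.mem_sdiff]
        exact ⟨⟨h.ok.mem p (h.hX h.p1), h.mp⟩, fun hh => hh.2 h.p1⟩
      · rw [mem_cut, h.ok.inv q (h.hX h.q1), Finset.mem_sdiff, Finset.mem_sdiff]
        exact ⟨⟨h.ok.mem q (h.hX h.q1), h.mq⟩, fun hh => hh.2 h.q1⟩

theorem re_p : (re G X p q).mate p = q := by simp [re]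

theorem re_q (h : p ≠ q) : (re G X p q).mate q = p := by simp [re, h.symm]

theorem re_of {d : V × Fin 3} (hp : d ≠ p) (hq : d ≠ q) : (re G X p q).mate d = G.mate d := by
  simp [re, hp, hq]

theorem C2.mate_ne_p (h : C2 G X p q) {d : V × Fin 3} (hd : d.1 ∈ X) : G.mate d ≠ p := by
  intro he
  apply h.mp
  rw [← he, h.ok.inv d (h.hX hd)]
  exact hd

theorem C2.mate_ne_q (h : C2 G X p q) {d : V × Fin 3} (hd : d.1 ∈ X) : G.mate d ≠ q := by
  intro he
  apply h.mq
  rw [← he, h.ok.inv d (h.hX hd)]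
  exact hd

theorem C2.re_ok (h : C2 G X p q) : (re G X p q).Ok where
  mem := by
    intro d hd
    change d.1 ∈ X at hd
    change ((re G X p q).mate d).1 ∈ X
    by_cases hp : d = p
    · rw [hp, re_p]; exact h.q1
    · by_cases hq : d = q
      · rw [hq, re_q h.hpq]; exact h.p1
      · rw [re_of hp hq]; exact h.mem hd hp hq
  inv := by
    intro d hd
    change d.1 ∈ X at hd
    by_cases hp : d = p
    · rw [hp, re_p, re_q h.hpq]
    · by_cases hq : d = q
      · rw [hq, re_q h.hpq, re_p]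
      · rw [re_of hp hq, re_of (h.mate_ne_p hd) (h.mate_ne_q hd), h.ok.inv d (h.hX hd)]
  ne := by
    intro d hd
    change d.1 ∈ X at hd
    by_cases hp : d = p
    · rw [hp, re_p]; exact h.hpq.symm
    · by_cases hq : d = q
      · rw [hq, re_q h.hpq]; exact h.hpq
      · rw [re_of hp hq]; exact h.ok.ne d (h.hX hd)

/-- The cut of a set which does not contain `p`. -/
theorem C2.cut_re (h : C2 G X p q) {Y : Finset V} (hY : Y ⊆ X) (hp : p.1 ∉ Y) :
    (re G X p q).cut Y = G.cut Y := by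
  ext d
  rw [mem_cut, mem_cut]
  refine and_congr_right fun hd => ?_
  have hdp : d ≠ p := fun he => hp (he ▸ hd)
  by_cases hq : d = q
  · rw [hq, re_q h.hpq]
    exact ⟨fun _ hc => h.mq (hY hc), fun _ => hp⟩
  · rw [re_of hdp hq]

theorem C2.re_br (h : C2 G X p q) (hb : G.Bridgeless) : (re G X p q).Bridgeless := by
  intro Y hY
  change Y ⊆ X at hY
  by_cases hp : p.1 ∈ Y
  · have h1 := card_cut_compl (re G X p q) h.re_ok Y hY
    rw [← h1]
    change ((re G X p q).cut (X \ Y)).card ≠ 1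
    rw [h.cut_re Finset.sdiff_subset (fun hc => (Finset.mem_sdiff.1 hc).2 hp)]
    exact hb _ (Finset.sdiff_subset.trans h.hX)
  · rw [h.cut_re hY hp]
    exact hb _ (hY.trans h.hX)

theorem C2.even (h : C2 G X p q) : X.card % 2 = 0 := by
  rw [par_all G h.ok X h.hX, h.hcut, Finset.card_pair h.hpq]

theorem C2.even' (h : C2 G X p q) : (G.A \ X).card % 2 = 0 := h.compl.even

theorem C2.mem_F (h : C2 G X p q) {F : Finset (V × Fin 3)} (hF : G.Join F) : p ∈ F ↔ q ∈ F := by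
  have h1 := par_join G h.ok F hF X h.hX
  rw [h.even, h.hcut] at h1
  by_cases hp : p ∈ F
  · by_cases hq : q ∈ F
    · exact iff_of_true hp hq
    · rw [Finset.filter_insert, if_pos hp, Finset.filter_singleton, if_neg hq] at h1
      simp at h1
  · by_cases hq : q ∈ F
    · rw [Finset.filter_insert, if_neg hp, Finset.filter_singleton, if_pos hq] at h1
      simp at h1
    · exact iff_of_false hp hq

theorem C2.re_join (h : C2 G X p q) {F : Finset (V × Fin 3)} (hF : G.Join F) :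
    (re G X p q).Join F := by
  refine ⟨?_, fun v hv => hF.2 v (h.hX hv)⟩
  intro d hd
  change d.1 ∈ X at hd
  by_cases hp : d = p
  · rw [hp, re_p]; exact h.mem_F hF
  · by_cases hq : d = q
    · rw [hq, re_q h.hpq]; exact (h.mem_F hF).symm
    · rw [re_of hp hq]; exact hF.1 d (h.hX hd)

theorem C2.re_cc (h : C2 G X p q) {F : Finset (V × Fin 3)} (hF : G.Join F) {Y : Finset V}
    (hY : (re G X p q).CC F Y) :
    G.CC F (if p ∉ F ∧ p.1 ∈ Y then Y ∪ (G.A \ X) else Y) := by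
  obtain ⟨hYX, hc⟩ := hY
  change Y ⊆ X at hYX
  split_ifs with hpY
  · obtain ⟨hpF, hpY⟩ := hpY
    have hqF : q ∉ F := fun hh => hpF ((h.mem_F hF).2 hh)
    have hqY : q.1 ∈ Y := by
      by_contra hh
      exact hpF (hc p ((mem_cut _ _ _).2 ⟨hpY, by rw [re_p]; exact hh⟩))
    refine ⟨Finset.union_subset (hYX.trans h.hX) Finset.sdiff_subset, ?_⟩
    intro d hd
    rw [mem_cut, Finset.mem_union, Finset.mem_union, Finset.mem_sdiff, Finset.mem_sdiff] at hd
    obtain ⟨hd1, hd2⟩ := hd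
    rcases hd1 with hd1 | ⟨hd1, hd1'⟩
    · have h3 : (G.mate d).1 ∈ X := by
        by_contra hh
        exact hd2 (Or.inr ⟨h.ok.mem d (h.hX (hYX hd1)), hh⟩)
      have hdp : d ≠ p := fun he => h.mp (he ▸ h3)
      have hdq : d ≠ q := fun he => h.mq (he ▸ h3)
      exact hc d ((mem_cut _ _ _).2 ⟨hd1, by rw [re_of hdp hdq]; exact fun hh => hd2 (Or.inl hh)⟩)
    · exfalso
      have h3 : (G.mate d).1 ∈ X := by
        by_contra hh
        exact hd2 (Or.inr ⟨h.ok.mem d hd1, hh⟩)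
      have h4 : G.mate d ∈ G.cut X := (mem_cut _ _ _).2 ⟨h3, by rw [h.ok.inv d hd1]; exact hd1'⟩
      rcases (h.mem_iff _).1 h4 with h5 | h5
      · exact hd2 (Or.inl (by rw [h5]; exact hpY))
      · exact hd2 (Or.inl (by rw [h5]; exact hqY))
  · refine ⟨hYX.trans h.hX, ?_⟩
    intro d hd
    rw [mem_cut] at hd
    by_cases hpF : p ∈ F
    · by_cases hdp : d = p
      · rw [hdp]; exact hpF
      · by_cases hdq : d = q
        · rw [hdq]; exact (h.mem_F hF).1 hpF
        · exact hc d ((mem_cut _ _ _).2 ⟨hd.1, by rw [re_of hdp hdq]; exact hd.2⟩)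
    · have hpY' : p.1 ∉ Y := fun hh => hpY ⟨hpF, hh⟩
      refine hc d ?_
      rw [h.cut_re hYX hpY', mem_cut]
      exact hd

theorem C2.re_few (h : C2 G X p q) {F : Finset (V × Fin 3)} (hF : G.Join F) (hf : G.Few F) :
    (re G X p q).Few F := by
  intro f hf1 hf2
  obtain ⟨i, j, hij, hd⟩ := hf (fun i => if p ∉ F ∧ p.1 ∈ f i then f i ∪ (G.A \ X) else f i)
    (fun i => h.re_cc hF (hf1 i)) (by
      intro i
      split_ifs
      · rw [Finset.card_union_of_disjoint, Nat.odd_add, Nat.even_iff]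
        · exact ⟨fun _ => h.even', fun _ => hf2 i⟩
        · rw [Finset.disjoint_left]
          exact fun v hv hv' => (Finset.mem_sdiff.1 hv').2 ((hf1 i).1 hv)
      · exact hf2 i)
  refine ⟨i, j, hij, fun hdis => hd ?_⟩
  have key : ∀ i : Fin 7, Disjoint (f i) (G.A \ X) := by
    intro i
    rw [Finset.disjoint_left]
    exact fun v hv hv' => (Finset.mem_sdiff.1 hv').2 ((hf1 i).1 hv)
  split_ifs with a b c
  · exfalso
    rw [Finset.disjoint_left] at hdis
    exact hdis a.2 b.2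
  · rw [Finset.disjoint_union_left]
    exact ⟨hdis, (key j).symm⟩
  · rw [Finset.disjoint_union_right]
    exact ⟨hdis, key i⟩
  · exact hdis

theorem C2.re_inst (h : C2 G X p q) {F : Finset (V × Fin 3)} (hI : G.Inst F) :
    (re G X p q).Inst F :=
  ⟨h.re_ok, h.re_br hI.br, h.re_join hI.join, h.re_few hI.join hI.few⟩

/-- The part of `Z` in `X` is even. -/
theorem C2.half (h : C2 G X p q) {F M : Finset (V × Fin 3)} (hF : G.Join F)
    (hM : (re G X p q).PM M) (hg : (re G X p q).Good F M) (Z : Finset V)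
    (hZ : ∀ d ∈ G.cut Z, d.1 ∈ X → d ∈ F ∧ d ∈ M) : Even (Z ∩ X).card := by
  have hd : ∀ d ∈ (re G X p q).cut (Z ∩ X), d ≠ p → d ≠ q → d ∈ F ∧ d ∈ M := by
    intro d hd hp hq
    rw [mem_cut, re_of hp hq, Finset.mem_inter, Finset.mem_inter] at hd
    have h3 := h.mem hd.1.2 hp hq
    exact hZ d ((mem_cut _ _ _).2 ⟨hd.1.1, fun hh => hd.2 ⟨hh, h3⟩⟩) hd.1.2
  have h1 := no_one (re G X p q) h.re_ok F M (h.re_join hF) hM (Z ∩ X) Finset.inter_subset_right
  refine hg (Z ∩ X) Finset.inter_subset_right fun d hdc => ?_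
  by_contra hcon
  apply h1
  rw [Finset.card_eq_one]
  refine ⟨d, ?_⟩
  ext e
  rw [Finset.mem_filter, Finset.mem_singleton]
  constructor
  · rintro ⟨he, he'⟩
    have hep : e = p ∨ e = q := by
      by_contra hh
      rw [not_or] at hh
      exact he' (hd e he hh.1 hh.2)
    have hdp : d = p ∨ d = q := by
      by_contra hh
      rw [not_or] at hh
      exact hcon (hd d hdc hh.1 hh.2)
    rw [mem_cut] at he hdc
    rcases hep with rfl | rfl <;> rcases hdp with rfl | rfl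
    · rfl
    · exfalso
      rw [re_p] at he
      exact he.2 hdc.1
    · exfalso
      rw [re_p] at hdc
      exact hdc.2 he.1
    · rfl
  · rintro rfl
    exact ⟨hdc, hcon⟩

end

theorem eq_of_deg {M : Finset (V × Fin 3)} {v : V} (h : deg M v = 1) {d e : V × Fin 3} (hd : d ∈ M)
    (he : e ∈ M) (hd1 : d.1 = v) (he1 : e.1 = v) : d = e := by
  obtain ⟨x, i⟩ := d
  obtain ⟨y, j⟩ := e
  simp only at hd1 he1
  subst hd1 he1
  rw [deg, Finset.card_eq_one] at h
  obtain ⟨k, hk⟩ := h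
  have h1 : i ∈ ({k} : Finset (Fin 3)) := by
    rw [← hk, Finset.mem_filter]
    exact ⟨Finset.mem_univ _, hd⟩
  have h2 : j ∈ ({k} : Finset (Fin 3)) := by
    rw [← hk, Finset.mem_filter]
    exact ⟨Finset.mem_univ _, he⟩
  rw [Finset.mem_singleton] at h1 h2
  rw [h1, h2]

omit [DecidableEq V] in
theorem ex_third (a b : V × Fin 3) : ∃ e : V × Fin 3, e.1 = a.1 ∧ e ≠ a ∧ e ≠ b := by
  obtain ⟨v, i⟩ := a
  obtain ⟨w, j⟩ := b
  have : ∃ k : Fin 3, k ≠ i ∧ k ≠ j := by
    revert i j; decide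
  obtain ⟨k, h1, h2⟩ := this
  refine ⟨(v, k), rfl, fun h => h1 ?_, fun h => h2 ?_⟩
  · exact (Prod.mk.inj h).2
  · exact (Prod.mk.inj h).2

theorem cut2_aux {G : Gr V} {F : Finset (V × Fin 3)} (hI : G.Inst F) (ih : IH V G.A.card)
    {X : Finset V} {p q : V × Fin 3} (h : C2 G X p q) (d : V × Fin 3) (hd : d.1 ∈ X) :
    G.Star F d := by
  have c1 : X.card < G.A.card := Finset.card_lt_card ((Finset.ssubset_iff_of_subset h.hX).2
    ⟨(G.mate p).1, h.ok.mem p (h.hX h.p1), h.mp⟩)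
  have c2 : (G.A \ X).card < G.A.card := by
    refine Finset.card_lt_card ((Finset.ssubset_iff_of_subset Finset.sdiff_subset).2 ⟨d.1, h.hX hd, ?_⟩)
    simp [hd]
  obtain ⟨M₁, hM₁, hdM, hg₁⟩ := ih _ F (h.re_inst hI) c1 d hd
  have hpA := h.hX h.p1
  have hqA := h.hX h.q1
  have hp1 : (G.mate p).1 ∈ G.A \ X := h.compl.p1
  have hq1 : (G.mate q).1 ∈ G.A \ X := h.compl.q1
  have hpM₁ : p ∈ M₁ ↔ q ∈ M₁ := by
    have := hM₁.1 p h.p1
    rwa [re_p] at this
  -- the matching on the other side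
  obtain ⟨M₂, hM₂, hg₂, hM⟩ : ∃ M₂, (re G (G.A \ X) (G.mate p) (G.mate q)).PM M₂ ∧
      (re G (G.A \ X) (G.mate p) (G.mate q)).Good F M₂ ∧ (p ∈ M₁ ↔ G.mate p ∈ M₂) := by
    by_cases hp : p ∈ M₁
    · obtain ⟨M₂, h1, h2, h3⟩ := ih _ F (h.compl.re_inst hI) c2 (G.mate p) hp1
      exact ⟨M₂, h1, h3, iff_of_true hp h2⟩
    · obtain ⟨e, he1, he2, -⟩ := ex_third (G.mate p) (G.mate q)
      obtain ⟨M₂, h1, h2, h3⟩ := ih _ F (h.compl.re_inst hI) c2 e (by rw [he1]; exact hp1)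
      exact ⟨M₂, h1, h3, iff_of_false hp fun hh => he2
        (eq_of_deg (h1.2 _ hp1) h2 hh he1 rfl)⟩
  have hpM₂ : G.mate p ∈ M₂ ↔ G.mate q ∈ M₂ := by
    have := hM₂.1 (G.mate p) hp1
    rwa [re_p] at this
  have hX' : ∀ v, v ∈ G.A \ X → v ∉ X := fun v hv => (Finset.mem_sdiff.1 hv).2
  have mp' : (p ∈ glue X M₁ M₂ ↔ G.mate p ∈ glue X M₁ M₂) := by
    rw [mem_glue_in h.p1, mem_glue_out h.mp]; exact hM
  have mq' : (q ∈ glue X M₁ M₂ ↔ G.mate q ∈ glue X M₁ M₂) := by
    rw [mem_glue_in h.q1, mem_glue_out h.mq, ← hpM₁, ← hpM₂]; exact hM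
  refine ⟨glue X M₁ M₂, ⟨?_, ?_⟩, (mem_glue_in hd).2 hdM, ?_⟩
  · intro e he
    by_cases heX : e.1 ∈ X
    · by_cases hep : e = p
      · rw [hep]; exact mp'
      · by_cases heq : e = q
        · rw [heq]; exact mq'
        · rw [mem_glue_in heX, mem_glue_in (h.mem heX hep heq)]
          have := hM₁.1 e heX
          rwa [re_of hep heq] at this
    · have heX' : e.1 ∈ G.A \ X := Finset.mem_sdiff.2 ⟨he, heX⟩
      by_cases hep : e = G.mate p
      · rw [hep, h.ok.inv p hpA]; exact mp'.symm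
      · by_cases heq : e = G.mate q
        · rw [heq, h.ok.inv q hqA]; exact mq'.symm
        · rw [mem_glue_out heX, mem_glue_out (hX' _ (h.compl.mem heX' hep heq))]
          have := hM₂.1 e heX'
          rwa [re_of hep heq] at this
  · intro v hv
    by_cases hvX : v ∈ X
    · rw [deg_glue_in hvX]
      exact hM₁.2 v hvX
    · rw [deg_glue_out hvX]
      exact hM₂.2 v (Finset.mem_sdiff.2 ⟨hv, hvX⟩)
  · intro Z hZ hcut
    have e1 : Even (Z ∩ X).card := by
      refine h.half hI.join hM₁ hg₁ Z fun e he heX => ?_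
      have h4 := hcut e he
      exact ⟨h4.1, (mem_glue_in heX).1 h4.2⟩
    have e2 : Even (Z ∩ (G.A \ X)).card := by
      refine h.compl.half hI.join hM₂ hg₂ Z fun e he heX => ?_
      have h4 := hcut e he
      exact ⟨h4.1, (mem_glue_out (hX' _ heX)).1 h4.2⟩
    have e3 : Z ∩ (G.A \ X) = Z \ X := by
      ext v
      simp only [Finset.mem_inter, Finset.mem_sdiff]
      exact ⟨fun hh => ⟨hh.1, hh.2.2⟩, fun hh => ⟨hh.1, hZ hh.1, hh.2⟩⟩
    rw [e3] at e2
    rw [← Finset.card_inter_add_card_sdiff Z X]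
    exact e1.add e2

end Gl

open Gl

theorem cut2 {G : Gr V} {F : Finset (V × Fin 3)} (hI : G.Inst F) (ih : IH V G.A.card) (X : Finset V)
    (hX : X ⊆ G.A) (h2 : (G.cut X).card = 2) (d : V × Fin 3)
    (hd : d.1 ∈ G.A) : G.Star F d := by
  obtain ⟨p, q, hpq, hcut⟩ := Finset.card_eq_two.1 h2
  have h : C2 G X p q := ⟨hI.ok, hX, hpq, hcut⟩
  by_cases hdX : d.1 ∈ X
  · exact cut2_aux hI ih h d hdX
  · exact cut2_aux hI ih h.compl d (Finset.mem_sdiff.2 ⟨hd, hdX⟩)

end Pool.Agent.Lib.MP_1dc4d0_coA6
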