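import Pool.Agent.Lib.MP_1dc4d0_coA6.Star0

set_option autoImplicit false

namespace Pool.Agent.Lib.MP_1dc4d0_coA6

open Finset

variable {V : Type} [DecidableEq V]

/-- The graph on `X` and one more vertex `z` to which the complement of `X` is contracted; `e` lists the darts
that leave `X`. -/
noncomputable def c3G (G : Gr V) (X : Finset V) (z : V) (e : Fin 3 → V × Fin 3) : Gr V where
  A := insert z X
  mate := fun d => if d.1 = z then e d.2 else if (G.mate d).1 ∈ X then G.mate d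
    else (z, Function.invFun e d)

/-- The corresponding set of darts. -/
def c3F (F : Finset (V × Fin 3)) (X : Finset V) (z : V) (e : Fin 3 → V × Fin 3) :
    Finset (V × Fin 3) :=
  ((insert z X) ×ˢ (Finset.univ : Finset (Fin 3))).filter
    (fun d => if d.1 = z then e d.2 ∈ F else d ∈ F)

structure C3 (G : Gr V) (X : Finset V) (z : V) (e : Fin 3 → V × Fin 3) : Prop where
  ok : G.Ok
  sub : X ⊆ G.A
  inj : Function.Injective e
  cut : ∀ d, d ∈ G.cut X ↔ ∃ i, e i = d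
  hz : z ∉ X

section con

variable {G : Gr V} {X : Finset V} {z : V} {e : Fin 3 → V × Fin 3}

private theorem c3_e1 (h : C3 G X z e) (i : Fin 3) : (e i).1 ∈ X :=
  ((mem_cut G X _).1 ((h.cut _).2 ⟨i, rfl⟩)).1

private theorem c3_e2 (h : C3 G X z e) (i : Fin 3) : (G.mate (e i)).1 ∉ X :=
  ((mem_cut G X _).1 ((h.cut _).2 ⟨i, rfl⟩)).2

private theorem c3_ne (h : C3 G X z e) {v : V} (hv : v ∈ X) : v ≠ z := by
  rintro rfl
  exact h.hz hv

private theorem c3_mz (i : Fin 3) : (c3G G X z e).mate (z, i) = e i := by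
  simp [c3G]

private theorem c3_min (h : C3 G X z e) {d : V × Fin 3} (hd : d.1 ∈ X) (hd' : (G.mate d).1 ∈ X) :
    (c3G G X z e).mate d = G.mate d := by
  simp only [c3G, if_neg (c3_ne h hd), if_pos hd']

private theorem c3_me (h : C3 G X z e) (i : Fin 3) : (c3G G X z e).mate (e i) = (z, i) := by
  simp only [c3G, if_neg (c3_ne h (c3_e1 h i)), if_neg (c3_e2 h i),
    Function.leftInverse_invFun h.inj i]

private theorem c3_cases (h : C3 G X z e) {d : V × Fin 3} (hd : d.1 ∈ X) :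
    (G.mate d).1 ∈ X ∨ ∃ i, e i = d := by
  by_cases hd' : (G.mate d).1 ∈ X
  · exact Or.inl hd'
  · exact Or.inr ((h.cut d).1 ((mem_cut G X d).2 ⟨hd, hd'⟩))

private theorem c3_cases' (h : C3 G X z e) {d : V × Fin 3} (hd : d.1 ∈ (c3G G X z e).A) :
    (∃ i, d = (z, i)) ∨ (d.1 ∈ X ∧ (G.mate d).1 ∈ X) ∨ ∃ i, d = e i := by
  have h1 : d.1 ∈ insert z X := hd
  rcases Finset.mem_insert.1 h1 with h2 | h2
  · exact Or.inl ⟨d.2, by rw [← h2]⟩
  · rcases c3_cases h h2 with h3 | ⟨i, h3⟩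
    · exact Or.inr (Or.inl ⟨h2, h3⟩)
    · exact Or.inr (Or.inr ⟨i, h3.symm⟩)

private theorem c3_ok (h : C3 G X z e) : (c3G G X z e).Ok := by
  refine ⟨fun d hd => ?_, fun d hd => ?_, fun d hd => ?_⟩
  · rcases c3_cases' h hd with ⟨i, rfl⟩ | ⟨h1, h2⟩ | ⟨i, rfl⟩
    · rw [c3_mz]
      exact Finset.mem_insert_of_mem (c3_e1 h i)
    · rw [c3_min h h1 h2]
      exact Finset.mem_insert_of_mem h2
    · rw [c3_me h]
      exact Finset.mem_insert_self _ _
  · rcases c3_cases' h hd with ⟨i, rfl⟩ | ⟨h1, h2⟩ | ⟨i, rfl⟩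
    · rw [c3_mz, c3_me h]
    · rw [c3_min h h1 h2, c3_min h h2 (by rw [h.ok.inv d (h.sub h1)]; exact h1),
        h.ok.inv d (h.sub h1)]
    · rw [c3_me h, c3_mz]
  · rcases c3_cases' h hd with ⟨i, rfl⟩ | ⟨h1, h2⟩ | ⟨i, rfl⟩
    · rw [c3_mz]
      intro h3
      have h4 := congrArg Prod.fst h3
      exact c3_ne h (c3_e1 h i) h4
    · rw [c3_min h h1 h2]
      exact h.ok.ne d (h.sub h1)
    · rw [c3_me h]
      intro h3
      have h4 := congrArg Prod.fst h3
      exact c3_ne h (c3_e1 h i) h4.symm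

private theorem c3_cut (h : C3 G X z e) {Y : Finset V} (hY : Y ⊆ X) :
    (c3G G X z e).cut Y = G.cut Y := by
  ext d
  rw [mem_cut, mem_cut]
  refine and_congr_right fun hd => ?_
  rcases c3_cases h (hY hd) with h1 | ⟨i, rfl⟩
  · rw [c3_min h (hY hd) h1]
  · rw [c3_me h]
    constructor
    · intro _ h2
      exact c3_e2 h i (hY h2)
    · intro _ h2
      exact h.hz (hY h2)

private theorem c3_br (h : C3 G X z e) (hb : G.Bridgeless) : (c3G G X z e).Bridgeless := by
  intro Y hY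
  have hY' : Y ⊆ insert z X := hY
  by_cases hz : z ∈ Y
  · rw [← card_cut_compl _ (c3_ok h) Y hY]
    have h1 : (c3G G X z e).A \ Y ⊆ X := by
      intro v hv
      have h2 : v ∈ insert z X := (Finset.mem_sdiff.1 hv).1
      rcases Finset.mem_insert.1 h2 with h3 | h3
      · exact absurd (h3 ▸ hz) (Finset.mem_sdiff.1 hv).2
      · exact h3
    rw [c3_cut h h1]
    exact hb _ (h1.trans h.sub)
  · have h1 : Y ⊆ X := by
      intro v hv
      rcases Finset.mem_insert.1 (hY' hv) with h3 | h3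
      · exact absurd (h3 ▸ hv) hz
      · exact h3
    rw [c3_cut h h1]
    exact hb _ (h1.trans h.sub)

variable {F : Finset (V × Fin 3)}

private theorem c3_Fz (i : Fin 3) : (z, i) ∈ c3F F X z e ↔ e i ∈ F := by
  simp [c3F]

private theorem c3_FX (h : C3 G X z e) {d : V × Fin 3} (hd : d.1 ∈ X) :
    d ∈ c3F F X z e ↔ d ∈ F := by
  simp [c3F, c3_ne h hd, hd]

private theorem c3_closed (h : C3 G X z e) (hF : G.Closed F) :
    (c3G G X z e).Closed (c3F F X z e) := by
  intro d hd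
  rcases c3_cases' h hd with ⟨i, rfl⟩ | ⟨h1, h2⟩ | ⟨i, rfl⟩
  · rw [c3_mz, c3_Fz, c3_FX h (c3_e1 h i)]
  · rw [c3_min h h1 h2, c3_FX h h1, c3_FX h h2]
    exact hF d (h.sub h1)
  · rw [c3_me h, c3_Fz, c3_FX h (c3_e1 h i)]

private theorem c3_count (h : C3 G X z e) (P : Finset (V × Fin 3)) :
    ((G.cut X).filter (fun d => d ∈ P)).card =
      (Finset.univ.filter (fun i : Fin 3 => e i ∈ P)).card := by
  rw [← Finset.card_image_of_injective _ h.inj]
  congr 1
  ext d
  rw [Finset.mem_filter, Finset.mem_image, h.cut]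
  constructor
  · rintro ⟨⟨i, rfl⟩, h1⟩
    exact ⟨i, by simpa using h1, rfl⟩
  · rintro ⟨i, h1, rfl⟩
    exact ⟨⟨i, rfl⟩, by simpa using h1⟩

private theorem c3_join (h : C3 G X z e) (hF : G.Join F) (hX : X.card % 2 = 1) :
    (c3G G X z e).Join (c3F F X z e) := by
  refine ⟨c3_closed h hF.1, fun v hv => ?_⟩
  have h1 : v ∈ insert z X := hv
  rcases Finset.mem_insert.1 h1 with rfl | h2
  · have h3 := par_join G h.ok F hF X h.sub
    rw [c3_count h] at h3
    have h4 : deg (c3F F X v e) v = (Finset.univ.filter (fun i : Fin 3 => e i ∈ F)).card := by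
      rw [deg]
      congr 1
      ext i
      simp only [Finset.mem_filter, c3_Fz]
    rw [h4, Nat.odd_iff]
    omega
  · have h4 : deg (c3F F X z e) v = deg F v := by
      rw [deg, deg]
      congr 1
      ext i
      simp only [Finset.mem_filter]
      rw [c3_FX h (d := (v, i)) h2]
    rw [h4]
    exact hF.2 v (h.sub h2)

private theorem c3_few (h : C3 G X z e) (hF : G.Closed F) (hf : G.Few F)
    (hX' : (G.A \ X).card % 2 = 1) : (c3G G X z e).Few (c3F F X z e) := by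
  intro f hf1 hf2
  have hsub : ∀ i, f i ⊆ insert z X := fun i => (hf1 i).1
  obtain ⟨i, j, hij, h1⟩ := hf (fun i => if z ∈ f i then (f i).erase z ∪ (G.A \ X) else f i)
    (fun i => by
      obtain ⟨-, h2⟩ := hf1 i
      by_cases hz : z ∈ f i
      · simp only [if_pos hz]
        refine ⟨?_, fun d hd => ?_⟩
        · intro v hv
          rcases Finset.mem_union.1 hv with h3 | h3
          · obtain ⟨h4, h5⟩ := Finset.mem_erase.1 h3
            exact h.sub ((Finset.mem_insert.1 (hsub i h5)).resolve_left h4)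
          · exact (Finset.mem_sdiff.1 h3).1
        · obtain ⟨h3, h4⟩ := (mem_cut _ _ _).1 hd
          rw [Finset.mem_union, not_or, Finset.mem_erase, Finset.mem_sdiff] at h4
          obtain ⟨h5, h6⟩ := h4
          rcases Finset.mem_union.1 h3 with h7 | h7
          · obtain ⟨h8, h9⟩ := Finset.mem_erase.1 h7
            have h10 : d.1 ∈ X := (Finset.mem_insert.1 (hsub i h9)).resolve_left h8
            have h11 : (G.mate d).1 ∈ X := by
              by_contra hc
              exact h6 ⟨h.ok.mem d (h.sub h10), hc⟩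
            have h12 := h2 d ((mem_cut _ _ _).2 ⟨h9, by
              rw [c3_min h h10 h11]
              intro h13
              exact h5 ⟨c3_ne h h11, h13⟩⟩)
            exact (c3_FX h h10).1 h12
          · obtain ⟨h8, h9⟩ := Finset.mem_sdiff.1 h7
            have h11 : (G.mate d).1 ∈ X := by
              by_contra hc
              exact h6 ⟨h.ok.mem d h8, hc⟩
            have h12 := h.ok.inv d h8
            obtain ⟨k, hk⟩ := (h.cut (G.mate d)).1 ((mem_cut _ _ _).2 ⟨h11, by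
              rw [h12]
              exact h9⟩)
            have h13 := h2 (z, k) ((mem_cut _ _ _).2 ⟨hz, by
              rw [c3_mz, hk]
              intro h13
              exact h5 ⟨c3_ne h h11, h13⟩⟩)
            rw [c3_Fz, hk] at h13
            exact (hF d h8).2 h13
      · simp only [if_neg hz]
        have h3 : f i ⊆ X := by
          intro v hv
          rcases Finset.mem_insert.1 (hsub i hv) with h3 | h3
          · exact absurd (h3 ▸ hv) hz
          · exact h3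
        refine ⟨h3.trans h.sub, fun d hd => ?_⟩
        rw [← c3_cut h h3] at hd
        exact (c3_FX h (h3 ((mem_cut _ _ _).1 hd).1)).1 (h2 d hd)) (fun i => by
      by_cases hz : z ∈ f i
      · simp only [if_pos hz]
        have h3 := hf2 i
        rw [Finset.card_union_of_disjoint, Finset.card_erase_of_mem hz]
        · have h4 : 0 < (f i).card := Finset.card_pos.2 ⟨z, hz⟩
          rw [Nat.odd_iff] at h3 ⊢
          omega
        · rw [Finset.disjoint_left]
          intro v hv hv'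
          obtain ⟨h4, h5⟩ := Finset.mem_erase.1 hv
          exact (Finset.mem_sdiff.1 hv').2 ((Finset.mem_insert.1 (hsub i h5)).resolve_left h4)
      · simp only [if_neg hz]
        exact hf2 i)
  refine ⟨i, j, hij, fun hd => h1 ?_⟩
  have key : ∀ k v, v ∈ (if z ∈ f k then (f k).erase z ∪ (G.A \ X) else f k) →
      (v ∈ X ∧ v ∈ f k) ∨ (v ∉ X ∧ z ∈ f k) := by
    intro k v hv
    by_cases hz : z ∈ f k
    · rw [if_pos hz] at hv
      rcases Finset.mem_union.1 hv with h3 | h3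
      · obtain ⟨h4, h5⟩ := Finset.mem_erase.1 h3
        exact Or.inl ⟨(Finset.mem_insert.1 (hsub k h5)).resolve_left h4, h5⟩
      · exact Or.inr ⟨(Finset.mem_sdiff.1 h3).2, hz⟩
    · rw [if_neg hz] at hv
      rcases Finset.mem_insert.1 (hsub k hv) with h3 | h3
      · exact absurd (h3 ▸ hv) hz
      · exact Or.inl ⟨h3, hv⟩
  rw [Finset.disjoint_left] at hd ⊢
  intro v hv hv'
  rcases key i v hv with ⟨h3, h4⟩ | ⟨h3, h4⟩
  · rcases key j v hv' with ⟨h5, h6⟩ | ⟨h5, h6⟩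
    · exact hd h4 h6
    · exact h5 h3
  · rcases key j v hv' with ⟨h5, h6⟩ | ⟨h5, h6⟩
    · exact h3 h5
    · exact hd h4 h6

private theorem c3_star (h : C3 G X z e) (hI : G.Inst F) (ih : IH V G.A.card)
    (hX : X.card % 2 = 1) (hX' : (G.A \ X).card % 2 = 1) (h1 : 1 < (G.A \ X).card)
    (d : V × Fin 3) (hd : d.1 ∈ X) : (c3G G X z e).Star (c3F F X z e) d := by
  refine ih _ _ ⟨c3_ok h, c3_br h hI.br, c3_join h hI.join hX, c3_few h hI.join.1 hI.few hX'⟩ ?_ d
    (Finset.mem_insert_of_mem hd)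
  have h2 : (c3G G X z e).A.card = X.card + 1 := Finset.card_insert_of_notMem h.hz
  rw [Finset.card_sdiff_of_subset h.sub] at h1
  omega

/-- One side of the gluing. -/
private theorem c3_side (h : C3 G X z e) (hF : G.Join F) (hX : X.card % 2 = 1)
    {M : Finset (V × Fin 3)} (hM : (c3G G X z e).PM M) (hg : (c3G G X z e).Good (c3F F X z e) M)
    {Z : Finset V} (hZ : Z ⊆ X)
    (hc : ∀ k : V × Fin 3, k.1 ∈ Z → (G.mate k).1 ∈ X → (G.mate k).1 ∉ Z → k ∈ F ∧ k ∈ M) :
    ((∀ i, ¬ (e i ∈ F ∧ e i ∈ M) → (e i).1 ∉ Z) ∧ Even Z.card) ∨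
      ((∀ i, ¬ (e i ∈ F ∧ e i ∈ M) → (e i).1 ∈ Z) ∧ ¬ Even Z.card) := by
  have hz : z ∉ Z := fun h2 => h.hz (hZ h2)
  have hMz : ∀ i, (z, i) ∈ M ↔ e i ∈ M := by
    intro i
    have h2 := hM.1 (z, i) (Finset.mem_insert_self _ _)
    rwa [c3_mz] at h2
  have hZ1 : Z ⊆ (c3G G X z e).A := fun v hv => Finset.mem_insert_of_mem (hZ hv)
  have hZ2 : insert z Z ⊆ (c3G G X z e).A := by
    intro v hv
    rcases Finset.mem_insert.1 hv with h2 | h2
    · rw [h2]
      exact Finset.mem_insert_self _ _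
    · exact hZ1 h2
  have hj := c3_join h hF hX
  have hA : ∀ d, (d ∈ (c3G G X z e).cut Z ∧ ¬ (d ∈ c3F F X z e ∧ d ∈ M)) ↔
      ∃ i, (¬ (e i ∈ F ∧ e i ∈ M) ∧ (e i).1 ∈ Z) ∧ e i = d := by
    intro d
    rw [mem_cut]
    constructor
    · rintro ⟨⟨h2, h3⟩, h4⟩
      rw [c3_FX h (hZ h2)] at h4
      rcases c3_cases h (hZ h2) with h5 | ⟨i, rfl⟩
      · rw [c3_min h (hZ h2) h5] at h3
        exact absurd (hc d h2 h5 h3) h4
      · exact ⟨i, ⟨h4, h2⟩, rfl⟩
    · rintro ⟨i, ⟨h2, h3⟩, rfl⟩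
      rw [c3_FX h (hZ h3), c3_me h]
      exact ⟨⟨h3, hz⟩, h2⟩
  have hB : ∀ d, (d ∈ (c3G G X z e).cut (insert z Z) ∧ ¬ (d ∈ c3F F X z e ∧ d ∈ M)) ↔
      ∃ i, (¬ (e i ∈ F ∧ e i ∈ M) ∧ (e i).1 ∉ Z) ∧ (z, i) = d := by
    intro d
    rw [mem_cut]
    constructor
    · rintro ⟨⟨h2, h3⟩, h4⟩
      rw [Finset.mem_insert, not_or] at h3
      rcases Finset.mem_insert.1 h2 with h5 | h5
      · obtain ⟨v, i⟩ := d
        simp only at h5
        subst h5
        rw [c3_mz] at h3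
        rw [c3_Fz, hMz] at h4
        exact ⟨i, ⟨h4, h3.2⟩, rfl⟩
      · rw [c3_FX h (hZ h5)] at h4
        rcases c3_cases h (hZ h5) with h6 | ⟨i, rfl⟩
        · rw [c3_min h (hZ h5) h6] at h3
          exact absurd (hc d h5 h6 h3.2) h4
        · rw [c3_me h] at h3
          exact absurd rfl h3.1
    · rintro ⟨i, ⟨h2, h3⟩, rfl⟩
      rw [c3_Fz, hMz, c3_mz]
      refine ⟨⟨Finset.mem_insert_self _ _, fun h4 => ?_⟩, h2⟩
      rcases Finset.mem_insert.1 h4 with h5 | h5
      · exact c3_ne h (c3_e1 h i) h5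
      · exact h3 h5
  have nA := no_one _ (c3_ok h) _ M hj hM Z hZ1
  have nB := no_one _ (c3_ok h) _ M hj hM (insert z Z) hZ2
  have eA : ((c3G G X z e).cut Z).filter (fun d => ¬ (d ∈ c3F F X z e ∧ d ∈ M)) =
      (Finset.univ.filter (fun i : Fin 3 => ¬ (e i ∈ F ∧ e i ∈ M) ∧ (e i).1 ∈ Z)).image e := by
    ext d
    rw [Finset.mem_filter, hA, Finset.mem_image]
    simp only [Finset.mem_filter, Finset.mem_univ, true_and]
  have eB : ((c3G G X z e).cut (insert z Z)).filter (fun d => ¬ (d ∈ c3F F X z e ∧ d ∈ M)) =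
      (Finset.univ.filter (fun i : Fin 3 => ¬ (e i ∈ F ∧ e i ∈ M) ∧ (e i).1 ∉ Z)).image
        (fun i => (z, i)) := by
    ext d
    rw [Finset.mem_filter, hB, Finset.mem_image]
    simp only [Finset.mem_filter, Finset.mem_univ, true_and]
  rw [eA, Finset.card_image_of_injective _ h.inj] at nA
  rw [eB, Finset.card_image_of_injective _ (Prod.mk_right_injective z)] at nB
  have hsum : (Finset.univ.filter (fun i : Fin 3 => ¬ (e i ∈ F ∧ e i ∈ M) ∧ (e i).1 ∈ Z)).card +
      (Finset.univ.filter (fun i : Fin 3 => ¬ (e i ∈ F ∧ e i ∈ M) ∧ (e i).1 ∉ Z)).card =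
      (Finset.univ.filter (fun i : Fin 3 => ¬ (e i ∈ F ∧ e i ∈ M))).card := by
    rw [← Finset.filter_filter, ← Finset.filter_filter,
      Finset.card_filter_add_card_filter_not]
  have hone : (Finset.univ.filter (fun i : Fin 3 => e i ∈ M)).card = 1 := by
    have h2 := hM.2 z (Finset.mem_insert_self _ _)
    rw [deg] at h2
    simpa only [hMz] using h2
  have htot : (Finset.univ.filter (fun i : Fin 3 => e i ∈ M)).card +
      (Finset.univ.filter (fun i : Fin 3 => ¬ e i ∈ M)).card = 3 := by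
    rw [Finset.card_filter_add_card_filter_not]
    rfl
  have hle : (Finset.univ.filter (fun i : Fin 3 => ¬ e i ∈ M)).card ≤
      (Finset.univ.filter (fun i : Fin 3 => ¬ (e i ∈ F ∧ e i ∈ M))).card := by
    refine Finset.card_le_card fun i hi => ?_
    simp only [Finset.mem_filter, Finset.mem_univ, true_and] at hi ⊢
    exact fun h2 => hi h2.2
  have hle3 : (Finset.univ.filter (fun i : Fin 3 => ¬ (e i ∈ F ∧ e i ∈ M))).card ≤ 3 := by
    refine (Finset.card_le_univ _).trans ?_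
    simp
  have hor : (Finset.univ.filter (fun i : Fin 3 => ¬ (e i ∈ F ∧ e i ∈ M) ∧ (e i).1 ∈ Z)).card = 0 ∨
      (Finset.univ.filter (fun i : Fin 3 => ¬ (e i ∈ F ∧ e i ∈ M) ∧ (e i).1 ∉ Z)).card = 0 := by
    omega
  rcases hor with h0 | h0
  · rw [Finset.card_eq_zero, Finset.filter_eq_empty_iff] at h0
    refine Or.inl ⟨fun i hi hi' => h0 (Finset.mem_univ i) ⟨hi, hi'⟩, hg Z hZ1 fun d hd => ?_⟩
    by_contra hcon
    obtain ⟨i, h2, -⟩ := (hA d).1 ⟨hd, hcon⟩
    exact h0 (Finset.mem_univ i) h2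
  · rw [Finset.card_eq_zero, Finset.filter_eq_empty_iff] at h0
    refine Or.inr ⟨fun i hi => ?_, ?_⟩
    · by_contra hi'
      exact h0 (Finset.mem_univ i) ⟨hi, hi'⟩
    · have h2 := hg (insert z Z) hZ2 fun d hd => by
        by_contra hcon
        obtain ⟨i, h2, -⟩ := (hB d).1 ⟨hd, hcon⟩
        exact h0 (Finset.mem_univ i) h2
      rw [Finset.card_insert_of_notMem hz] at h2
      rw [Nat.even_iff] at h2 ⊢
      omega

end con

private theorem c3_glue {G : Gr V} {F : Finset (V × Fin 3)} (hI : G.Inst F) (ih : IH V G.A.card)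
    (X : Finset V) (hX : X ⊆ G.A) (h3 : (G.cut X).card = 3) (h1 : 1 < X.card)
    (h1' : 1 < (G.A \ X).card) (d : V × Fin 3) (hd : d.1 ∈ X) : G.Star F d := by
  have hpX : X.card % 2 = 1 := by
    rw [par_all G hI.ok X hX, h3]
  have hsd : G.A \ (G.A \ X) = X := Finset.sdiff_sdiff_eq_self hX
  have hX' : G.A \ X ⊆ G.A := Finset.sdiff_subset
  have hpX' : (G.A \ X).card % 2 = 1 := by
    rw [par_all G hI.ok _ hX', card_cut_compl G hI.ok X hX, h3]
  obtain ⟨e, he, hec⟩ : ∃ e : Fin 3 → V × Fin 3, Function.Injective e ∧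
      ∀ d, d ∈ G.cut X ↔ ∃ i, e i = d := by
    refine ⟨fun i => ((Finset.equivFinOfCardEq h3).symm i).1, ?_, ?_⟩
    · intro i j hij
      exact (Finset.equivFinOfCardEq h3).symm.injective (Subtype.ext hij)
    · intro d
      constructor
      · intro hd
        exact ⟨Finset.equivFinOfCardEq h3 ⟨d, hd⟩, by simp⟩
      · rintro ⟨i, rfl⟩
        exact ((Finset.equivFinOfCardEq h3).symm i).2
  obtain ⟨z, hz⟩ : (G.A \ X).Nonempty := by
    rw [← Finset.card_pos]
    omega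
  obtain ⟨z', hz'⟩ : X.Nonempty := by
    rw [← Finset.card_pos]
    omega
  have c1 : C3 G X z e := ⟨hI.ok, hX, he, hec, (Finset.mem_sdiff.1 hz).2⟩
  have hAe : ∀ i, (e i).1 ∈ G.A := fun i => hX (c3_e1 c1 i)
  have c2 : C3 G (G.A \ X) z' (fun i => G.mate (e i)) := by
    refine ⟨hI.ok, hX', ?_, ?_, fun h => (Finset.mem_sdiff.1 h).2 hz'⟩
    · intro i j hij
      have h4 := congrArg G.mate hij
      simp only [hI.ok.inv _ (hAe _)] at h4
      exact he h4
    · intro k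
      constructor
      · intro hk
        obtain ⟨h4, h5⟩ := (mem_cut _ _ _).1 hk
        obtain ⟨h6, h7⟩ := Finset.mem_sdiff.1 h4
        have h8 := hI.ok.mem k h6
        have h9 : (G.mate k).1 ∈ X := by
          by_contra hc
          exact h5 (Finset.mem_sdiff.2 ⟨h8, hc⟩)
        obtain ⟨i, hi⟩ := (hec (G.mate k)).1 ((mem_cut _ _ _).2 ⟨h9, by
          rw [hI.ok.inv k h6]
          exact h7⟩)
        refine ⟨i, ?_⟩
        simp only [hi]
        exact hI.ok.inv k h6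
      · rintro ⟨i, rfl⟩
        rw [mem_cut, hI.ok.inv _ (hAe i)]
        refine ⟨Finset.mem_sdiff.2 ⟨hI.ok.mem _ (hAe i), c3_e2 c1 i⟩, fun h => ?_⟩
        exact (Finset.mem_sdiff.1 h).2 (c3_e1 c1 i)
  obtain ⟨M₁, hM₁, hdM, hg₁⟩ := c3_star c1 hI ih hpX hpX' h1' d hd
  have one₁ : ∃ j, ∀ i, e i ∈ M₁ ↔ i = j := by
    have h4 := hM₁.2 z (Finset.mem_insert_self _ _)
    rw [deg, Finset.card_eq_one] at h4
    obtain ⟨j, hj⟩ := h4
    refine ⟨j, fun i => ?_⟩
    have h5 := hM₁.1 (z, i) (Finset.mem_insert_self _ _)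
    rw [c3_mz] at h5
    rw [← h5]
    have h6 : i ∈ Finset.univ.filter (fun i : Fin 3 => (z, i) ∈ M₁) ↔ i ∈ ({j} : Finset (Fin 3)) := by
      rw [hj]
    simpa using h6
  obtain ⟨j, hj⟩ := one₁
  obtain ⟨M₂, hM₂, hdM₂, hg₂⟩ := c3_star c2 hI ih hpX' (by rw [hsd]; exact hpX)
    (by rw [hsd]; exact h1) (G.mate (e j)) (c3_e1 c2 j)
  have hj₂ : ∀ i, G.mate (e i) ∈ M₂ ↔ i = j := by
    have h4 := hM₂.2 z' (Finset.mem_insert_self _ _)
    rw [deg, Finset.card_eq_one] at h4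
    obtain ⟨j', hj'⟩ := h4
    have h7 : ∀ i, G.mate (e i) ∈ M₂ ↔ i = j' := by
      intro i
      have h5 := hM₂.1 (z', i) (Finset.mem_insert_self _ _)
      rw [c3_mz] at h5
      rw [← h5]
      have h6 : i ∈ Finset.univ.filter (fun i : Fin 3 => (z', i) ∈ M₂) ↔
          i ∈ ({j'} : Finset (Fin 3)) := by
        rw [hj']
      simpa using h6
    have h8 := (h7 j).1 hdM₂
    rw [h8]
    exact h7
  obtain ⟨M, hM⟩ : ∃ M : Finset (V × Fin 3), ∀ k, k ∈ M ↔
      (k ∈ M₁ ∧ k.1 ∈ X) ∨ (k ∈ M₂ ∧ k.1 ∈ G.A \ X) :=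
    ⟨M₁.filter (fun k => k.1 ∈ X) ∪ M₂.filter (fun k => k.1 ∈ G.A \ X), fun k => by
      rw [Finset.mem_union, Finset.mem_filter, Finset.mem_filter]⟩
  have m1 : ∀ k : V × Fin 3, k.1 ∈ X → (k ∈ M ↔ k ∈ M₁) := by
    intro k hk
    rw [hM]
    constructor
    · rintro (h4 | h4)
      · exact h4.1
      · exact absurd hk (Finset.mem_sdiff.1 h4.2).2
    · intro h4
      exact Or.inl ⟨h4, hk⟩
  have m2 : ∀ k : V × Fin 3, k.1 ∈ G.A \ X → (k ∈ M ↔ k ∈ M₂) := by
    intro k hk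
    rw [hM]
    constructor
    · rintro (h4 | h4)
      · exact absurd h4.2 (Finset.mem_sdiff.1 hk).2
      · exact h4.1
    · intro h4
      exact Or.inr ⟨h4, hk⟩
  have me : ∀ i, (e i ∈ M ↔ G.mate (e i) ∈ M) := by
    intro i
    rw [m1 _ (c3_e1 c1 i), m2 _ (c3_e1 c2 i), hj, hj₂]
  have hcl : G.Closed M := by
    intro k hk
    by_cases h4 : k.1 ∈ X
    · rcases c3_cases c1 h4 with h5 | ⟨i, rfl⟩
      · rw [m1 _ h4, m1 _ h5]
        have h6 := hM₁.1 k (Finset.mem_insert_of_mem h4)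
        rwa [c3_min c1 h4 h5] at h6
      · exact me i
    · have h4' : k.1 ∈ G.A \ X := Finset.mem_sdiff.2 ⟨hk, h4⟩
      rcases c3_cases c2 h4' with h5 | ⟨i, rfl⟩
      · rw [m2 _ h4', m2 _ h5]
        have h6 := hM₂.1 k (Finset.mem_insert_of_mem h4')
        rwa [c3_min c2 h4' h5] at h6
      · rw [hI.ok.inv _ (hAe i)]
        exact (me i).symm
  refine ⟨M, ⟨hcl, fun v hv => ?_⟩, (m1 d hd).2 hdM, fun Z hZ hcZ => ?_⟩
  · by_cases h4 : v ∈ X
    · rw [← hM₁.2 v (Finset.mem_insert_of_mem h4), deg, deg]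
      congr 1
      ext i
      simp only [Finset.mem_filter]
      rw [m1 (v, i) h4]
    · have h4' : v ∈ G.A \ X := Finset.mem_sdiff.2 ⟨hv, h4⟩
      rw [← hM₂.2 v (Finset.mem_insert_of_mem h4'), deg, deg]
      congr 1
      ext i
      simp only [Finset.mem_filter]
      rw [m2 (v, i) h4']
  · have s1 := c3_side c1 hI.join hpX hM₁ hg₁ (Z := Z ∩ X) Finset.inter_subset_right (by
      intro k h4 h5 h6
      obtain ⟨h7, h8⟩ := Finset.mem_inter.1 h4
      have h9 : (G.mate k).1 ∉ Z := fun h => h6 (Finset.mem_inter.2 ⟨h, h5⟩)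
      have h10 := hcZ k ((mem_cut _ _ _).2 ⟨h7, h9⟩)
      rwa [m1 k h8] at h10)
    have s2 := c3_side c2 hI.join hpX' hM₂ hg₂ (Z := Z ∩ (G.A \ X)) Finset.inter_subset_right (by
      intro k h4 h5 h6
      obtain ⟨h7, h8⟩ := Finset.mem_inter.1 h4
      have h9 : (G.mate k).1 ∉ Z := fun h => h6 (Finset.mem_inter.2 ⟨h, h5⟩)
      have h10 := hcZ k ((mem_cut _ _ _).2 ⟨h7, h9⟩)
      rwa [m2 k h8] at h10)
    obtain ⟨i, hi⟩ : ∃ i : Fin 3, i ≠ j := exists_ne j
    have n1 : ¬ (e i ∈ F ∧ e i ∈ M₁) := fun h => hi ((hj i).1 h.2)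
    have n2 : ¬ (G.mate (e i) ∈ F ∧ G.mate (e i) ∈ M₂) := fun h => hi ((hj₂ i).1 h.2)
    have n3 : e i ∉ M := fun h => hi ((hj i).1 ((m1 _ (c3_e1 c1 i)).1 h))
    have n4 : (e i).1 ∈ Z ↔ (G.mate (e i)).1 ∈ Z := by
      constructor
      · intro h4
        by_contra h5
        exact n3 (hcZ _ ((mem_cut _ _ _).2 ⟨h4, h5⟩)).2
      · intro h4
        by_contra h5
        have h6 := hcZ (G.mate (e i)) ((mem_cut _ _ _).2 ⟨h4, by
          rw [hI.ok.inv _ (hAe i)]
          exact h5⟩)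
        exact n3 ((me i).2 h6.2)
    have hcard : Z.card = (Z ∩ X).card + (Z ∩ (G.A \ X)).card := by
      rw [← Finset.card_union_of_disjoint]
      · congr 1
        ext v
        simp only [Finset.mem_union, Finset.mem_inter, Finset.mem_sdiff]
        constructor
        · intro h4
          by_cases h5 : v ∈ X
          · exact Or.inl ⟨h4, h5⟩
          · exact Or.inr ⟨h4, hZ h4, h5⟩
        · rintro (h4 | h4)
          · exact h4.1
          · exact h4.1
      · rw [Finset.disjoint_left]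
        intro v h4 h5
        exact (Finset.mem_sdiff.1 (Finset.mem_inter.1 h5).2).2 (Finset.mem_inter.1 h4).2
    rw [hcard, Nat.even_add]
    have k1 := c3_e1 c1 i
    have k2 : (G.mate (e i)).1 ∈ G.A \ X := c3_e1 c2 i
    rcases s1 with ⟨h4, h5⟩ | ⟨h4, h5⟩
    · have h6 := h4 i n1
      rcases s2 with ⟨h7, h8⟩ | ⟨h7, h8⟩
      · exact ⟨fun _ => h8, fun _ => h5⟩
      · have h9 := h7 i n2
        exact absurd (Finset.mem_inter.2 ⟨n4.2 (Finset.mem_inter.1 h9).1, k1⟩) h6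
    · have h6 := h4 i n1
      rcases s2 with ⟨h7, h8⟩ | ⟨h7, h8⟩
      · have h9 := h7 i n2
        exact absurd (Finset.mem_inter.2 ⟨n4.1 (Finset.mem_inter.1 h6).1, k2⟩) h9
      · exact ⟨fun h => absurd h h5, fun h => absurd h h8⟩

theorem cut3 {G : Gr V} {F : Finset (V × Fin 3)} (hI : G.Inst F) (ih : IH V G.A.card) (X : Finset V)
    (hX : X ⊆ G.A) (h3 : (G.cut X).card = 3) (h1 : 1 < X.card) (h1' : 1 < (G.A \ X).card) (d : V × Fin 3)
    (hd : d.1 ∈ G.A) : G.Star F d := by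
  by_cases h : d.1 ∈ X
  · exact c3_glue hI ih X hX h3 h1 h1' d h
  · have hsd : G.A \ (G.A \ X) = X := Finset.sdiff_sdiff_eq_self hX
    exact c3_glue hI ih (G.A \ X) Finset.sdiff_subset (by
      rw [card_cut_compl G hI.ok X hX, h3]) h1' (by rw [hsd]; exact h1) d
      (Finset.mem_sdiff.2 ⟨hd, h⟩)

end Pool.Agent.Lib.MP_1dc4d0_coA6
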