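import Mathlib

set_option autoImplicit false

namespace Pool.Agent.Lib.MP_1dc4d0_coA6

open Finset

/-- A cubic multigraph in dart form: `A` is the vertex set, the darts at `v` are `(v,0), (v,1), (v,2)`,
and `mate` exchanges the two darts of every edge. -/
structure Gr (V : Type) where
  A : Finset V
  mate : V × Fin 3 → V × Fin 3

variable {V : Type} [DecidableEq V]

structure Gr.Ok (G : Gr V) : Prop where
  mem : ∀ d : V × Fin 3, d.1 ∈ G.A → (G.mate d).1 ∈ G.A
  inv : ∀ d : V × Fin 3, d.1 ∈ G.A → G.mate (G.mate d) = d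
  ne : ∀ d : V × Fin 3, d.1 ∈ G.A → G.mate d ≠ d

/-- The darts that leave `X`. -/
def Gr.cut (G : Gr V) (X : Finset V) : Finset (V × Fin 3) :=
  (X ×ˢ (Finset.univ : Finset (Fin 3))).filter (fun d => (G.mate d).1 ∉ X)

/-- Number of darts of `P` at `v`. -/
def deg (P : Finset (V × Fin 3)) (v : V) : ℕ :=
  (Finset.univ.filter (fun i : Fin 3 => (v, i) ∈ P)).card

def Gr.Closed (G : Gr V) (P : Finset (V × Fin 3)) : Prop :=
  ∀ d : V × Fin 3, d.1 ∈ G.A → (d ∈ P ↔ G.mate d ∈ P)

def Gr.Join (G : Gr V) (F : Finset (V × Fin 3)) : Prop :=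
  G.Closed F ∧ ∀ v ∈ G.A, Odd (deg F v)

def Gr.PM (G : Gr V) (M : Finset (V × Fin 3)) : Prop :=
  G.Closed M ∧ ∀ v ∈ G.A, deg M v = 1

def Gr.Bridgeless (G : Gr V) : Prop := ∀ X ⊆ G.A, (G.cut X).card ≠ 1

/-- `F ∩ M` contains no odd cut. -/
def Gr.Good (G : Gr V) (F M : Finset (V × Fin 3)) : Prop :=
  ∀ X ⊆ G.A, (∀ d ∈ G.cut X, d ∈ F ∧ d ∈ M) → Even X.card

/-- `X` is a union of components of `(V, E - F)`. -/
def Gr.CC (G : Gr V) (F : Finset (V × Fin 3)) (X : Finset V) : Prop :=
  X ⊆ G.A ∧ ∀ d ∈ G.cut X, d ∈ F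

/-- There are at most six odd components of `(V, E - F)`. -/
def Gr.Few (G : Gr V) (F : Finset (V × Fin 3)) : Prop :=
  ∀ f : Fin 7 → Finset V, (∀ i, G.CC F (f i)) → (∀ i, Odd (f i).card) →
    ∃ i j, i ≠ j ∧ ¬ Disjoint (f i) (f j)

/-- The vertices all of whose edges are in `F`. -/
def Gr.V3 (G : Gr V) (F : Finset (V × Fin 3)) : Finset V :=
  G.A.filter (fun v => ∀ i : Fin 3, (v, i) ∈ F)

/-- There is a perfect matching through the dart `d` that is good for `F`. -/
def Gr.Star (G : Gr V) (F : Finset (V × Fin 3)) (d : V × Fin 3) : Prop :=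
  ∃ M, G.PM M ∧ d ∈ M ∧ G.Good F M

/-- The whole set of hypotheses. -/
structure Gr.Inst (G : Gr V) (F : Finset (V × Fin 3)) : Prop where
  ok : G.Ok
  br : G.Bridgeless
  join : G.Join F
  few : G.Few F

/-- The theorem for all instances with fewer than `n` vertices. -/
def IH (V : Type) [DecidableEq V] (n : ℕ) : Prop :=
  ∀ (G : Gr V) (F : Finset (V × Fin 3)), G.Inst F → G.A.card < n → ∀ d : V × Fin 3, d.1 ∈ G.A → G.Star F d

/-- Every cut has at least three edges and the cuts with three edges are trivial. -/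
def Gr.Cyc (G : Gr V) : Prop :=
  ∀ X ⊆ G.A, X.Nonempty → X ≠ G.A → 3 ≤ (G.cut X).card ∧ ((G.cut X).card = 3 → X.card = 1 ∨ (G.A \ X).card = 1)

theorem mem_cut (G : Gr V) (X : Finset V) (d : V × Fin 3) :
    d ∈ G.cut X ↔ d.1 ∈ X ∧ (G.mate d).1 ∉ X := by
  simp [Gr.cut]

theorem par (G : Gr V) (hG : G.Ok) (P : Finset (V × Fin 3)) (hP : G.Closed P) (X : Finset V)
    (hX : X ⊆ G.A) :
    (∑ v ∈ X, deg P v) % 2 = ((G.cut X).filter (fun d => d ∈ P)).card % 2 := by
  have h1 : (∑ v ∈ X, deg P v) = ((X ×ˢ (Finset.univ : Finset (Fin 3))).filter (fun d => d ∈ P)).card := by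
    rw [Finset.card_filter, Finset.sum_product]
    refine Finset.sum_congr rfl fun v _ => ?_
    rw [deg, Finset.card_filter]
  have h2 : ((X ×ˢ (Finset.univ : Finset (Fin 3))).filter (fun d => d ∈ P)).card
      = ((G.cut X).filter (fun d => d ∈ P)).card
        + (((X ×ˢ (Finset.univ : Finset (Fin 3))).filter (fun d => d ∈ P ∧ (G.mate d).1 ∈ X))).card := by
    rw [← Finset.card_union_of_disjoint]
    · congr 1
      ext d
      simp only [Finset.mem_filter, Finset.mem_union, Gr.cut, Finset.mem_product]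
      tauto
    · rw [Finset.disjoint_left]
      intro d hd hd'
      simp only [Finset.mem_filter, Gr.cut] at hd hd'
      tauto
  have h3 : Even (((X ×ˢ (Finset.univ : Finset (Fin 3))).filter
      (fun d => d ∈ P ∧ (G.mate d).1 ∈ X))).card := by
    have : (((((X ×ˢ (Finset.univ : Finset (Fin 3))).filter
      (fun d => d ∈ P ∧ (G.mate d).1 ∈ X))).card : ℕ) : ZMod 2) = 0 := by
      rw [Finset.card_eq_sum_ones, Nat.cast_sum]
      refine Finset.sum_involution (fun d _ => G.mate d) ?_ ?_ ?_ ?_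
      · intro d hd; decide
      · intro d hd _
        simp only [Finset.mem_filter, Finset.mem_product, Finset.mem_univ, and_true] at hd
        exact hG.ne d (hX hd.1)
      · intro d hd
        simp only [Finset.mem_filter, Finset.mem_product, Finset.mem_univ, and_true] at hd ⊢
        refine ⟨hd.2.2, (hP d (hX hd.1)).1 hd.2.1, ?_⟩
        rw [hG.inv d (hX hd.1)]; exact hd.1
      · intro d hd
        simp only [Finset.mem_filter, Finset.mem_product, Finset.mem_univ, and_true] at hd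
        exact hG.inv d (hX hd.1)
    exact (ZMod.natCast_eq_zero_iff_even).1 this
  rw [h1, h2]
  obtain ⟨k, hk⟩ := h3
  omega

theorem deg_univ (v : V) [Fintype V] : deg (Finset.univ : Finset (V × Fin 3)) v = 3 := by
  simp [deg]

theorem par_join (G : Gr V) (hG : G.Ok) (F : Finset (V × Fin 3)) (hF : G.Join F) (X : Finset V)
    (hX : X ⊆ G.A) : X.card % 2 = ((G.cut X).filter (fun d => d ∈ F)).card % 2 := by
  rw [← par G hG F hF.1 X hX, Finset.sum_nat_mod, Finset.card_eq_sum_ones, Finset.sum_nat_mod]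
  congr 1
  refine Finset.sum_congr rfl fun v hv => ?_
  have := hF.2 v (hX hv)
  rw [Nat.odd_iff] at this
  omega

theorem PM.join {G : Gr V} {M : Finset (V × Fin 3)} (hM : G.PM M) : G.Join M :=
  ⟨hM.1, fun v hv => by rw [hM.2 v hv]; exact odd_one⟩

theorem par_all (G : Gr V) (hG : G.Ok) (X : Finset V) (hX : X ⊆ G.A) :
    X.card % 2 = (G.cut X).card % 2 := by
  have hJ : G.Join (G.A ×ˢ (Finset.univ : Finset (Fin 3))) := by
    refine ⟨fun d hd => ?_, fun v hv => ?_⟩
    · simp only [Finset.mem_product, Finset.mem_univ, and_true]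
      exact ⟨fun _ => hG.mem d hd, fun _ => hd⟩
    · have : deg (G.A ×ˢ (Finset.univ : Finset (Fin 3))) v = 3 := by
        simp [deg, hv]
      rw [this]; decide
  rw [par_join G hG _ hJ X hX]
  congr 2
  ext d
  simp only [Finset.mem_filter, Finset.mem_product, Finset.mem_univ, and_true, mem_cut]
  exact ⟨fun h => h.1, fun h => ⟨h, hX h.1⟩⟩

/-- The number of edges of a cut outside `F ∩ M` is never one. -/
theorem no_one (G : Gr V) (hG : G.Ok) (F M : Finset (V × Fin 3)) (hF : G.Join F) (hM : G.PM M)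
    (X : Finset V) (hX : X ⊆ G.A) :
    ((G.cut X).filter (fun d => ¬ (d ∈ F ∧ d ∈ M))).card ≠ 1 := by
  intro h
  have a1 := par_all G hG X hX
  have a2 := par_join G hG F hF X hX
  have a3 := par_join G hG M (PM.join hM) X hX
  obtain ⟨k, hk⟩ := Finset.card_eq_one.1 h
  have hkmem : k ∈ (G.cut X).filter (fun d => ¬ (d ∈ F ∧ d ∈ M)) := by rw [hk]; simp
  have key : ∀ P : Finset (V × Fin 3), (∀ d, d ∈ F ∧ d ∈ M → d ∈ P) → k ∉ P →
      ((G.cut X).filter (fun d => d ∈ P)).card + 1 = (G.cut X).card := by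
    intro P hP hkP
    have : (G.cut X).filter (fun d => d ∈ P) = (G.cut X).erase k := by
      ext d
      simp only [Finset.mem_filter, Finset.mem_erase]
      constructor
      · rintro ⟨h1, h2⟩
        exact ⟨fun hh => hkP (hh ▸ h2), h1⟩
      · rintro ⟨h1, h2⟩
        refine ⟨h2, hP d ?_⟩
        by_contra hc
        have : d ∈ (G.cut X).filter (fun d => ¬ (d ∈ F ∧ d ∈ M)) := by
          simp only [Finset.mem_filter]; exact ⟨h2, hc⟩
        rw [hk, Finset.mem_singleton] at this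
        exact h1 this
    rw [this, Finset.card_erase_of_mem (Finset.mem_filter.1 hkmem).1]
    have : 0 < (G.cut X).card := Finset.card_pos.2 ⟨k, (Finset.mem_filter.1 hkmem).1⟩
    omega
  have hk2 := (Finset.mem_filter.1 hkmem).2
  by_cases hkF : k ∈ F
  · have hkM : k ∉ M := fun hh => hk2 ⟨hkF, hh⟩
    have := key M (fun d hd => hd.2) hkM
    omega
  · have := key F (fun d hd => hd.1) hkF
    omega

theorem even_A (G : Gr V) (hG : G.Ok) : Even G.A.card := by
  have := par_all G hG G.A (Finset.Subset.refl _)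
  have h0 : G.cut G.A = ∅ := by
    ext d
    simp only [mem_cut, Finset.notMem_empty, iff_false, not_and, not_not]
    exact fun h => hG.mem d h
  rw [h0] at this
  rw [Nat.even_iff]
  simpa using this

theorem mem_cut_compl (G : Gr V) (hG : G.Ok) (X : Finset V) (d : V × Fin 3) (hd : d.1 ∈ G.A) :
    G.mate d ∈ G.cut (G.A \ X) ↔ (d.1 ∈ X ∧ (G.mate d).1 ∉ X) := by
  rw [mem_cut, hG.inv d hd]
  simp only [Finset.mem_sdiff, hG.mem d hd, hd, true_and, not_not]
  tauto

theorem card_cut_compl (G : Gr V) (hG : G.Ok) (X : Finset V) (hX : X ⊆ G.A) :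
    (G.cut (G.A \ X)).card = (G.cut X).card := by
  symm
  refine Finset.card_bij (fun d _ => G.mate d) ?_ ?_ ?_
  · intro d hd
    rw [mem_cut] at hd
    exact (mem_cut_compl G hG X d (hX hd.1)).2 hd
  · intro d hd d' hd' h
    rw [mem_cut] at hd hd'
    rw [← hG.inv d (hX hd.1), h, hG.inv d' (hX hd'.1)]
  · intro d hd
    rw [mem_cut] at hd
    simp only [Finset.mem_sdiff] at hd
    have h1 := hG.mem d hd.1.1
    refine ⟨G.mate d, ?_, hG.inv d hd.1.1⟩
    rw [mem_cut, hG.inv d hd.1.1]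
    refine ⟨?_, hd.1.2⟩
    by_contra hc
    exact hd.2 ⟨h1, hc⟩

theorem good_compl (G : Gr V) (hG : G.Ok) (X : Finset V) (hX : X ⊆ G.A)
    (h : Even (G.A \ X).card) : Even X.card := by
  have h1 := even_A G hG
  rw [Finset.card_sdiff_of_subset hX] at h
  have h2 := Finset.card_le_card hX
  rw [Nat.even_iff] at *
  omega

end Pool.Agent.Lib.MP_1dc4d0_coA6
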