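import Pool.Agent.Lib.MP_1dc4d0_coA6.Pop

set_option autoImplicit false

namespace Pool.Agent.Lib.MP_1dc4d0_coA6

open Finset

variable {V : Type} [DecidableEq V]

/-- Half of the darts inside `Y`: one of every edge. -/
private theorem exHalf {G : Gr V} (hG : G.Ok) (Y : Finset V) (hY : Y ⊆ G.A) :
    ∃ T : Finset (V × Fin 3), (∀ d ∈ T, d.1 ∈ Y ∧ (G.mate d).1 ∈ Y) ∧
      (∀ d ∈ T, G.mate d ∉ T) ∧ 2 * T.card + (G.cut Y).card = 3 * Y.card := by
  classical
  let D : Finset (V × Fin 3) :=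
    (Y ×ˢ (Finset.univ : Finset (Fin 3))).filter (fun d => (G.mate d).1 ∈ Y)
  have hD : ∀ d, d ∈ D ↔ d.1 ∈ Y ∧ (G.mate d).1 ∈ Y := fun d => by simp [D]
  have h1 : D.card + (G.cut Y).card = 3 * Y.card := by
    have := Finset.card_filter_add_card_filter_not (s := Y ×ˢ (Finset.univ : Finset (Fin 3)))
      (fun d => (G.mate d).1 ∈ Y)
    rw [Finset.card_product, Finset.card_univ, Fintype.card_fin, mul_comm] at this
    exact this
  let T : Finset (V × Fin 3) := D.filter (fun d => WellOrderingRel d (G.mate d))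
  have hT : ∀ d, d ∈ T ↔ (d.1 ∈ Y ∧ (G.mate d).1 ∈ Y) ∧ WellOrderingRel d (G.mate d) := fun d => by
    simp [T, hD]
  have hno : ∀ d ∈ T, G.mate d ∉ T := by
    intro d hd hd'
    rw [hT] at hd hd'
    rw [hG.inv d (hY hd.1.1)] at hd'
    exact asymm_of WellOrderingRel hd.2 hd'.2
  have h2 : D = T ∪ T.image G.mate := by
    ext d
    rw [Finset.mem_union, Finset.mem_image]
    constructor
    · intro hd
      rw [hD] at hd
      rcases trichotomous_of WellOrderingRel d (G.mate d) with h | h | h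
      · exact Or.inl ((hT d).2 ⟨hd, h⟩)
      · exact absurd h.symm (hG.ne d (hY hd.1))
      · refine Or.inr ⟨G.mate d, (hT _).2 ⟨⟨hd.2, ?_⟩, ?_⟩, hG.inv d (hY hd.1)⟩
        · rw [hG.inv d (hY hd.1)]; exact hd.1
        · rw [hG.inv d (hY hd.1)]; exact h
    · rintro (hd | ⟨e, he, rfl⟩)
      · exact (hD d).2 ((hT d).1 hd).1
      · have he' := ((hT e).1 he).1
        rw [hD, hG.inv e (hY he'.1)]
        exact ⟨he'.2, he'.1⟩
  have h3 : (T.image G.mate).card = T.card := by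
    refine Finset.card_image_of_injOn ?_
    intro a ha b hb h
    have ha' := ((hT a).1 ha).1
    have hb' := ((hT b).1 hb).1
    rw [← hG.inv a (hY ha'.1), ← hG.inv b (hY hb'.1)]
    exact congrArg G.mate h
  have h4 : Disjoint T (T.image G.mate) := by
    rw [Finset.disjoint_left]
    intro d hd hd'
    obtain ⟨e, he, rfl⟩ := Finset.mem_image.1 hd'
    exact hno e he hd
  have h5 : D.card = 2 * T.card := by
    rw [h2, Finset.card_union_of_disjoint h4, h3]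
    omega
  exact ⟨T, fun d hd => ((hT d).1 hd).1, hno, by omega⟩

/-- A set `Y` all of whose darts but one have their mates in `Y` contains a nonempty even set of edges. -/
theorem ex_even {G : Gr V} (hG : G.Ok) (Y : Finset V) (hY : Y ⊆ G.A) (h1 : (G.cut Y).card = 1) :
    ∃ Z : Finset (V × Fin 3), Z.Nonempty ∧ G.Closed Z ∧ (∀ d ∈ Z, d.1 ∈ Y) ∧ ∀ v ∈ Y, Even (deg Z v) := by
  classical
  obtain ⟨T, hTY, hTn, hTc⟩ := exHalf hG Y hY
  have hne : Y.Nonempty := by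
    obtain ⟨k, hk⟩ := Finset.card_pos.1 (by omega : 0 < (G.cut Y).card)
    exact ⟨k.1, ((mem_cut G Y k).1 hk).1⟩
  obtain ⟨v0, hv0⟩ := hne
  let Ψ : (T → ZMod 2) →ₗ[ZMod 2] (V × Fin 3 → ZMod 2) :=
    LinearMap.pi fun d => if h : d ∈ T then LinearMap.proj ⟨d, h⟩ else
      if h' : G.mate d ∈ T then LinearMap.proj ⟨G.mate d, h'⟩ else 0
  have hΨ1 : ∀ φ d (h : d ∈ T), Ψ φ d = φ ⟨d, h⟩ := fun φ d h => by
    simp [Ψ, h]
  have hΨ2 : ∀ φ d (h : G.mate d ∈ T), d ∉ T → Ψ φ d = φ ⟨G.mate d, h⟩ := fun φ d h hn => by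
    simp [Ψ, h, hn]
  have hΨ3 : ∀ φ d, d ∉ T → G.mate d ∉ T → Ψ φ d = 0 := fun φ d h hn => by
    simp [Ψ, h, hn]
  let L : (T → ZMod 2) →ₗ[ZMod 2] (↥(Y.erase v0) → ZMod 2) :=
    (LinearMap.pi fun v : ↥(Y.erase v0) =>
      ∑ i : Fin 3, LinearMap.proj ((v : V), i)) ∘ₗ Ψ
  have hL : ∀ φ v, L φ v = ∑ i : Fin 3, Ψ φ ((v : V), i) := fun φ v => by
    simp [L]
  have hlt : Module.finrank (ZMod 2) (↥(Y.erase v0) → ZMod 2)
      < Module.finrank (ZMod 2) (T → ZMod 2) := by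
    rw [Module.finrank_fintype_fun_eq_card, Module.finrank_fintype_fun_eq_card,
      Fintype.card_coe, Fintype.card_coe, Finset.card_erase_of_mem hv0]
    omega
  obtain ⟨φ, hφ, hφ0⟩ := (Submodule.ne_bot_iff _).1 (LinearMap.ker_ne_bot_of_finrank_lt hlt (f := L))
  rw [LinearMap.mem_ker] at hφ
  have hz2 : ∀ a : ZMod 2, a ≠ 0 → a = 1 := by decide
  let Z : Finset (V × Fin 3) :=
    (Y ×ˢ (Finset.univ : Finset (Fin 3))).filter (fun d => Ψ φ d = 1)
  have hZ : ∀ d, d ∈ Z ↔ d.1 ∈ Y ∧ Ψ φ d = 1 := fun d => by simp [Z]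
  have hin : ∀ d, Ψ φ d = 1 → d.1 ∈ G.A → d.1 ∈ Y ∧ (G.mate d).1 ∈ Y ∧ Ψ φ (G.mate d) = 1 := by
    intro d hd hdA
    by_cases h : d ∈ T
    · refine ⟨(hTY d h).1, (hTY d h).2, ?_⟩
      have h' : G.mate (G.mate d) ∈ T := by rw [hG.inv d hdA]; exact h
      rw [hΨ2 φ (G.mate d) h' (hTn d h)]
      rw [hΨ1 φ d h] at hd
      rw [← hd]
      congr 1
      exact Subtype.ext (hG.inv d hdA)
    · by_cases h' : G.mate d ∈ T
      · have h2 := hTY _ h'
        rw [hG.inv d hdA] at h2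
        refine ⟨h2.2, h2.1, ?_⟩
        rw [hΨ1 φ _ h', ← hΨ2 φ d h' h]
        exact hd
      · rw [hΨ3 φ d h h'] at hd
        exact absurd hd (by decide)
  have hcl : G.Closed Z := by
    intro d hd
    rw [hZ, hZ]
    constructor
    · rintro ⟨h, h'⟩
      exact (hin d h' hd).2
    · rintro ⟨h, h'⟩
      have := hin (G.mate d) h' (hG.mem d hd)
      rw [hG.inv d hd] at this
      exact ⟨this.2.1, this.2.2⟩
  have hcast : ∀ v ∈ Y, ((deg Z v : ℕ) : ZMod 2) = ∑ i : Fin 3, Ψ φ (v, i) := by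
    intro v hv
    rw [deg, Finset.card_filter, Nat.cast_sum]
    refine Finset.sum_congr rfl fun i _ => ?_
    by_cases h : Ψ φ (v, i) = 1
    · rw [if_pos ((hZ _).2 ⟨hv, h⟩), h, Nat.cast_one]
    · rw [if_neg (fun hh => h ((hZ _).1 hh).2), Nat.cast_zero]
      by_contra h0
      exact h (hz2 _ (Ne.symm h0))
  have hev : ∀ v ∈ Y, v ≠ v0 → Even (deg Z v) := by
    intro v hv hvv
    rw [← ZMod.natCast_eq_zero_iff_even, hcast v hv]
    have := hL φ ⟨v, Finset.mem_erase.2 ⟨hvv, hv⟩⟩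
    rw [hφ] at this
    exact this.symm
  refine ⟨Z, ?_, hcl, fun d hd => ((hZ d).1 hd).1, fun v hv => ?_⟩
  · obtain ⟨t, ht⟩ : ∃ t, φ t ≠ 0 := by
      by_contra hcon
      push Not at hcon
      exact hφ0 (funext hcon)
    refine ⟨t, (hZ _).2 ⟨(hTY _ t.2).1, ?_⟩⟩
    rw [hΨ1 φ _ t.2]
    exact hz2 _ ht
  · by_cases hvv : v = v0
    · subst hvv
      have h2 := par G hG Z hcl Y hY
      have h3 : (G.cut Y).filter (fun d => d ∈ Z) = ∅ := by
        rw [Finset.filter_eq_empty_iff]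
        intro d hd hdZ
        rw [mem_cut] at hd
        exact hd.2 (hin d ((hZ d).1 hdZ).2 (hY hd.1)).2.1
      rw [h3, Finset.card_empty, ← Finset.add_sum_erase _ _ hv0] at h2
      have h4 : Even (∑ v ∈ Y.erase v, deg Z v) := by
        refine Finset.even_sum _ fun w hw => ?_
        exact hev w (Finset.mem_of_mem_erase hw) (Finset.ne_of_mem_erase hw)
      rw [Nat.even_iff] at h4 ⊢
      omega
    · exact hev v hv hvv

end Pool.Agent.Lib.MP_1dc4d0_coA6
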