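import Pool.Agent.Lib.MP_1dc4d0_coA6.Pop

set_option autoImplicit false

namespace Pool.Agent.Lib.MP_1dc4d0_coA6

open Finset

variable {V : Type} [DecidableEq V]

/-- Positions of the other ends of the deleted edges. -/
theorem popOk_ends {G : Gr V} {F : Finset (V × Fin 3)} {g rx fx ry fy : V × Fin 3} (hG : G.Ok)
    (hF : G.Closed F) (hp : PopD G F g rx fx ry fy) :
    (G.mate fx = fy ∨ (G.mate fx).1 ∈ (G.pop g rx fx ry fy).A) ∧
    (G.mate fy = fx ∨ (G.mate fy).1 ∈ (G.pop g rx fx ry fy).A) ∧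
    (G.mate rx = ry ∨ (G.mate rx).1 ∈ (G.pop g rx fx ry fy).A) ∧
    (G.mate ry = rx ∨ (G.mate ry).1 ∈ (G.pop g rx fx ry fy).A) := by
  have hyA : (G.mate g).1 ∈ G.A := hG.mem g hp.gA
  have hrxA : rx.1 ∈ G.A := hp.rx1 ▸ hp.gA
  have hfxA : fx.1 ∈ G.A := hp.fx1 ▸ hp.gA
  have hryA : ry.1 ∈ G.A := hp.ry1 ▸ hyA
  have hfyA : fy.1 ∈ G.A := hp.fy1 ▸ hyA
  have hgg : G.mate (G.mate g) = g := hG.inv g hp.gA
  have hg'F : G.mate g ∉ F := fun h => hp.gF ((hF g hp.gA).2 h)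
  have inj : ∀ d d' : V × Fin 3, d.1 ∈ G.A → d'.1 ∈ G.A → G.mate d = G.mate d' → d = d' := by
    intro d d' hd hd' h
    rw [← hG.inv d hd, h, hG.inv d' hd']
  have hA : ∀ v, v ∈ (G.pop g rx fx ry fy).A ↔ v ≠ (G.mate g).1 ∧ v ≠ g.1 ∧ v ∈ G.A := by
    intro v
    simp only [Gr.pop, Finset.mem_erase]
  simp only [hA]
  have hxy := hp.hne
  refine ⟨?_, ?_, ?_, ?_⟩
  · have hm : G.mate fx ∈ F := (hF fx hfxA).1 hp.fxF
    by_cases hx : (G.mate fx).1 = g.1
    · rcases pop_all_x hp _ hx with h | h | h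
      · exact absurd (h ▸ hm) hp.gF
      · exact absurd (h ▸ hm) hp.rxF
      · exact absurd h (hG.ne fx hfxA)
    by_cases hy : (G.mate fx).1 = (G.mate g).1
    · rcases pop_all_y hG hF hp _ hy with h | h | h
      · exact absurd (h ▸ hm) hg'F
      · exact absurd (h ▸ hm) hp.ryF
      · exact Or.inl h
    exact Or.inr ⟨hy, hx, hG.mem fx hfxA⟩
  · have hm : G.mate fy ∈ F := (hF fy hfyA).1 hp.fyF
    by_cases hx : (G.mate fy).1 = g.1
    · rcases pop_all_x hp _ hx with h | h | h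
      · exact absurd (h ▸ hm) hp.gF
      · exact absurd (h ▸ hm) hp.rxF
      · exact Or.inl h
    by_cases hy : (G.mate fy).1 = (G.mate g).1
    · rcases pop_all_y hG hF hp _ hy with h | h | h
      · exact absurd (h ▸ hm) hg'F
      · exact absurd (h ▸ hm) hp.ryF
      · exact absurd h (hG.ne fy hfyA)
    exact Or.inr ⟨hy, hx, hG.mem fy hfyA⟩
  · have hm : G.mate rx ∉ F := fun h => hp.rxF ((hF rx hrxA).2 h)
    by_cases hx : (G.mate rx).1 = g.1
    · rcases pop_all_x hp _ hx with h | h | h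
      · exfalso
        have h1 : G.mate rx = G.mate (G.mate g) := by rw [h, hgg]
        have h2 := inj _ _ hrxA hyA h1
        have h3 := hp.rx1
        rw [h2] at h3
        exact hxy h3
      · exact absurd h (hG.ne rx hrxA)
      · exact absurd (by rw [h]; exact hp.fxF) hm
    by_cases hy : (G.mate rx).1 = (G.mate g).1
    · rcases pop_all_y hG hF hp _ hy with h | h | h
      · exact absurd (inj _ _ hp.gA hrxA h.symm) hp.grx
      · exact Or.inl h
      · exact absurd (by rw [h]; exact hp.fyF) hm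
    exact Or.inr ⟨hy, hx, hG.mem rx hrxA⟩
  · have hm : G.mate ry ∉ F := fun h => hp.ryF ((hF ry hryA).2 h)
    by_cases hx : (G.mate ry).1 = g.1
    · rcases pop_all_x hp _ hx with h | h | h
      · exfalso
        have h1 : G.mate ry = G.mate (G.mate g) := by rw [h, hgg]
        exact hp.gry (inj _ _ hryA hyA h1).symm
      · exact Or.inl h
      · exact absurd (by rw [h]; exact hp.fxF) hm
    by_cases hy : (G.mate ry).1 = (G.mate g).1
    · rcases pop_all_y hG hF hp _ hy with h | h | h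
      · exfalso
        have h2 := inj _ _ hryA hp.gA h
        have h3 := hp.ry1
        rw [h2] at h3
        exact hxy h3.symm
      · exact absurd h (hG.ne ry hryA)
      · exact absurd (by rw [h]; exact hp.fyF) hm
    exact Or.inr ⟨hy, hx, hG.mem ry hryA⟩

/-- The new mate of a dart. -/
theorem popOk_spec {G : Gr V} {F : Finset (V × Fin 3)} {g rx fx ry fy : V × Fin 3} (hG : G.Ok)
    (hF : G.Closed F) (hp : PopD G F g rx fx ry fy) (d : V × Fin 3)
    (hd : d.1 ∈ (G.pop g rx fx ry fy).A) :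
    (G.mate d = fx ∧ (G.pop g rx fx ry fy).mate d = G.mate fy ∧
      (G.mate fy).1 ∈ (G.pop g rx fx ry fy).A) ∨
    (G.mate d = fy ∧ (G.pop g rx fx ry fy).mate d = G.mate fx ∧
      (G.mate fx).1 ∈ (G.pop g rx fx ry fy).A) ∨
    (G.mate d = rx ∧ (G.pop g rx fx ry fy).mate d = G.mate ry ∧
      (G.mate ry).1 ∈ (G.pop g rx fx ry fy).A) ∨
    (G.mate d = ry ∧ (G.pop g rx fx ry fy).mate d = G.mate rx ∧
      (G.mate rx).1 ∈ (G.pop g rx fx ry fy).A) ∨
    ((G.mate d).1 ∈ (G.pop g rx fx ry fy).A ∧ (G.pop g rx fx ry fy).mate d = G.mate d) := by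
  obtain ⟨e1, e2, e3, e4⟩ := popOk_ends hG hF hp
  have hyA : (G.mate g).1 ∈ G.A := hG.mem g hp.gA
  have hrxA : rx.1 ∈ G.A := hp.rx1 ▸ hp.gA
  have hfxA : fx.1 ∈ G.A := hp.fx1 ▸ hp.gA
  have hryA : ry.1 ∈ G.A := hp.ry1 ▸ hyA
  have hfyA : fy.1 ∈ G.A := hp.fy1 ▸ hyA
  have hxy := hp.hne
  have hA : ∀ v, v ∈ (G.pop g rx fx ry fy).A ↔ v ≠ (G.mate g).1 ∧ v ≠ g.1 ∧ v ∈ G.A := by
    intro v
    simp only [Gr.pop, Finset.mem_erase]
  obtain ⟨hdy, hdx, hdA⟩ := (hA _).1 hd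
  have hdd := hG.inv d hdA
  have n1 : fx ≠ fy := fun h => hxy (by rw [← hp.fy1, ← h, hp.fx1])
  have n2 : fx ≠ rx := fun h => hp.rxF (h ▸ hp.fxF)
  have n3 : fx ≠ ry := fun h => hp.ryF (h ▸ hp.fxF)
  have n4 : fy ≠ rx := fun h => hp.rxF (h ▸ hp.fyF)
  have n5 : fy ≠ ry := fun h => hp.ryF (h ▸ hp.fyF)
  have n6 : rx ≠ ry := fun h => hxy (by rw [← hp.ry1, ← h, hp.rx1])
  by_cases c1 : G.mate d = fx
  · refine Or.inl ⟨c1, by simp only [Gr.pop, if_pos c1], ?_⟩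
    refine e2.resolve_left fun h => ?_
    have h1 : fy = G.mate fx := by rw [← h, hG.inv fy hfyA]
    rw [← c1, hdd] at h1
    exact hdy (by rw [← h1, hp.fy1])
  by_cases c2 : G.mate d = fy
  · refine Or.inr (Or.inl ⟨c2, by simp only [Gr.pop, if_neg c1, if_pos c2], ?_⟩)
    refine e1.resolve_left fun h => ?_
    have h1 : fx = G.mate fy := by rw [← h, hG.inv fx hfxA]
    rw [← c2, hdd] at h1
    exact hdx (by rw [← h1, hp.fx1])
  by_cases c3 : G.mate d = rx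
  · refine Or.inr (Or.inr (Or.inl ⟨c3, by simp only [Gr.pop, if_neg c1, if_neg c2, if_pos c3], ?_⟩))
    refine e4.resolve_left fun h => ?_
    have h1 : ry = G.mate rx := by rw [← h, hG.inv ry hryA]
    rw [← c3, hdd] at h1
    exact hdy (by rw [← h1, hp.ry1])
  by_cases c4 : G.mate d = ry
  · refine Or.inr (Or.inr (Or.inr (Or.inl
      ⟨c4, by simp only [Gr.pop, if_neg c1, if_neg c2, if_neg c3, if_pos c4], ?_⟩)))
    refine e3.resolve_left fun h => ?_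
    have h1 : rx = G.mate ry := by rw [← h, hG.inv rx hrxA]
    rw [← c4, hdd] at h1
    exact hdx (by rw [← h1, hp.rx1])
  refine Or.inr (Or.inr (Or.inr (Or.inr
    ⟨?_, by simp only [Gr.pop, if_neg c1, if_neg c2, if_neg c3, if_neg c4]⟩)))
  rw [hA]
  refine ⟨fun hy => ?_, fun hx => ?_, hG.mem d hdA⟩
  · rcases pop_all_y hG hF hp _ hy with h | h | h
    · have h1 : d = g := by rw [← hdd, h, hG.inv g hp.gA]
      exact hdx (by rw [h1])
    · exact c4 h
    · exact c2 h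
  · rcases pop_all_x hp _ hx with h | h | h
    · have h1 : d = G.mate g := by rw [← hdd, h]
      exact hdy (by rw [h1])
    · exact c3 h
    · exact c1 h

theorem popOk_A {G : Gr V} {g rx fx ry fy : V × Fin 3} {v : V} :
    v ∈ (G.pop g rx fx ry fy).A ↔ v ≠ (G.mate g).1 ∧ v ≠ g.1 ∧ v ∈ G.A := by
  simp only [Gr.pop, Finset.mem_erase]

theorem pop_ok {G : Gr V} {F : Finset (V × Fin 3)} {g rx fx ry fy : V × Fin 3} (hG : G.Ok)
    (hF : G.Closed F) (hp : PopD G F g rx fx ry fy) : (G.pop g rx fx ry fy).Ok := by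
  have hyA : (G.mate g).1 ∈ G.A := hG.mem g hp.gA
  have hrxA : rx.1 ∈ G.A := hp.rx1 ▸ hp.gA
  have hfxA : fx.1 ∈ G.A := hp.fx1 ▸ hp.gA
  have hryA : ry.1 ∈ G.A := hp.ry1 ▸ hyA
  have hfyA : fy.1 ∈ G.A := hp.fy1 ▸ hyA
  have hxy := hp.hne
  have n1 : fx ≠ fy := fun h => hxy (by rw [← hp.fy1, ← h, hp.fx1])
  have n2 : fx ≠ rx := fun h => hp.rxF (h ▸ hp.fxF)
  have n3 : fx ≠ ry := fun h => hp.ryF (h ▸ hp.fxF)
  have n4 : fy ≠ rx := fun h => hp.rxF (h ▸ hp.fyF)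
  have n5 : fy ≠ ry := fun h => hp.ryF (h ▸ hp.fyF)
  have n6 : rx ≠ ry := fun h => hxy (by rw [← hp.ry1, ← h, hp.rx1])
  refine ⟨fun d hd => ?_, fun d hd => ?_, fun d hd => ?_⟩
  · rcases popOk_spec hG hF hp d hd with ⟨-, h1, h2⟩ | ⟨-, h1, h2⟩ | ⟨-, h1, h2⟩ | ⟨-, h1, h2⟩ |
      ⟨h2, h1⟩ <;> rw [h1] <;> exact h2
  · have hdd := hG.inv d (popOk_A.1 hd).2.2
    rcases popOk_spec hG hF hp d hd with ⟨h0, h1, h2⟩ | ⟨h0, h1, h2⟩ | ⟨h0, h1, h2⟩ |
      ⟨h0, h1, h2⟩ | ⟨h2, h1⟩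
    · rw [h1]
      have h3 : G.mate (G.mate fy) = fy := hG.inv fy hfyA
      simp only [Gr.pop, h3, if_neg n1.symm, if_true]
      rw [← h0, hdd]
    · rw [h1]
      have h3 : G.mate (G.mate fx) = fx := hG.inv fx hfxA
      simp only [Gr.pop, h3, if_true]
      rw [← h0, hdd]
    · rw [h1]
      have h3 : G.mate (G.mate ry) = ry := hG.inv ry hryA
      simp only [Gr.pop, h3, if_neg n3.symm, if_neg n5.symm, if_neg n6.symm, if_true]
      rw [← h0, hdd]
    · rw [h1]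
      have h3 : G.mate (G.mate rx) = rx := hG.inv rx hrxA
      simp only [Gr.pop, h3, if_neg n2.symm, if_neg n4.symm, if_true]
      rw [← h0, hdd]
    · rw [h1]
      obtain ⟨hdy, hdx, hdA⟩ := popOk_A.1 hd
      have m1 : d ≠ fx := fun h => hdx (by rw [h, hp.fx1])
      have m2 : d ≠ fy := fun h => hdy (by rw [h, hp.fy1])
      have m3 : d ≠ rx := fun h => hdx (by rw [h, hp.rx1])
      have m4 : d ≠ ry := fun h => hdy (by rw [h, hp.ry1])
      simp only [Gr.pop, hdd, if_neg m1, if_neg m2, if_neg m3, if_neg m4]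
  · have hdd := hG.inv d (popOk_A.1 hd).2.2
    rcases popOk_spec hG hF hp d hd with ⟨h0, h1, h2⟩ | ⟨h0, h1, h2⟩ | ⟨h0, h1, h2⟩ |
      ⟨h0, h1, h2⟩ | ⟨h2, h1⟩
    · rw [h1]
      intro h
      rw [← h, hG.inv fy hfyA] at h0
      exact n1 h0.symm
    · rw [h1]
      intro h
      rw [← h, hG.inv fx hfxA] at h0
      exact n1 h0
    · rw [h1]
      intro h
      rw [← h, hG.inv ry hryA] at h0
      exact n6 h0.symm
    · rw [h1]
      intro h
      rw [← h, hG.inv rx hrxA] at h0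
      exact n6 h0
    · rw [h1]
      exact hG.ne d (popOk_A.1 hd).2.2

theorem pop_join {G : Gr V} {F : Finset (V × Fin 3)} {g rx fx ry fy : V × Fin 3} (hG : G.Ok)
    (hF : G.Join F) (hp : PopD G F g rx fx ry fy) : (G.pop g rx fx ry fy).Join F := by
  have hyA : (G.mate g).1 ∈ G.A := hG.mem g hp.gA
  have hrxA : rx.1 ∈ G.A := hp.rx1 ▸ hp.gA
  have hfxA : fx.1 ∈ G.A := hp.fx1 ▸ hp.gA
  have hryA : ry.1 ∈ G.A := hp.ry1 ▸ hyA
  have hfyA : fy.1 ∈ G.A := hp.fy1 ▸ hyA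
  refine ⟨fun d hd => ?_, fun v hv => hF.2 v (popOk_A.1 hv).2.2⟩
  have h3 := hF.1 d (popOk_A.1 hd).2.2
  rcases popOk_spec hG hF.1 hp d hd with ⟨h0, h1, h2⟩ | ⟨h0, h1, h2⟩ | ⟨h0, h1, h2⟩ |
    ⟨h0, h1, h2⟩ | ⟨h2, h1⟩
  · rw [h1, h3, h0]
    exact iff_of_true hp.fxF ((hF.1 fy hfyA).1 hp.fyF)
  · rw [h1, h3, h0]
    exact iff_of_true hp.fyF ((hF.1 fx hfxA).1 hp.fxF)
  · rw [h1, h3, h0]
    exact iff_of_false hp.rxF fun h => hp.ryF ((hF.1 ry hryA).2 h)
  · rw [h1, h3, h0]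
    exact iff_of_false hp.ryF fun h => hp.rxF ((hF.1 rx hrxA).2 h)
  · rw [h1]
    exact h3

/-- A union of components of `(V, E - F)` after the pop lifts to one before the pop. -/
theorem pop_cc {G : Gr V} {F : Finset (V × Fin 3)} {g rx fx ry fy : V × Fin 3} (hG : G.Ok)
    (hF : G.Join F) (hp : PopD G F g rx fx ry fy) (X : Finset V)
    (hX : (G.pop g rx fx ry fy).CC F X) :
    ∃ Y : Finset V, G.CC F Y ∧ (Y = X ∨ Y = insert g.1 (insert (G.mate g).1 X) ∧ (G.mate rx).1 ∈ X) := by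
  have hyA : (G.mate g).1 ∈ G.A := hG.mem g hp.gA
  have hrxA : rx.1 ∈ G.A := hp.rx1 ▸ hp.gA
  have hfxA : fx.1 ∈ G.A := hp.fx1 ▸ hp.gA
  have hryA : ry.1 ∈ G.A := hp.ry1 ▸ hyA
  have hfyA : fy.1 ∈ G.A := hp.fy1 ▸ hyA
  have hXA : ∀ v ∈ X, v ∈ (G.pop g rx fx ry fy).A := fun v hv => hX.1 hv
  have hrxm : G.mate rx ∉ F := fun h => hp.rxF ((hF.1 rx hrxA).2 h)
  have hrym : G.mate ry ∉ F := fun h => hp.ryF ((hF.1 ry hryA).2 h)
  -- darts outside `F` do not leave `X`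
  have hkey : ∀ d : V × Fin 3, d.1 ∈ X → d ∉ F → ((G.pop g rx fx ry fy).mate d).1 ∈ X := by
    intro d hd hdF
    by_contra h
    exact hdF (hX.2 d ((mem_cut _ _ _).2 ⟨hd, h⟩))
  by_cases hc : (G.mate rx).1 ∈ X
  · have hc2 : (G.mate ry).1 ∈ X := by
      have h1 := hkey _ hc hrxm
      have hd := hXA _ hc
      rcases popOk_spec hG hF.1 hp (G.mate rx) hd with ⟨h0, -, -⟩ | ⟨h0, -, -⟩ | ⟨h0, h2, -⟩ |
        ⟨h0, -, -⟩ | ⟨h2, -⟩
      · rw [hG.inv rx hrxA] at h0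
        exact absurd (h0 ▸ hp.fxF) hp.rxF
      · rw [hG.inv rx hrxA] at h0
        exact absurd (h0 ▸ hp.fyF) hp.rxF
      · rwa [h2] at h1
      · rw [hG.inv rx hrxA] at h0
        exact absurd (by rw [← hp.ry1, ← h0, hp.rx1]) hp.hne
      · rw [hG.inv rx hrxA] at h2
        exact absurd hp.rx1 (popOk_A.1 h2).2.1
    refine ⟨insert g.1 (insert (G.mate g).1 X), ⟨?_, fun d hd => ?_⟩, Or.inr ⟨rfl, hc⟩⟩
    · intro v hv
      rw [Finset.mem_insert, Finset.mem_insert] at hv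
      rcases hv with rfl | rfl | hv
      · exact hp.gA
      · exact hyA
      · exact (popOk_A.1 (hXA v hv)).2.2
    · rw [mem_cut] at hd
      obtain ⟨hd1, hd2⟩ := hd
      simp only [Finset.mem_insert, not_or] at hd1 hd2
      obtain ⟨m1, m2, m3⟩ := hd2
      rcases hd1 with hd1 | hd1 | hd1
      · rcases pop_all_x hp d hd1 with h | h | h
        · exact absurd (by rw [h]) m2
        · exact absurd (by rw [h]; exact hc) m3
        · rw [h]
          exact hp.fxF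
      · rcases pop_all_y hG hF.1 hp d hd1 with h | h | h
        · exact absurd (by rw [h, hG.inv g hp.gA]) m1
        · exact absurd (by rw [h]; exact hc2) m3
        · rw [h]
          exact hp.fyF
      · rcases popOk_spec hG hF.1 hp d (hXA _ hd1) with ⟨h0, -, -⟩ | ⟨h0, -, -⟩ | ⟨h0, -, -⟩ |
          ⟨h0, -, -⟩ | ⟨-, h2⟩
        · exact absurd (by rw [h0, hp.fx1]) m1
        · exact absurd (by rw [h0, hp.fy1]) m2
        · exact absurd (by rw [h0, hp.rx1]) m1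
        · exact absurd (by rw [h0, hp.ry1]) m2
        · exact hX.2 d ((mem_cut _ _ _).2 ⟨hd1, by rw [h2]; exact m3⟩)
  · refine ⟨X, ⟨fun v hv => (popOk_A.1 (hXA v hv)).2.2, fun d hd => ?_⟩, Or.inl rfl⟩
    rw [mem_cut] at hd
    obtain ⟨hd1, hd2⟩ := hd
    have hdA := (popOk_A.1 (hXA _ hd1)).2.2
    have hdd := hG.inv d hdA
    by_contra hdF
    have h3 := hkey d hd1 hdF
    rcases popOk_spec hG hF.1 hp d (hXA _ hd1) with ⟨h0, -, -⟩ | ⟨h0, -, -⟩ | ⟨h0, -, -⟩ |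
      ⟨h0, h2, -⟩ | ⟨-, h2⟩
    · exact hdF ((hF.1 d hdA).2 (by rw [h0]; exact hp.fxF))
    · exact hdF ((hF.1 d hdA).2 (by rw [h0]; exact hp.fyF))
    · rw [h0] at hdd
      exact hc (by rw [hdd]; exact hd1)
    · rw [h2] at h3
      exact hc h3
    · rw [h2] at h3
      exact hd2 h3

theorem pop_few {G : Gr V} {F : Finset (V × Fin 3)} {g rx fx ry fy : V × Fin 3} (hG : G.Ok)
    (hF : G.Join F) (hp : PopD G F g rx fx ry fy) (hf : G.Few F) : (G.pop g rx fx ry fy).Few F := by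
  intro f hcc hodd
  by_contra hcon
  push Not at hcon
  choose Y hY hYX using fun i => pop_cc hG hF hp (f i) (hcc i)
  have hx : ∀ i, g.1 ∉ f i := fun i h => (popOk_A.1 ((hcc i).1 h)).2.1 rfl
  have hy : ∀ i, (G.mate g).1 ∉ f i := fun i h => (popOk_A.1 ((hcc i).1 h)).1 rfl
  have hY1 : ∀ i, Odd (Y i).card := by
    intro i
    rcases hYX i with h | ⟨h, -⟩
    · rw [h]
      exact hodd i
    · rw [h, Finset.card_insert_of_notMem, Finset.card_insert_of_notMem (hy i)]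
      · exact (hodd i).add_even even_two
      · rw [Finset.mem_insert, not_or]
        exact ⟨fun h => hp.hne h.symm, hx i⟩
  obtain ⟨i, j, hij, hnd⟩ := hf Y hY hY1
  apply hnd
  have hd := hcon i j hij
  rcases hYX i with h | ⟨h, h'⟩ <;> rcases hYX j with k | ⟨k, k'⟩
  · rw [h, k]
    exact hd
  · rw [h, k, Finset.disjoint_insert_right, Finset.disjoint_insert_right]
    exact ⟨hx i, hy i, hd⟩
  · rw [h, k, Finset.disjoint_insert_left, Finset.disjoint_insert_left]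
    exact ⟨hx j, hy j, hd⟩
  · exact absurd k' (Finset.disjoint_left.1 hd h')

end Pool.Agent.Lib.MP_1dc4d0_coA6
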