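import Pool.Agent.Lib.MP_1dc4d0_coA6.NDefs
import Pool.Agent.Lib.MP_1dc4d0_coA6.PopOk
import Pool.Agent.Lib.MP_1dc4d0_coA6.Star0

set_option autoImplicit false

namespace Pool.Agent.Lib.MP_1dc4d0_coA6

open Finset

variable {V : Type} [DecidableEq V]

private theorem exn_deg_congr {P Q : Finset (V × Fin 3)} {v : V}
    (h : ∀ i : Fin 3, (v, i) ∈ P ↔ (v, i) ∈ Q) : deg P v = deg Q v := by
  unfold deg
  congr 1
  exact Finset.filter_congr fun i _ => h i

private theorem exn_deg_one {P : Finset (V × Fin 3)} {v : V} (a : V × Fin 3) (ha : a.1 = v)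
    (h : ∀ i : Fin 3, (v, i) ∈ P ↔ (v, i) = a) : deg P v = 1 := by
  unfold deg
  rw [Finset.card_eq_one]
  refine ⟨a.2, ?_⟩
  ext i
  rw [Finset.mem_filter, Finset.mem_singleton, h]
  constructor
  · rintro ⟨-, h1⟩
    rw [← h1]
  · intro h1
    exact ⟨Finset.mem_univ i, Prod.ext ha.symm h1⟩

/-- the core of the induction step -/
private theorem exn_step {G : Gr V} {F : Finset (V × Fin 3)} (hG : G.Ok) (hF : G.Join F)
    {c : Finset V} (hc : c ⊆ G.A)
    (hcc : ∀ d ∈ G.cut c, d ∈ F) (h1 : ∀ v ∈ c, deg F v = 1)
    {g rx fx ry fy : V × Fin 3} (hp : PopD G F g rx fx ry fy) (hx : g.1 ∈ c)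
    (hy : (G.mate g).1 ∈ c)
    (hN : ∃ N, NData (G.pop g rx fx ry fy) F ((c.erase g.1).erase (G.mate g).1) N) :
    ∃ N, NData G F c N := by
  obtain ⟨N, hN⟩ := hN
  have hyA : (G.mate g).1 ∈ G.A := hc hy
  have hgi : G.mate (G.mate g) = g := hG.inv g hp.gA
  have hmgF : G.mate g ∉ F := fun h => hp.gF ((hF.1 g hp.gA).2 h)
  have hmem' : ∀ v, v ∈ (c.erase g.1).erase (G.mate g).1 ↔ v ≠ (G.mate g).1 ∧ v ≠ g.1 ∧ v ∈ c := by
    intro v
    rw [Finset.mem_erase, Finset.mem_erase]
  have hNc : ∀ d ∈ N, d.1 ≠ (G.mate g).1 ∧ d.1 ≠ g.1 ∧ d.1 ∈ c := fun d hd =>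
    (hmem' d.1).1 (hN.mem d hd).1
  have hrxA : rx.1 ∈ G.A := by
    rw [hp.rx1]
    exact hp.gA
  have hryA : ry.1 ∈ G.A := by
    rw [hp.ry1]
    exact hyA
  have hfxA : fx.1 ∈ G.A := by
    rw [hp.fx1]
    exact hp.gA
  have hfyA : fy.1 ∈ G.A := by
    rw [hp.fy1]
    exact hyA
  -- the mate of a dart of N
  have hmate : ∀ d ∈ N, (G.mate d = rx ∧ (G.pop g rx fx ry fy).mate d = G.mate ry) ∨
      (G.mate d = ry ∧ (G.pop g rx fx ry fy).mate d = G.mate rx) ∨
      (G.mate d ≠ rx ∧ G.mate d ≠ ry ∧ (G.pop g rx fx ry fy).mate d = G.mate d) := by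
    intro d hd
    have hdF : G.mate d ∉ F := fun h =>
      (hN.mem d hd).2.1 ((hF.1 d (hc (hNc d hd).2.2)).2 h)
    have n1 : G.mate d ≠ fx := fun h => hdF (h ▸ hp.fxF)
    have n2 : G.mate d ≠ fy := fun h => hdF (h ▸ hp.fyF)
    by_cases n3 : G.mate d = rx
    · left
      refine ⟨n3, ?_⟩
      simp only [Gr.pop]
      rw [if_neg n1, if_neg n2, if_pos n3]
    · by_cases n4 : G.mate d = ry
      · right
        left
        refine ⟨n4, ?_⟩
        simp only [Gr.pop]
        rw [if_neg n1, if_neg n2, if_neg n3, if_pos n4]
      · right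
        right
        refine ⟨n3, n4, ?_⟩
        simp only [Gr.pop]
        rw [if_neg n1, if_neg n2, if_neg n3, if_neg n4]
  by_cases hr : G.mate rx ∈ N
  · -- use rx and ry
    have hr' : G.mate ry ∈ N := by
      rcases hmate _ hr with ⟨-, h3⟩ | ⟨h2, -⟩ | ⟨h2, -, -⟩
      · rw [← h3]
        exact (hN.mem _ hr).2.2
      · rw [hG.inv rx hrxA] at h2
        have h4 := hp.ry1
        rw [← h2, hp.rx1] at h4
        exact absurd h4.symm hp.hne
      · exact absurd (hG.inv rx hrxA) h2
    have hin : ∀ d, d ∈ insert rx (insert ry N) ↔ d = rx ∨ d = ry ∨ d ∈ N := fun d => by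
      rw [Finset.mem_insert, Finset.mem_insert]
    refine ⟨insert rx (insert ry N), ⟨hc, hcc, h1, ?_, ?_⟩⟩
    · intro v hv
      by_cases hvx : v = g.1
      · refine exn_deg_one rx (hp.rx1.trans hvx.symm) fun i => ?_
        rw [hin]
        constructor
        · rintro (h | h | h)
          · exact h
          · have h4 := hp.ry1
            rw [← h] at h4
            exact absurd (h4.symm.trans hvx) hp.hne
          · exact absurd hvx (hNc _ h).2.1
        · intro h
          exact Or.inl h
      · by_cases hvy : v = (G.mate g).1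
        · refine exn_deg_one ry (hp.ry1.trans hvy.symm) fun i => ?_
          rw [hin]
          constructor
          · rintro (h | h | h)
            · have h4 := hp.rx1
              rw [← h] at h4
              exact absurd h4 hvx
            · exact h
            · exact absurd hvy (hNc _ h).1
          · intro h
            exact Or.inr (Or.inl h)
        · rw [exn_deg_congr (Q := N), hN.oneN v ((hmem' v).2 ⟨hvy, hvx, hv⟩)]
          intro i
          rw [hin]
          constructor
          · rintro (h | h | h)
            · have h4 := hp.rx1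
              rw [← h] at h4
              exact absurd h4 hvx
            · have h4 := hp.ry1
              rw [← h] at h4
              exact absurd h4 hvy
            · exact h
          · intro h
            exact Or.inr (Or.inr h)
    · intro d hd
      rw [hin] at hd
      rcases hd with rfl | rfl | hd
      · refine ⟨by rw [hp.rx1]; exact hx, hp.rxF, ?_⟩
        rw [hin]
        exact Or.inr (Or.inr hr)
      · refine ⟨by rw [hp.ry1]; exact hy, hp.ryF, ?_⟩
        rw [hin]
        exact Or.inr (Or.inr hr')
      · refine ⟨(hNc d hd).2.2, (hN.mem d hd).2.1, ?_⟩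
        rw [hin]
        rcases hmate d hd with ⟨h2, -⟩ | ⟨h2, -⟩ | ⟨-, -, h3⟩
        · exact Or.inl h2
        · exact Or.inr (Or.inl h2)
        · rw [← h3]
          exact Or.inr (Or.inr (hN.mem d hd).2.2)
  · -- use g
    have hr' : G.mate ry ∉ N := by
      intro h
      rcases hmate _ h with ⟨h2, -⟩ | ⟨-, h3⟩ | ⟨-, h2, -⟩
      · rw [hG.inv ry hryA] at h2
        have h4 := hp.ry1
        rw [h2, hp.rx1] at h4
        exact absurd h4.symm hp.hne
      · rw [← h3] at hr
        exact hr (hN.mem _ h).2.2
      · exact absurd (hG.inv ry hryA) h2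
    have hin : ∀ d, d ∈ insert g (insert (G.mate g) N) ↔ d = g ∨ d = G.mate g ∨ d ∈ N := fun d => by
      rw [Finset.mem_insert, Finset.mem_insert]
    refine ⟨insert g (insert (G.mate g) N), ⟨hc, hcc, h1, ?_, ?_⟩⟩
    · intro v hv
      by_cases hvx : v = g.1
      · refine exn_deg_one g hvx.symm fun i => ?_
        rw [hin]
        constructor
        · rintro (h | h | h)
          · exact h
          · have h4 : v = (G.mate g).1 := by rw [← h]
            exact absurd (h4.symm.trans hvx) hp.hne
          · exact absurd hvx (hNc _ h).2.1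
        · intro h
          exact Or.inl h
      · by_cases hvy : v = (G.mate g).1
        · refine exn_deg_one (G.mate g) hvy.symm fun i => ?_
          rw [hin]
          constructor
          · rintro (h | h | h)
            · have h4 : v = g.1 := by rw [← h]
              exact absurd h4 hvx
            · exact h
            · exact absurd hvy (hNc _ h).1
          · intro h
            exact Or.inr (Or.inl h)
        · rw [exn_deg_congr (Q := N), hN.oneN v ((hmem' v).2 ⟨hvy, hvx, hv⟩)]
          intro i
          rw [hin]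
          constructor
          · rintro (h | h | h)
            · have h4 : v = g.1 := by rw [← h]
              exact absurd h4 hvx
            · have h4 : v = (G.mate g).1 := by rw [← h]
              exact absurd h4 hvy
            · exact h
          · intro h
            exact Or.inr (Or.inr h)
    · intro d hd
      rw [hin] at hd
      rcases hd with rfl | rfl | hd
      · refine ⟨hx, hp.gF, ?_⟩
        rw [hin]
        exact Or.inr (Or.inl rfl)
      · refine ⟨hy, hmgF, ?_⟩
        rw [hin, hgi]
        exact Or.inl rfl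
      · refine ⟨(hNc d hd).2.2, (hN.mem d hd).2.1, ?_⟩
        rw [hin]
        have hdA := hc (hNc d hd).2.2
        rcases hmate d hd with ⟨h2, -⟩ | ⟨h2, -⟩ | ⟨-, -, h3⟩
        · exfalso
          apply hr
          rw [← h2, hG.inv d hdA]
          exact hd
        · exfalso
          apply hr'
          rw [← h2, hG.inv d hdA]
          exact hd
        · rw [← h3]
          exact Or.inr (Or.inr (hN.mem d hd).2.2)

/-- A union `c` of circuits, all of even length, has a perfect matching outside `F`. -/
theorem exN {G : Gr V} {F : Finset (V × Fin 3)} (hG : G.Ok) (hF : G.Join F) (c : Finset V) (hc : c ⊆ G.A)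
    (hcc : ∀ d ∈ G.cut c, d ∈ F) (h1 : ∀ v ∈ c, deg F v = 1)
    (hev : ∀ X ⊆ c, (∀ d ∈ G.cut X, d ∈ F) → Even X.card) : ∃ N, NData G F c N := by
  induction hk : c.card using Nat.strong_induction_on generalizing G c with
  | _ k ih =>
  rcases c.eq_empty_or_nonempty with rfl | ⟨v, hv⟩
  · exact ⟨∅, ⟨hc, hcc, h1, fun v hv => absurd hv (Finset.notMem_empty v),
      fun d hd => absurd hd (Finset.notMem_empty d)⟩⟩
  · have h3 : v ∉ G.V3 F := by
      intro h
      have h4 := (Finset.mem_filter.1 h).2
      have h5 := h1 v hv
      unfold deg at h5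
      rw [Finset.filter_true_of_mem fun i _ => h4 i] at h5
      simp at h5
    obtain ⟨g, r, f, hgv, hrv, hfv, hgF, hrF, hfF, hgr⟩ := two_darts hF v (hc hv) h3
    subst hgv
    have hgA : g.1 ∈ G.A := hc hv
    have hy : (G.mate g).1 ∈ c := by
      by_contra h
      exact hgF (hcc g ((mem_cut G c g).2 ⟨hv, h⟩))
    have hmgF : G.mate g ∉ F := fun h => hgF ((hF.1 g hgA).2 h)
    have hne : (G.mate g).1 ≠ g.1 := by
      intro h
      -- the vertex is a component
      have h5 : Even ({g.1} : Finset V).card := by
        refine hev {g.1} (Finset.singleton_subset_iff.2 hv) fun d hd => ?_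
        rw [mem_cut, Finset.mem_singleton, Finset.mem_singleton] at hd
        have h6 : G.mate g ≠ g := hG.ne g hgA
        by_contra hdF
        have h7 : d ≠ g := fun h8 => hd.2 (by rw [h8]; exact h)
        have h8 : d ≠ G.mate g := fun h8 => hd.2 (by rw [h8, hG.inv g hgA])
        -- three darts outside F and one in F at the same vertex
        obtain ⟨v0, i⟩ := g
        obtain ⟨w, j⟩ := d
        obtain ⟨u, l⟩ := f
        generalize hm : G.mate (v0, i) = m at *
        obtain ⟨z, o⟩ := m
        simp only at hd h hfv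
        obtain ⟨hd1, -⟩ := hd
        subst hd1 h hfv
        have n1 : j ≠ i := fun h => h7 (by rw [h])
        have n2 : j ≠ o := fun h => h8 (by rw [h])
        have n3 : o ≠ i := fun h => h6 (by rw [h])
        have n4 : l ≠ i := fun h => hgF (by rw [← h]; exact hfF)
        have n5 : l ≠ o := fun h => hmgF (by rw [← h]; exact hfF)
        have n6 : l ≠ j := fun h => hdF (by rw [← h]; exact hfF)
        omega
      rw [Finset.card_singleton] at h5
      exact absurd h5 (by decide)
    obtain ⟨rx, fx, ry, fy, hp⟩ := exPop hG hF g hgA hgF hne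
    refine exn_step hG hF hc hcc h1 hp hv hy ?_
    have hxA' : ∀ v, v ∈ (c.erase g.1).erase (G.mate g).1 ↔
        v ≠ (G.mate g).1 ∧ v ≠ g.1 ∧ v ∈ c := by
      intro v
      rw [Finset.mem_erase, Finset.mem_erase]
    have hcard : ((c.erase g.1).erase (G.mate g).1).card < k := by
      rw [← hk]
      refine lt_of_le_of_lt (Finset.card_le_card (Finset.erase_subset _ _)) ?_
      exact Finset.card_erase_lt_of_mem hv
    refine ih _ hcard (pop_ok hG hF.1 hp) (pop_join hG hF hp) _ ?_ ?_ ?_ ?_ rfl
    · intro w hw
      rw [hxA'] at hw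
      simp only [Gr.pop]
      rw [Finset.mem_erase, Finset.mem_erase]
      exact ⟨hw.1, hw.2.1, hc hw.2.2⟩
    · intro d hd
      rw [mem_cut, hxA', hxA'] at hd
      obtain ⟨⟨hd1, hd2, hd3⟩, hd4⟩ := hd
      have hdA := hc hd3
      by_contra hdF
      have hmF : G.mate d ∉ F := fun h => hdF ((hF.1 d hdA).2 h)
      have hmc : (G.mate d).1 ∈ c := by
        by_contra h
        exact hdF (hcc d ((mem_cut G c d).2 ⟨hd3, h⟩))
      have hrxA : rx.1 ∈ G.A := by
        rw [hp.rx1]
        exact hgA
      have hryA : ry.1 ∈ G.A := by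
        rw [hp.ry1]
        exact hc hy
      have n1 : G.mate d ≠ fx := fun h => hmF (h ▸ hp.fxF)
      have n2 : G.mate d ≠ fy := fun h => hmF (h ▸ hp.fyF)
      have hall : ∀ e : V × Fin 3, e.1 = g.1 ∨ e.1 = (G.mate g).1 → e ∉ F →
          e = g ∨ e = G.mate g ∨ e = rx ∨ e = ry := by
        rintro e (he | he) heF
        · rcases pop_all_x hp e he with h | h | h
          · exact Or.inl h
          · exact Or.inr (Or.inr (Or.inl h))
          · exact absurd (h ▸ hp.fxF) heF
        · rcases pop_all_y hG hF.1 hp e he with h | h | h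
          · exact Or.inr (Or.inl h)
          · exact Or.inr (Or.inr (Or.inr h))
          · exact absurd (h ▸ hp.fyF) heF
      -- the other end of a C-dart is outer, if the other one is
      have key : ∀ r r' : V × Fin 3, (r'.1 = g.1 ∨ r'.1 = (G.mate g).1) → r' ∉ F → r' ≠ g →
          r' ≠ G.mate g →
          (∀ e : V × Fin 3, e.1 = g.1 ∨ e.1 = (G.mate g).1 → e ∉ F → e = g ∨ e = G.mate g ∨
            e = r ∨ e = r') → G.mate d = r →
          (G.mate r').1 ≠ (G.mate g).1 ∧ (G.mate r').1 ≠ g.1 ∧ (G.mate r').1 ∈ c := by
        intro r r' hr'xy hr'F hr'g hr'g' hall hdr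
        have hr'c : r'.1 ∈ c := by
          rcases hr'xy with h | h
          · rw [h]
            exact hv
          · rw [h]
            exact hy
        have hr'A := hc hr'c
        have hmr'F : G.mate r' ∉ F := fun h => hr'F ((hF.1 r' hr'A).2 h)
        have hmr'c : (G.mate r').1 ∈ c := by
          by_contra h
          exact hr'F (hcc r' ((mem_cut G c r').2 ⟨hr'c, h⟩))
        have hno : ¬ ((G.mate r').1 = g.1 ∨ (G.mate r').1 = (G.mate g).1) := by
          intro h
          rcases hall _ h hmr'F with h4 | h4 | h4 | h4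
          · exact hr'g' (by rw [← h4, hG.inv r' hr'A])
          · exact hr'g (by rw [← hG.inv r' hr'A, h4, hG.inv g hgA])
          · -- mate r' = r = mate d
            have h5 : r' = d := by
              rw [← hG.inv r' hr'A, h4, ← hdr, hG.inv d hdA]
            rw [h5] at hr'xy
            rcases hr'xy with h6 | h6
            · exact hd2 h6
            · exact hd1 h6
          · exact hG.ne r' hr'A h4
        exact ⟨fun h => hno (Or.inr h), fun h => hno (Or.inl h), hmr'c⟩
      apply hd4
      by_cases n3 : G.mate d = rx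
      · have h4 : (G.pop g rx fx ry fy).mate d = G.mate ry := by
          simp only [Gr.pop]
          rw [if_neg n1, if_neg n2, if_pos n3]
        rw [h4]
        refine key rx ry (Or.inr hp.ry1) hp.ryF ?_ (Ne.symm hp.gry) (fun e he heF => ?_) n3
        · intro h
          have h5 := hp.ry1
          rw [h] at h5
          exact hne h5.symm
        · exact hall e he heF
      · by_cases n4 : G.mate d = ry
        · have h4 : (G.pop g rx fx ry fy).mate d = G.mate rx := by
            simp only [Gr.pop]
            rw [if_neg n1, if_neg n2, if_neg n3, if_pos n4]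
          rw [h4]
          refine key ry rx (Or.inl hp.rx1) hp.rxF (Ne.symm hp.grx) ?_ (fun e he heF => ?_) n4
          · intro h
            have h5 := hp.rx1
            rw [h] at h5
            exact hne h5
          · rcases hall e he heF with h | h | h | h
            · exact Or.inl h
            · exact Or.inr (Or.inl h)
            · exact Or.inr (Or.inr (Or.inr h))
            · exact Or.inr (Or.inr (Or.inl h))
        · have h4 : (G.pop g rx fx ry fy).mate d = G.mate d := by
            simp only [Gr.pop]
            rw [if_neg n1, if_neg n2, if_neg n3, if_neg n4]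
          rw [h4]
          have hno : ¬ ((G.mate d).1 = g.1 ∨ (G.mate d).1 = (G.mate g).1) := by
            intro h
            rcases hall _ h hmF with h5 | h5 | h5 | h5
            · exact hd1 (by rw [← h5, hG.inv d hdA])
            · exact hd2 (by rw [← hG.inv d hdA, h5, hG.inv g hgA])
            · exact n3 h5
            · exact n4 h5
          exact ⟨fun h => hno (Or.inr h), fun h => hno (Or.inl h), hmc⟩
    · intro w hw
      rw [hxA'] at hw
      exact h1 w hw.2.2
    · intro X hX hXF
      obtain ⟨Y, hY, hYX⟩ := pop_cc hG hF hp X ⟨fun w hw => by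
        have h4 := (hxA' w).1 (hX hw)
        simp only [Gr.pop]
        rw [Finset.mem_erase, Finset.mem_erase]
        exact ⟨h4.1, h4.2.1, hc h4.2.2⟩, hXF⟩
      have hXc : X ⊆ c := fun w hw => ((hxA' w).1 (hX hw)).2.2
      rcases hYX with rfl | ⟨rfl, -⟩
      · exact hev _ hXc hY.2
      · have h5 := hev _ (by
          intro w hw
          rw [Finset.mem_insert, Finset.mem_insert] at hw
          rcases hw with rfl | rfl | hw
          · exact hv
          · exact hy
          · exact hXc hw) hY.2
        have hxX : g.1 ∉ X := fun h => ((hxA' _).1 (hX h)).2.1 rfl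
        have hyX : (G.mate g).1 ∉ X := fun h => ((hxA' _).1 (hX h)).1 rfl
        rw [Finset.card_insert_of_notMem, Finset.card_insert_of_notMem hyX] at h5
        · rw [Nat.even_iff] at h5 ⊢
          omega
        · rw [Finset.mem_insert]
          rintro (h6 | h6)
          · exact hne h6.symm
          · exact hxX h6

end Pool.Agent.Lib.MP_1dc4d0_coA6
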