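import Pool.Agent.Lib.MP_1dc4d0_coA6.Pop

set_option autoImplicit false

namespace Pool.Agent.Lib.MP_1dc4d0_coA6

open Finset

variable {V : Type} [DecidableEq V]

theorem small_cut {G : Gr V} (hG : G.Ok) (hc : G.Cyc) (h6 : 6 ≤ G.A.card) (X : Finset V) (hX : X ⊆ G.A)
    (hne : X.Nonempty) (h3 : X.card ≤ 3) : X.card + 2 ≤ (G.cut X).card := by
  have hXA : X ≠ G.A := fun h => by rw [h] at h3; omega
  obtain ⟨c1, c2⟩ := hc X hX hne hXA
  have hp := par_all G hG X hX
  have hs : (G.A \ X).card = G.A.card - X.card := Finset.card_sdiff_of_subset hX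
  have h0 : 0 < X.card := Finset.card_pos.2 hne
  by_contra hcon
  by_cases h : (G.cut X).card = 3
  · rcases c2 h with h' | h' <;> omega
  · omega

/-- Upper bound for a cut from a set of inner darts. -/
theorem sm_cut_le {G : Gr V} (X : Finset V) (S : Finset (V × Fin 3))
    (hS : ∀ d ∈ S, d.1 ∈ X ∧ (G.mate d).1 ∈ X) : (G.cut X).card + S.card ≤ 3 * X.card := by
  have h1 : G.cut X ∪ S ⊆ X ×ˢ (Finset.univ : Finset (Fin 3)) := by
    intro d hd
    rcases Finset.mem_union.1 hd with h | h
    · simp only [Finset.mem_product, Finset.mem_univ, and_true]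
      exact ((mem_cut G X d).1 h).1
    · simp only [Finset.mem_product, Finset.mem_univ, and_true]
      exact (hS d h).1
  have h2 : Disjoint (G.cut X) S := by
    rw [Finset.disjoint_left]
    intro d hd hd'
    exact ((mem_cut G X d).1 hd).2 (hS d hd').2
  have h3 := Finset.card_le_card h1
  rw [Finset.card_union_of_disjoint h2, Finset.card_product] at h3
  simpa [mul_comm] using h3

theorem no_loop {G : Gr V} (hG : G.Ok) (hc : G.Cyc) (h6 : 6 ≤ G.A.card) (d : V × Fin 3) (hd : d.1 ∈ G.A) :
    (G.mate d).1 ≠ d.1 := by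
  intro h
  have hX : ({d.1} : Finset V) ⊆ G.A := by simpa using hd
  have h1 := small_cut hG hc h6 {d.1} hX (by simp) (by simp)
  have h2 := sm_cut_le (G := G) {d.1} {d, G.mate d} (by
    intro e he
    simp only [Finset.mem_insert, Finset.mem_singleton] at he ⊢
    rcases he with rfl | rfl
    · exact ⟨rfl, h⟩
    · rw [hG.inv d hd]; exact ⟨h, rfl⟩)
  rw [Finset.card_pair (hG.ne d hd).symm] at h2
  simp only [Finset.card_singleton] at h1 h2
  omega

theorem no_par {G : Gr V} (hG : G.Ok) (hc : G.Cyc) (h6 : 6 ≤ G.A.card) (d d' : V × Fin 3) (hd : d.1 ∈ G.A)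
    (h : d' ≠ d) (h1 : d'.1 = d.1) : (G.mate d').1 ≠ (G.mate d).1 := by
  intro h2
  have hd' : d'.1 ∈ G.A := by rw [h1]; exact hd
  have hl := no_loop hG hc h6 d hd
  have hX : ({d.1, (G.mate d).1} : Finset V) ⊆ G.A := by
    intro x hx
    simp only [Finset.mem_insert, Finset.mem_singleton] at hx
    rcases hx with rfl | rfl
    · exact hd
    · exact hG.mem d hd
  have hcard : ({d.1, (G.mate d).1} : Finset V).card = 2 := Finset.card_pair hl.symm
  have h3 := small_cut hG hc h6 {d.1, (G.mate d).1} hX (by simp) (by omega)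
  have h4 := sm_cut_le (G := G) {d.1, (G.mate d).1} {d, d', G.mate d, G.mate d'} (by
    intro e he
    simp only [Finset.mem_insert, Finset.mem_singleton] at he ⊢
    rcases he with rfl | rfl | rfl | rfl
    · exact ⟨Or.inl rfl, Or.inr rfl⟩
    · exact ⟨Or.inl h1, Or.inr h2⟩
    · rw [hG.inv d hd]; exact ⟨Or.inr rfl, Or.inl rfl⟩
    · rw [hG.inv d' hd']; exact ⟨Or.inr h2, Or.inl h1⟩)
  have h5 : ({d, d', G.mate d, G.mate d'} : Finset (V × Fin 3)).card = 4 := by
    have e1 : G.mate d ≠ G.mate d' := fun hh => h (by rw [← hG.inv d' hd', ← hh, hG.inv d hd])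
    have e2 : d' ≠ G.mate d := fun hh => hl (by rw [← hh, h1])
    have e3 : d' ≠ G.mate d' := fun hh => hl (by rw [← h2, ← hh, h1])
    have e4 : d ≠ G.mate d := fun hh => hl (by rw [← hh])
    have e5 : d ≠ G.mate d' := fun hh => hl (by rw [← h2, ← hh])
    rw [Finset.card_insert_of_notMem, Finset.card_insert_of_notMem, Finset.card_pair e1]
    · simp only [Finset.mem_insert, Finset.mem_singleton, not_or]
      exact ⟨e2, e3⟩
    · simp only [Finset.mem_insert, Finset.mem_singleton, not_or]
      exact ⟨h.symm, e4, e5⟩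
  rw [h5] at h4
  rw [hcard] at h3 h4
  omega

/-- No triangles: `d, d'` two darts at `v`; no dart at the other end of `d` leads to the other end of `d'`. -/
theorem no_tri {G : Gr V} (hG : G.Ok) (hc : G.Cyc) (h6 : 6 ≤ G.A.card) (d d' k : V × Fin 3) (hd : d.1 ∈ G.A)
    (h : d' ≠ d) (h1 : d'.1 = d.1) (hk : k.1 = (G.mate d).1) : (G.mate k).1 ≠ (G.mate d').1 := by
  intro h2
  have hd' : d'.1 ∈ G.A := by rw [h1]; exact hd
  have hkA : k.1 ∈ G.A := by rw [hk]; exact hG.mem d hd
  have hl := no_loop hG hc h6 d hd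
  have hl' := no_loop hG hc h6 d' hd'
  rw [h1] at hl'
  have hp := no_par hG hc h6 d d' hd h h1
  have hX : ({d.1, (G.mate d).1, (G.mate d').1} : Finset V) ⊆ G.A := by
    intro x hx
    simp only [Finset.mem_insert, Finset.mem_singleton] at hx
    rcases hx with rfl | rfl | rfl
    · exact hd
    · exact hG.mem d hd
    · exact hG.mem d' hd'
  have hcard : ({d.1, (G.mate d).1, (G.mate d').1} : Finset V).card = 3 := by
    rw [Finset.card_insert_of_notMem, Finset.card_pair hp.symm]
    simp only [Finset.mem_insert, Finset.mem_singleton, not_or]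
    exact ⟨hl.symm, hl'.symm⟩
  have h3 := small_cut hG hc h6 {d.1, (G.mate d).1, (G.mate d').1} hX (by simp) (by omega)
  have h4 := sm_cut_le (G := G) {d.1, (G.mate d).1, (G.mate d').1}
      ({d, d'} ∪ ({G.mate d, k} ∪ {G.mate d', G.mate k})) (by
    intro e he
    simp only [Finset.mem_union, Finset.mem_insert, Finset.mem_singleton] at he ⊢
    rcases he with (rfl | rfl) | (rfl | rfl) | (rfl | rfl)
    · exact ⟨Or.inl rfl, Or.inr (Or.inl rfl)⟩
    · exact ⟨Or.inl h1, Or.inr (Or.inr rfl)⟩
    · rw [hG.inv d hd]; exact ⟨Or.inr (Or.inl rfl), Or.inl rfl⟩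
    · exact ⟨Or.inr (Or.inl hk), Or.inr (Or.inr h2)⟩
    · rw [hG.inv d' hd']; exact ⟨Or.inr (Or.inr rfl), Or.inl h1⟩
    · rw [hG.inv k hkA]; exact ⟨Or.inr (Or.inr h2), Or.inr (Or.inl hk)⟩)
  have h5 : ({d, d'} ∪ ({G.mate d, k} ∪ {G.mate d', G.mate k}) : Finset (V × Fin 3)).card = 6 := by
    have e1 : G.mate d ≠ k := fun hh => hl' (by rw [← h2, ← hh, hG.inv d hd])
    have e2 : G.mate d' ≠ G.mate k := fun hh => by
      have : d' = k := by rw [← hG.inv d' hd', hh, hG.inv k hkA]
      exact hl (by rw [← hk, ← this, h1])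
    have q1 : Disjoint ({G.mate d, k} : Finset (V × Fin 3)) {G.mate d', G.mate k} := by
      rw [Finset.disjoint_left]
      intro e he he'
      simp only [Finset.mem_insert, Finset.mem_singleton] at he he'
      have a : e.1 = (G.mate d).1 := by rcases he with rfl | rfl; exacts [rfl, hk]
      have b : e.1 = (G.mate d').1 := by rcases he' with rfl | rfl; exacts [rfl, h2]
      exact hp (by rw [← b, a])
    have q2 : Disjoint ({d, d'} : Finset (V × Fin 3)) ({G.mate d, k} ∪ {G.mate d', G.mate k}) := by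
      rw [Finset.disjoint_left]
      intro e he he'
      simp only [Finset.mem_insert, Finset.mem_singleton, Finset.mem_union] at he he'
      have a : e.1 = d.1 := by rcases he with rfl | rfl; exacts [rfl, h1]
      rcases he' with (rfl | rfl) | (rfl | rfl)
      · exact hl a
      · exact hl (by rw [← hk, a])
      · exact hl' a
      · exact hl' (by rw [← h2, a])
    rw [Finset.card_union_of_disjoint q2, Finset.card_union_of_disjoint q1, Finset.card_pair h.symm,
      Finset.card_pair e1, Finset.card_pair e2]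
  rw [h5] at h4
  rw [hcard] at h3 h4
  omega

end Pool.Agent.Lib.MP_1dc4d0_coA6
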