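import Pool.Agent.Lib.MP_1dc4d0_coA6.TNuse
import Pool.Agent.Lib.MP_1dc4d0_coA6.EvenSub
import Pool.Agent.Lib.MP_1dc4d0_coA6.Small

set_option autoImplicit false

namespace Pool.Agent.Lib.MP_1dc4d0_coA6

open Finset

variable {V : Type} [DecidableEq V]

/-- If `F` and `F'` agree outside the blob `c ∪ Y`, a matching that is good for `F'` is good for `F`. -/
theorem toolZ_transfer {G : Gr V} {F F' : Finset (V × Fin 3)} (hG : G.Ok) (hF : G.Join F) (hc : G.Cyc)
    (h6 : 6 ≤ G.A.card) (c Y : Finset V) (hca : Atom G F c) (hYA : Y ⊆ G.A) (hY3 : Y.card ≤ 3)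
    (hdir : ((G.cut Y).filter (fun d => (G.mate d).1 ∉ c)).card ≤ 1)
    (hag : ∀ d : V × Fin 3, d.1 ∈ G.A → d.1 ∉ c → d.1 ∉ Y → (d ∈ F ↔ d ∈ F'))
    (M : Finset (V × Fin 3)) (hM : G.PM M) (hgood : G.Good F' M) : G.Good F M := by
  have core : ∀ X ⊆ G.A, (∀ d ∈ G.cut X, d ∈ F ∧ d ∈ M) → Disjoint c X → Even X.card := by
    intro X hX hcut hdis
    have hK : X ∩ Y = ∅ := by
      by_contra hne
      have hne' : (X ∩ Y).Nonempty := Finset.nonempty_iff_ne_empty.2 hne
      have hKA : X ∩ Y ⊆ G.A := fun v hv => hX (Finset.mem_inter.1 hv).1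
      have hK3 : (X ∩ Y).card ≤ 3 := (Finset.card_le_card Finset.inter_subset_right).trans hY3
      have h1 := small_cut hG hc h6 (X ∩ Y) hKA hne' hK3
      have h2 : G.cut (X ∩ Y) ⊆ ((G.cut Y).filter (fun d => (G.mate d).1 ∉ c)) ∪
          (((X ∩ Y) ×ˢ (Finset.univ : Finset (Fin 3))).filter (fun d => d ∈ M)) := by
        intro d hd
        rw [mem_cut] at hd
        obtain ⟨hd1, hd2⟩ := hd
        rw [Finset.mem_inter] at hd1
        rw [Finset.mem_union]
        by_cases hX' : (G.mate d).1 ∈ X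
        · left
          rw [Finset.mem_filter, mem_cut]
          refine ⟨⟨hd1.2, fun hh => hd2 (Finset.mem_inter.2 ⟨hX', hh⟩)⟩, ?_⟩
          exact fun hh => (Finset.disjoint_left.1 hdis) hh hX'
        · right
          rw [Finset.mem_filter, Finset.mem_product]
          refine ⟨⟨Finset.mem_inter.2 hd1, Finset.mem_univ _⟩, ?_⟩
          exact (hcut d ((mem_cut G X d).2 ⟨hd1.1, hX'⟩)).2
      have h3 : (((X ∩ Y) ×ˢ (Finset.univ : Finset (Fin 3))).filter (fun d => d ∈ M)).card
          = (X ∩ Y).card := by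
        rw [Finset.card_filter, Finset.sum_product, Finset.card_eq_sum_ones]
        refine Finset.sum_congr rfl fun v hv => ?_
        have hd1 := hM.2 v (hKA hv)
        rw [deg, Finset.card_filter] at hd1
        exact hd1
      have h4 := (Finset.card_le_card h2).trans (Finset.card_union_le _ _)
      omega
    apply hgood X hX
    intro d hd
    have hd' := (mem_cut G X d).1 hd
    have hY' : d.1 ∉ Y := fun hh => by
      have : d.1 ∈ X ∩ Y := Finset.mem_inter.2 ⟨hd'.1, hh⟩
      rw [hK] at this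
      exact absurd this (Finset.notMem_empty _)
    have hc' : d.1 ∉ c := fun hh => (Finset.disjoint_left.1 hdis) hh hd'.1
    exact ⟨(hag d (hX hd'.1) hc' hY').1 (hcut d hd).1, (hcut d hd).2⟩
  intro X hX hcut
  rcases hca.atom X hX (fun d hd => (hcut d hd).1) with h | h
  · apply good_compl G hG X hX
    apply core (G.A \ X) Finset.sdiff_subset
    · intro d hd
      rw [mem_cut] at hd
      rw [Finset.mem_sdiff] at hd
      have hdA := hd.1.1
      have hmA := hG.mem d hdA
      have hmX : (G.mate d).1 ∈ X := by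
        by_contra hh
        exact hd.2 (Finset.mem_sdiff.2 ⟨hmA, hh⟩)
      have := hcut (G.mate d) ((mem_cut G X _).2 ⟨hmX, by rw [hG.inv d hdA]; exact hd.1.2⟩)
      exact ⟨(hF.1 d hdA).2 this.1, (hM.1 d hdA).2 this.2⟩
    · rw [Finset.disjoint_left]
      intro v hv hv'
      exact (Finset.mem_sdiff.1 hv').2 (h hv)
  · exact core X hX hcut h

/-- A union of components for `F'` has an even number of vertices in `c`. -/
theorem toolZ_even_c {G : Gr V} {F F' N : Finset (V × Fin 3)} {c : Finset V} (hG : G.Ok)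
    (hF : G.Join F) (hN : NData G F c N)
    (hQN : ∀ d ∈ F', d.1 ∈ c → d ∈ F ∨ d ∈ N) (X : Finset V) (hX : G.CC F' X) : Even (X ∩ c).card := by
  have hcard : ((((X ∩ c) ×ˢ (Finset.univ : Finset (Fin 3))).filter (fun d => d ∉ F ∧ d ∉ N))).card
      = (X ∩ c).card := by
    rw [Finset.card_filter, Finset.sum_product, Finset.card_eq_sum_ones]
    refine Finset.sum_congr rfl fun v hv => ?_
    have hvc := (Finset.mem_inter.1 hv).2
    have h1 := hN.oneF v hvc
    have h2 := hN.oneN v hvc
    rw [deg, Finset.card_eq_one] at h1 h2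
    obtain ⟨i, hi⟩ := h1
    obtain ⟨j, hj⟩ := h2
    have hiF : ∀ k : Fin 3, (v, k) ∈ F ↔ k = i := by
      intro k
      have : k ∈ Finset.univ.filter (fun i : Fin 3 => (v, i) ∈ F) ↔ k ∈ ({i} : Finset (Fin 3)) := by rw [hi]
      simpa using this
    have hjN : ∀ k : Fin 3, (v, k) ∈ N ↔ k = j := by
      intro k
      have : k ∈ Finset.univ.filter (fun i : Fin 3 => (v, i) ∈ N) ↔ k ∈ ({j} : Finset (Fin 3)) := by rw [hj]
      simpa using this
    have hij : i ≠ j := by
      intro hh
      have hm := (hN.mem (v, j) ((hjN j).2 rfl)).2.1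
      exact hm ((hiF j).2 hh.symm)
    rw [← Finset.card_filter]
    have : (Finset.univ.filter (fun k : Fin 3 => (v, k) ∉ F ∧ (v, k) ∉ N))
        = Finset.univ.filter (fun k : Fin 3 => k ≠ i ∧ k ≠ j) := by
      ext k
      simp [hiF, hjN]
    rw [this]
    have key : ∀ i j : Fin 3, i ≠ j → (Finset.univ.filter (fun k : Fin 3 => k ≠ i ∧ k ≠ j)).card = 1 := by
      decide
    exact key i j hij
  have heven : Even ((((X ∩ c) ×ˢ (Finset.univ : Finset (Fin 3))).filter
      (fun d => d ∉ F ∧ d ∉ N))).card := by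
    have : ((((((X ∩ c) ×ˢ (Finset.univ : Finset (Fin 3))).filter (fun d => d ∉ F ∧ d ∉ N))).card : ℕ) :
        ZMod 2) = 0 := by
      rw [Finset.card_eq_sum_ones, Nat.cast_sum]
      refine Finset.sum_involution (fun d _ => G.mate d) ?_ ?_ ?_ ?_
      · intro d hd; decide
      · intro d hd _
        simp only [Finset.mem_filter, Finset.mem_product, Finset.mem_inter, Finset.mem_univ, and_true] at hd
        exact hG.ne d (hN.sub hd.1.2)
      · intro d hd
        simp only [Finset.mem_filter, Finset.mem_product, Finset.mem_inter, Finset.mem_univ, and_true] at hd ⊢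
        have hdA := hN.sub hd.1.2
        have hmF : G.mate d ∉ F := fun hh => hd.2.1 ((hF.1 d hdA).2 hh)
        refine ⟨⟨?_, ?_⟩, hmF, ?_⟩
        · by_contra hh
          have : d ∈ F' := hX.2 d ((mem_cut G X d).2 ⟨hd.1.1, hh⟩)
          rcases hQN d this hd.1.2 with h | h
          · exact hd.2.1 h
          · exact hd.2.2 h
        · by_contra hh
          exact hd.2.1 (hN.cc d ((mem_cut G c d).2 ⟨hd.1.2, hh⟩))
        · intro hh
          have := (hN.mem _ hh).2.2
          rw [hG.inv d hdA] at this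
          exact hd.2.2 this
      · intro d hd
        simp only [Finset.mem_filter, Finset.mem_product, Finset.mem_inter, Finset.mem_univ, and_true] at hd
        exact hG.inv d (hN.sub hd.1.2)
    exact (ZMod.natCast_eq_zero_iff_even).1 this
  rw [hcard] at heven
  exact heven

theorem toolZ_odd {G : Gr V} {F F' N : Finset (V × Fin 3)} {c Y : Finset V} (hG : G.Ok)
    (hF : G.Join F) (hN : NData G F c N) (hY : Y ⊆ G.V3 F)
    (hQN : ∀ d ∈ F', d.1 ∈ c → d ∈ F ∨ d ∈ N)
    (hag : ∀ d : V × Fin 3, d.1 ∈ G.A → d.1 ∉ c → d.1 ∉ Y → (d ∈ F ↔ d ∈ F'))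
    (X : Finset V) (hX : G.CC F' X) (hodd : Odd X.card) :
    ∃ W : Finset V, W ⊆ X ∧ G.CC F W ∧ Odd W.card := by
  have hYF : ∀ d : V × Fin 3, d.1 ∈ Y → d ∈ F := by
    intro d hd
    have := (Finset.mem_filter.1 (hY hd)).2 d.2
    exact this
  have hYA : Y ⊆ G.A := fun v hv => (Finset.mem_filter.1 (hY hv)).1
  by_cases h1 : Odd (X \ (c ∪ Y)).card
  · refine ⟨X \ (c ∪ Y), Finset.sdiff_subset, ⟨fun v hv => hX.1 (Finset.mem_sdiff.1 hv).1, ?_⟩, h1⟩
    intro d hd
    rw [mem_cut, Finset.mem_sdiff, Finset.mem_union, not_or] at hd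
    obtain ⟨⟨hd1, hd2, hd3⟩, hd4⟩ := hd
    have hdA := hX.1 hd1
    rw [Finset.mem_sdiff, not_and_or, not_not, Finset.mem_union] at hd4
    rcases hd4 with hd4 | hd4 | hd4
    · exact (hag d hdA hd2 hd3).2 (hX.2 d ((mem_cut G X d).2 ⟨hd1, hd4⟩))
    · apply (hF.1 d hdA).2
      exact hN.cc _ ((mem_cut G c _).2 ⟨hd4, by rw [hG.inv d hdA]; exact hd2⟩)
    · apply (hF.1 d hdA).2
      exact hYF _ hd4
  · have hev := toolZ_even_c hG hF hN hQN X hX
    have hne : (X ∩ Y).Nonempty := by
      by_contra hcon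
      rw [Finset.not_nonempty_iff_eq_empty] at hcon
      have hXeq : X = (X \ (c ∪ Y)) ∪ (X ∩ c) := by
        ext v
        simp only [Finset.mem_union, Finset.mem_sdiff, Finset.mem_inter]
        constructor
        · intro hv
          by_cases hvc : v ∈ c
          · right; exact ⟨hv, hvc⟩
          · left
            refine ⟨hv, ?_⟩
            rintro (h | h)
            · exact hvc h
            · have : v ∈ X ∩ Y := Finset.mem_inter.2 ⟨hv, h⟩
              rw [hcon] at this
              exact absurd this (Finset.notMem_empty _)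
        · rintro (h | h)
          · exact h.1
          · exact h.1
      have hdis : Disjoint (X \ (c ∪ Y)) (X ∩ c) := by
        rw [Finset.disjoint_left]
        intro v hv hv'
        exact (Finset.mem_sdiff.1 hv).2 (Finset.mem_union_left _ (Finset.mem_inter.1 hv').2)
      rw [hXeq, Finset.card_union_of_disjoint hdis] at hodd
      rw [Nat.not_odd_iff_even] at h1
      rw [← Nat.not_even_iff_odd] at hodd
      exact hodd (h1.add hev)
    obtain ⟨v, hv⟩ := hne
    rw [Finset.mem_inter] at hv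
    refine ⟨{v}, Finset.singleton_subset_iff.2 hv.1, ⟨Finset.singleton_subset_iff.2 (hX.1 hv.1), ?_⟩, by simp⟩
    intro d hd
    rw [mem_cut, Finset.mem_singleton] at hd
    exact hYF d (by rw [hd.1]; exact hv.2)

/-- The change of `F` inside the blob `c ∪ Y`. -/
theorem toolZ {G : Gr V} {F : Finset (V × Fin 3)} (hI : G.Inst F) (hc : G.Cyc) (h6 : 6 ≤ G.A.card)
    (c Y : Finset V) (hca : Atom G F c) (hb : Blocked G F c Y) (hY : Y ⊆ G.V3 F) (hY3 : Y.card ≤ 3) :
    ∃ F' : Finset (V × Fin 3), G.Inst F' ∧ (G.V3 F').card < (G.V3 F).card ∧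
      ∀ M, G.PM M → G.Good F' M → G.Good F M := by
  have hdir := blocked_direct hI.ok hb
  obtain ⟨N, G', hN, hT, hYs, h1⟩ := hb
  have hYA : Y ⊆ G.A := fun v hv => (Finset.mem_sdiff.1 (hYs hv)).1
  have hYF : ∀ d : V × Fin 3, d.1 ∈ Y → d ∈ F := fun d hd => (Finset.mem_filter.1 (hY hd)).2 d.2
  obtain ⟨Z, hZne, hZc, hZY, hZe⟩ := ex_even hT.ok Y (by rw [hT.hA]; exact hYs) h1
  let P : Finset (V × Fin 3) := ((G.A \ c) ×ˢ (Finset.univ : Finset (Fin 3))).filter
    (fun d => ¬ (d ∈ F ↔ d ∈ Z))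
  have hPmem : ∀ d : V × Fin 3, d ∈ P ↔ d.1 ∈ G.A \ c ∧ ¬ (d ∈ F ↔ d ∈ Z) := by
    intro d
    simp only [P, Finset.mem_filter, Finset.mem_product, Finset.mem_univ, and_true]
  have hPc : G'.Closed P := by
    intro d hd
    rw [hPmem, hPmem, ← hT.hA, hT.join.1 d hd, hZc d hd]
    have := hT.ok.mem d hd
    tauto
  obtain ⟨Q, hQc, hQo, hQ1, hQN, -⟩ := hT.lift P hPc
  have hQo' : ∀ d : V × Fin 3, d.1 ∈ G.A → d.1 ∉ c → (d ∈ Q ↔ ¬ (d ∈ F ↔ d ∈ Z)) := by
    intro d hd hdc
    have hm : d.1 ∈ G.A \ c := Finset.mem_sdiff.2 ⟨hd, hdc⟩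
    rw [hQo d hm, hPmem]
    tauto
  have hag : ∀ d : V × Fin 3, d.1 ∈ G.A → d.1 ∉ c → d.1 ∉ Y → (d ∈ F ↔ d ∈ Q) := by
    intro d hd hdc hdY
    have hZ' : d ∉ Z := fun hh => hdY (hZY d hh)
    rw [hQo' d hd hdc]
    tauto
  have hYQ : ∀ d : V × Fin 3, d.1 ∈ Y → (d ∈ Q ↔ d ∉ Z) := by
    intro d hd
    have hm := Finset.mem_sdiff.1 (hYs hd)
    rw [hQo' d hm.1 hm.2]
    have := hYF d hd
    tauto
  have hjoin : G.Join Q := by
    refine ⟨hQc, fun v hv => ?_⟩
    by_cases hvc : v ∈ c
    · rw [hQ1 v hvc]; exact odd_one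
    · by_cases hvY : v ∈ Y
      · have h3 : deg Q v + deg Z v = 3 := by
          have : (Finset.univ.filter (fun i : Fin 3 => (v, i) ∈ Q)) =
              (Finset.univ.filter (fun i : Fin 3 => ¬ (v, i) ∈ Z)) := by
            ext i
            simp only [Finset.mem_filter, Finset.mem_univ, true_and]
            exact hYQ (v, i) hvY
          rw [deg, deg, this, add_comm, Finset.card_filter_add_card_filter_not]
          simp
        have := hZe v hvY
        rw [Nat.even_iff] at this
        rw [Nat.odd_iff]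
        omega
      · have : deg Q v = deg F v := by
          rw [deg, deg]
          congr 1
          ext i
          simp only [Finset.mem_filter, Finset.mem_univ, true_and]
          exact (hag (v, i) hv hvc hvY).symm
        rw [this]
        exact hI.join.2 v hv
  have hfew : G.Few Q := by
    intro f hf hodd
    choose W hW1 hW2 hW3 using fun i => toolZ_odd hI.ok hI.join hN hY hQN hag (f i) (hf i) (hodd i)
    obtain ⟨i, j, hij, hd⟩ := hI.few W hW2 hW3
    exact ⟨i, j, hij, fun hh => hd (Finset.disjoint_of_subset_left (hW1 i)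
      (Finset.disjoint_of_subset_right (hW1 j) hh))⟩
  refine ⟨Q, ⟨hI.ok, hI.br, hjoin, hfew⟩, ?_, ?_⟩
  · apply Finset.card_lt_card
    rw [Finset.ssubset_iff_of_subset]
    · obtain ⟨d, hd⟩ := hZne
      refine ⟨d.1, hY (hZY d hd), ?_⟩
      intro hh
      have := (Finset.mem_filter.1 hh).2 d.2
      exact (hYQ d (hZY d hd)).1 this hd
    · intro v hv
      have hvA := (Finset.mem_filter.1 hv).1
      have hv3 := (Finset.mem_filter.1 hv).2
      have hvc : v ∉ c := by
        intro hh
        have := hQ1 v hh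
        have h3 : deg Q v = 3 := by
          rw [deg, Finset.filter_true_of_mem (fun i _ => hv3 i)]
          simp
        omega
      by_cases hvY : v ∈ Y
      · exact hY hvY
      · refine Finset.mem_filter.2 ⟨hvA, fun i => ?_⟩
        exact (hag (v, i) hvA hvc hvY).2 (hv3 i)
  · intro M hM hg
    exact toolZ_transfer hI.ok hI.join hc h6 c Y hca hYA hY3 hdir hag M hM hg

end Pool.Agent.Lib.MP_1dc4d0_coA6
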