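import Pool.Agent.Lib.MP_1dc4d0_coA6.Uncross
import Pool.Agent.Lib.MP_1dc4d0_coA6.ToolZ
import Pool.Agent.Lib.MP_1dc4d0_coA6.Base
import Pool.Agent.Lib.MP_1dc4d0_coA6.Cut0
import Pool.Agent.Lib.MP_1dc4d0_coA6.Cut2
import Pool.Agent.Lib.MP_1dc4d0_coA6.Cut3

set_option autoImplicit false

namespace Pool.Agent.Lib.MP_1dc4d0_coA6

open Finset

variable {V : Type} [DecidableEq V]

theorem main_cyc {G : Gr V} {F : Finset (V × Fin 3)} (hI : G.Inst F) (ih : IH V G.A.card)
    (d : V × Fin 3) (hd : d.1 ∈ G.A) (hn : ¬ G.Star F d) : G.Cyc := by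
  intro X hX hne hne'
  have c0 : (G.cut X).card ≠ 0 := fun h => hn (cut0 hI ih X hX hne hne' h d hd)
  have c1 : (G.cut X).card ≠ 1 := hI.br X hX
  have c2 : (G.cut X).card ≠ 2 := fun h => hn (cut2 hI ih X hX h d hd)
  refine ⟨by omega, fun h3 => ?_⟩
  by_contra hcon
  push Not at hcon
  have p1 : 0 < X.card := Finset.card_pos.2 hne
  have p2 : 0 < (G.A \ X).card := by
    rw [Finset.card_pos, Finset.sdiff_nonempty]
    exact fun h => hne' (Finset.Subset.antisymm hX h)
  have := hcon.1
  have := hcon.2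
  exact hn (cut3 hI ih X hX h3 (by omega) (by omega) d hd)

theorem main_aux (n : ℕ) : ∀ (G : Gr V) (F : Finset (V × Fin 3)), G.Inst F → G.A.card = n →
    ∀ d : V × Fin 3, d.1 ∈ G.A → G.Star F d := by
  induction n using Nat.strong_induction_on with
  | _ n ih =>
    intro G F hI hn d hd
    have ih' : IH V G.A.card := fun G' F' hI' hlt d' hd' =>
      ih G'.A.card (hn ▸ hlt) G' F' hI' rfl d' hd'
    generalize hk : (G.V3 F).card = k
    induction k using Nat.strong_induction_on generalizing F with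
    | _ k ihk =>
      by_contra hns
      have hc := main_cyc hI ih' d hd hns
      by_cases h4 : G.A.card < 6
      · exact hns (base4 hI hc h4 d hd)
      by_cases h6 : G.A.card = 6
      · exact hns (base6 hI hc h6 d hd)
      have h6' : 6 ≤ G.A.card := by omega
      have hA : G.V3 F ≠ G.A := by
        intro h
        have := v3_le hI
        rw [h] at this
        omega
      obtain ⟨c, Y, hca, hb, hY, hY3⟩ := ex_small_blocked hI hc h6' ih' d hd hns hA
      obtain ⟨F', hI', hlt, hG⟩ := toolZ hI hc h6' c Y hca hb hY hY3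
      obtain ⟨M, hM, hdM, hgood⟩ := ihk _ (hk ▸ hlt) F' hI' rfl
      exact hns ⟨M, hM, hdM, hG M hM hgood⟩

theorem main_dart (G : Gr V) (F : Finset (V × Fin 3)) (hI : G.Inst F) (d : V × Fin 3) (hd : d.1 ∈ G.A) :
    G.Star F d := main_aux G.A.card G F hI rfl d hd

end Pool.Agent.Lib.MP_1dc4d0_coA6
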