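import Pool.Agent.Lib.MP_1dc4d0_coA6.Pop

set_option autoImplicit false

namespace Pool.Agent.Lib.MP_1dc4d0_coA6

open Finset

variable {V : Type} [DecidableEq V]

/-- `N` is a perfect matching of `c` by edges outside `F`; `c` is a union of circuits of `(V, E - F)`. -/
structure NData (G : Gr V) (F : Finset (V × Fin 3)) (c : Finset V) (N : Finset (V × Fin 3)) : Prop where
  sub : c ⊆ G.A
  cc : ∀ d ∈ G.cut c, d ∈ F
  oneF : ∀ v ∈ c, deg F v = 1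
  oneN : ∀ v ∈ c, deg N v = 1
  mem : ∀ d ∈ N, d.1 ∈ c ∧ d ∉ F ∧ G.mate d ∈ N

/-- `G'` is obtained from `G` by total splitting of `c` along `N`. -/
structure TN (G : Gr V) (F : Finset (V × Fin 3)) (c : Finset V) (N : Finset (V × Fin 3)) (G' : Gr V) : Prop where
  hA : G'.A = G.A \ c
  ok : G'.Ok
  join : G'.Join F
  same : ∀ d : V × Fin 3, d.1 ∈ G.A \ c → (G.mate d).1 ∉ c → G'.mate d = G.mate d
  lift : ∀ P : Finset (V × Fin 3), G'.Closed P → ∃ Q : Finset (V × Fin 3), G.Closed Q ∧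
    (∀ d : V × Fin 3, d.1 ∈ G.A \ c → (d ∈ Q ↔ d ∈ P)) ∧ (∀ v ∈ c, deg Q v = 1) ∧
    (∀ d ∈ Q, d.1 ∈ c → d ∈ F ∨ d ∈ N) ∧ (G'.Good F P → G.Good F Q)

/-- `(c, Y)` is blocked: for some perfect matching `N` of `c`, `Y` is one side of a bridge of `G'`. -/
def Blocked (G : Gr V) (F : Finset (V × Fin 3)) (c Y : Finset V) : Prop :=
  ∃ (N : Finset (V × Fin 3)) (G' : Gr V), NData G F c N ∧ TN G F c N G' ∧ Y ⊆ G.A \ c ∧ (G'.cut Y).card = 1

/-- A circuit of `(V, E - F)`. -/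
structure Atom (G : Gr V) (F : Finset (V × Fin 3)) (c : Finset V) : Prop where
  ne : c.Nonempty
  sub : c ⊆ G.A
  cc : ∀ d ∈ G.cut c, d ∈ F
  oneF : ∀ v ∈ c, deg F v = 1
  atom : ∀ X ⊆ G.A, (∀ d ∈ G.cut X, d ∈ F) → c ⊆ X ∨ Disjoint c X

end Pool.Agent.Lib.MP_1dc4d0_coA6
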