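import Pool.Agent.Lib.MP_1dc4d0_coA6.Small

set_option autoImplicit false

namespace Pool.Agent.Lib.MP_1dc4d0_coA6

open Finset

variable {V : Type} [DecidableEq V]

private theorem popBr_four {α : Type} [DecidableEq α] {a b c e : α} (h1 : a ≠ b) (h2 : a ≠ c)
    (h3 : a ≠ e) (h4 : b ≠ c) (h5 : b ≠ e) (h6 : c ≠ e) (P : α → Prop) [DecidablePred P] :
    (({a, b, c, e} : Finset α).filter P).card = (if P a then 1 else 0) + (if P b then 1 else 0) +
      (if P c then 1 else 0) + (if P e then 1 else 0) := by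
  rw [Finset.card_filter, Finset.sum_insert (by simp [h1, h2, h3]),
    Finset.sum_insert (by simp [h4, h5]), Finset.sum_pair h6]
  ring

theorem pop_bridgeless {G : Gr V} {F : Finset (V × Fin 3)} {g rx fx ry fy : V × Fin 3} (hG : G.Ok)
    (hF : G.Join F) (hc : G.Cyc) (h6 : 6 ≤ G.A.card) (hp : PopD G F g rx fx ry fy) :
    (G.pop g rx fx ry fy).Bridgeless := by
  classical
  intro Y hYA hY1
  -- basic facts
  have hgA := hp.gA
  have hyA : (G.mate g).1 ∈ G.A := hG.mem g hgA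
  have hfxA : fx.1 ∈ G.A := by rw [hp.fx1]; exact hgA
  have hrxA : rx.1 ∈ G.A := by rw [hp.rx1]; exact hgA
  have hfyA : fy.1 ∈ G.A := by rw [hp.fy1]; exact hyA
  have hryA : ry.1 ∈ G.A := by rw [hp.ry1]; exact hyA
  have hgfx : fx ≠ g := fun h => hp.gF (h ▸ hp.fxF)
  have hmgF : G.mate g ∉ F := fun h => hp.gF ((hF.1 g hgA).2 h)
  have hmgfy : fy ≠ G.mate g := fun h => hmgF (h ▸ hp.fyF)
  have hfrx : rx ≠ fx := fun h => hp.rxF (h ▸ hp.fxF)
  have hfry : ry ≠ fy := fun h => hp.ryF (h ▸ hp.fyF)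
  have hmm : G.mate (G.mate g) = g := hG.inv g hgA
  -- the outer ends
  have hax : (G.mate fx).1 ≠ g.1 := by
    have := no_loop hG hc h6 fx hfxA
    rwa [hp.fx1] at this
  have hay : (G.mate fx).1 ≠ (G.mate g).1 := no_par hG hc h6 g fx hgA hgfx hp.fx1
  have hcx : (G.mate rx).1 ≠ g.1 := by
    have := no_loop hG hc h6 rx hrxA
    rwa [hp.rx1] at this
  have hcy : (G.mate rx).1 ≠ (G.mate g).1 := no_par hG hc h6 g rx hgA hp.grx.symm hp.rx1
  have hby : (G.mate fy).1 ≠ (G.mate g).1 := by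
    have := no_loop hG hc h6 fy hfyA
    rwa [hp.fy1] at this
  have hbx : (G.mate fy).1 ≠ g.1 := by
    have := no_par hG hc h6 (G.mate g) fy hyA hmgfy hp.fy1
    rwa [hmm] at this
  have hey : (G.mate ry).1 ≠ (G.mate g).1 := by
    have := no_loop hG hc h6 ry hryA
    rwa [hp.ry1] at this
  have hex : (G.mate ry).1 ≠ g.1 := by
    have := no_par hG hc h6 (G.mate g) ry hyA hp.gry.symm hp.ry1
    rwa [hmm] at this
  have hba : (G.mate fy).1 ≠ (G.mate fx).1 := no_tri hG hc h6 g fx fy hgA hgfx hp.fx1 hp.fy1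
  have hea : (G.mate ry).1 ≠ (G.mate fx).1 := no_tri hG hc h6 g fx ry hgA hgfx hp.fx1 hp.ry1
  have hbc : (G.mate fy).1 ≠ (G.mate rx).1 :=
    no_tri hG hc h6 g rx fy hgA hp.grx.symm hp.rx1 hp.fy1
  have hec : (G.mate ry).1 ≠ (G.mate rx).1 :=
    no_tri hG hc h6 g rx ry hgA hp.grx.symm hp.rx1 hp.ry1
  have hca : (G.mate rx).1 ≠ (G.mate fx).1 :=
    no_par hG hc h6 fx rx hfxA hfrx (hp.rx1.trans hp.fx1.symm)
  have heb : (G.mate ry).1 ≠ (G.mate fy).1 :=
    no_par hG hc h6 fy ry hfyA hfry (hp.ry1.trans hp.fy1.symm)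
  obtain ⟨a, ha⟩ : ∃ a, a = G.mate fx := ⟨_, rfl⟩
  obtain ⟨b, hb⟩ : ∃ b, b = G.mate fy := ⟨_, rfl⟩
  obtain ⟨c, hc'⟩ : ∃ c, c = G.mate rx := ⟨_, rfl⟩
  obtain ⟨e, he⟩ : ∃ e, e = G.mate ry := ⟨_, rfl⟩
  have hma : G.mate a = fx := by rw [ha]; exact hG.inv fx hfxA
  have hmb : G.mate b = fy := by rw [hb]; exact hG.inv fy hfyA
  have hmc : G.mate c = rx := by rw [hc']; exact hG.inv rx hrxA
  have hme : G.mate e = ry := by rw [he]; exact hG.inv ry hryA
  rw [← ha] at hax hay hba hea hca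
  rw [← hb] at hbx hby hba hbc heb
  rw [← hc'] at hcx hcy hbc hec hca
  rw [← he] at hex hey hea hec heb
  have hab : a ≠ b := fun h => hba (by rw [h])
  have hac : a ≠ c := fun h => hca (by rw [h])
  have hae : a ≠ e := fun h => hea (by rw [h])
  have hbc' : b ≠ c := fun h => hbc (by rw [h])
  have hbe : b ≠ e := fun h => heb (by rw [h])
  have hce : c ≠ e := fun h => hec (by rw [h])
  have haA : a.1 ∈ G.A := by rw [ha]; exact hG.mem fx hfxA
  have hbA : b.1 ∈ G.A := by rw [hb]; exact hG.mem fy hfyA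
  have hcA : c.1 ∈ G.A := by rw [hc']; exact hG.mem rx hrxA
  have heA : e.1 ∈ G.A := by rw [he]; exact hG.mem ry hryA
  have hYA' : ∀ v ∈ Y, v ∈ G.A ∧ v ≠ g.1 ∧ v ≠ (G.mate g).1 := by
    intro v hv
    have h1 := hYA hv
    change v ∈ (G.A.erase g.1).erase (G.mate g).1 at h1
    rw [Finset.mem_erase, Finset.mem_erase] at h1
    exact ⟨h1.2.2, h1.2.1, h1.1⟩
  have hYsub : Y ⊆ G.A := fun v hv => (hYA' v hv).1
  have hgY : g.1 ∉ Y := fun h => (hYA' _ h).2.1 rfl
  have hmY : (G.mate g).1 ∉ Y := fun h => (hYA' _ h).2.2 rfl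
  -- darts towards `x` and `y`
  have E1 : ∀ d : V × Fin 3, d.1 ∈ Y → (G.mate d).1 = g.1 → d = a ∨ d = c := by
    intro d hd h1
    have hdA := (hYA' _ hd).1
    rcases pop_all_x hp (G.mate d) h1 with h2 | h2 | h2
    · exfalso
      apply (hYA' _ hd).2.2
      rw [← h2, hG.inv d hdA]
    · right
      rw [hc', ← h2, hG.inv d hdA]
    · left
      rw [ha, ← h2, hG.inv d hdA]
  have E2 : ∀ d : V × Fin 3, d.1 ∈ Y → (G.mate d).1 = (G.mate g).1 → d = b ∨ d = e := by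
    intro d hd h1
    have hdA := (hYA' _ hd).1
    rcases pop_all_y hG hF.1 hp (G.mate d) h1 with h2 | h2 | h2
    · exfalso
      apply (hYA' _ hd).2.1
      rw [← hG.inv d hdA, h2, hmm]
    · right
      rw [he, ← h2, hG.inv d hdA]
    · left
      rw [hb, ← h2, hG.inv d hdA]
  obtain ⟨Q, hQ⟩ : ∃ Q : Finset (V × Fin 3), Q = {a, b, c, e} := ⟨_, rfl⟩
  have hQm : ∀ d, d ∈ Q ↔ d = a ∨ d = b ∨ d = c ∨ d = e := by
    intro d
    rw [hQ]
    simp
  -- the new mates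
  have hfxfy : fx ≠ fy := fun h => hab (by rw [ha, hb, h])
  have hfxrx : fx ≠ rx := hfrx.symm
  have hfxry : fx ≠ ry := fun h => hae (by rw [ha, he, h])
  have hfyrx : fy ≠ rx := fun h => hbc' (by rw [hb, hc', h])
  have hfyry : fy ≠ ry := hfry.symm
  have hrxry : rx ≠ ry := fun h => hce (by rw [hc', he, h])
  have hm0 : ∀ d : V × Fin 3, d.1 ∈ Y → d ∉ Q → (G.pop g rx fx ry fy).mate d = G.mate d := by
    intro d hd hdQ
    have hdA := (hYA' _ hd).1
    rw [hQm, not_or, not_or, not_or] at hdQ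
    have n1 : G.mate d ≠ fx := fun h => hdQ.1 (by rw [ha, ← h, hG.inv d hdA])
    have n2 : G.mate d ≠ fy := fun h => hdQ.2.1 (by rw [hb, ← h, hG.inv d hdA])
    have n3 : G.mate d ≠ rx := fun h => hdQ.2.2.1 (by rw [hc', ← h, hG.inv d hdA])
    have n4 : G.mate d ≠ ry := fun h => hdQ.2.2.2 (by rw [he, ← h, hG.inv d hdA])
    simp only [Gr.pop]
    rw [if_neg n1, if_neg n2, if_neg n3, if_neg n4]
  have hm1 : (G.pop g rx fx ry fy).mate a = b := by
    simp only [Gr.pop]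
    rw [if_pos hma, hb]
  have hm2 : (G.pop g rx fx ry fy).mate b = a := by
    simp only [Gr.pop]
    rw [hmb, if_neg hfxfy.symm, if_pos rfl, ha]
  have hm3 : (G.pop g rx fx ry fy).mate c = e := by
    simp only [Gr.pop]
    rw [hmc, if_neg hfxrx.symm, if_neg hfyrx.symm, if_pos rfl, he]
  have hm4 : (G.pop g rx fx ry fy).mate e = c := by
    simp only [Gr.pop]
    rw [hme, if_neg hfxry.symm, if_neg hfyry.symm, if_neg hrxry.symm, if_pos rfl, hc']
  -- the three counts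
  obtain ⟨O, hO⟩ : ∃ O : Finset (V × Fin 3), O = (G.cut Y).filter (fun d => d ∉ Q) := ⟨_, rfl⟩
  have hOm : ∀ d, d ∈ O ↔ (d.1 ∈ Y ∧ (G.mate d).1 ∉ Y) ∧ d ∉ Q := by
    intro d
    rw [hO, Finset.mem_filter, mem_cut]
  have c1 : (G.cut Y).card = O.card + ((if a.1 ∈ Y then 1 else 0) + (if b.1 ∈ Y then 1 else 0) +
      (if c.1 ∈ Y then 1 else 0) + (if e.1 ∈ Y then 1 else 0)) := by
    rw [← popBr_four hab hac hae hbc' hbe hce (fun d => d.1 ∈ Y), ← hQ]
    have h1 : Q.filter (fun d => d.1 ∈ Y) = (G.cut Y).filter (fun d => d ∈ Q) := by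
      ext d
      rw [Finset.mem_filter, Finset.mem_filter, mem_cut]
      constructor
      · rintro ⟨h2, h3⟩
        refine ⟨⟨h3, ?_⟩, h2⟩
        rw [hQm] at h2
        rcases h2 with rfl | rfl | rfl | rfl
        · rw [hma, hp.fx1]; exact hgY
        · rw [hmb, hp.fy1]; exact hmY
        · rw [hmc, hp.rx1]; exact hgY
        · rw [hme, hp.ry1]; exact hmY
      · rintro ⟨⟨h2, h3⟩, h4⟩
        exact ⟨h4, h2⟩
    rw [h1, hO, add_comm]
    exact (Finset.card_filter_add_card_filter_not (s := G.cut Y) (fun d => d ∈ Q)).symm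
  have c2 : ((G.pop g rx fx ry fy).cut Y).card = O.card +
      ((if a.1 ∈ Y ∧ b.1 ∉ Y then 1 else 0) + (if b.1 ∈ Y ∧ a.1 ∉ Y then 1 else 0) +
      (if c.1 ∈ Y ∧ e.1 ∉ Y then 1 else 0) + (if e.1 ∈ Y ∧ c.1 ∉ Y then 1 else 0)) := by
    have h0 := popBr_four hab hac hae hbc' hbe hce
      (fun d => d.1 ∈ Y ∧ ((G.pop g rx fx ry fy).mate d).1 ∉ Y)
    simp only [hm1, hm2, hm3, hm4] at h0
    rw [← h0, ← hQ]
    have h1 : Q.filter (fun d => d.1 ∈ Y ∧ ((G.pop g rx fx ry fy).mate d).1 ∉ Y) =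
        ((G.pop g rx fx ry fy).cut Y).filter (fun d => d ∈ Q) := by
      ext d
      rw [Finset.mem_filter, Finset.mem_filter, mem_cut]
      exact and_comm
    have h2 : O = ((G.pop g rx fx ry fy).cut Y).filter (fun d => d ∉ Q) := by
      ext d
      rw [hOm, Finset.mem_filter, mem_cut]
      constructor
      · rintro ⟨⟨h3, h4⟩, h5⟩
        refine ⟨⟨h3, ?_⟩, h5⟩
        rwa [hm0 d h3 h5]
      · rintro ⟨⟨h3, h4⟩, h5⟩
        refine ⟨⟨h3, ?_⟩, h5⟩
        rwa [hm0 d h3 h5] at h4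
    rw [h1, h2, add_comm]
    exact (Finset.card_filter_add_card_filter_not (s := (G.pop g rx fx ry fy).cut Y)
      (fun d => d ∈ Q)).symm
  obtain ⟨W, hW⟩ : ∃ W : Finset V, W = insert g.1 (insert (G.mate g).1 Y) := ⟨_, rfl⟩
  have hWm : ∀ v, v ∈ W ↔ v = g.1 ∨ v = (G.mate g).1 ∨ v ∈ Y := by
    intro v
    rw [hW]
    simp
  have hWA : W ⊆ G.A := by
    intro v hv
    rcases (hWm v).1 hv with rfl | rfl | h1
    · exact hgA
    · exact hyA
    · exact hYsub h1
  have c3 : (G.cut W).card = O.card + ((if a.1 ∉ Y then 1 else 0) + (if b.1 ∉ Y then 1 else 0) +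
      (if c.1 ∉ Y then 1 else 0) + (if e.1 ∉ Y then 1 else 0)) := by
    have haW : a.1 ∉ Y ↔ (G.mate fx).1 ∉ W := by
      rw [← ha, hWm, not_or, not_or]
      exact ⟨fun h => ⟨hax, hay, h⟩, fun h => h.2.2⟩
    have hbW : b.1 ∉ Y ↔ (G.mate fy).1 ∉ W := by
      rw [← hb, hWm, not_or, not_or]
      exact ⟨fun h => ⟨hbx, hby, h⟩, fun h => h.2.2⟩
    have hcW : c.1 ∉ Y ↔ (G.mate rx).1 ∉ W := by
      rw [← hc', hWm, not_or, not_or]
      exact ⟨fun h => ⟨hcx, hcy, h⟩, fun h => h.2.2⟩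
    have heW : e.1 ∉ Y ↔ (G.mate ry).1 ∉ W := by
      rw [← he, hWm, not_or, not_or]
      exact ⟨fun h => ⟨hex, hey, h⟩, fun h => h.2.2⟩
    have h0 := popBr_four hfxfy hfxrx hfxry hfyrx hfyry hrxry (fun d => (G.mate d).1 ∉ W)
    simp only [← haW, ← hbW, ← hcW, ← heW] at h0
    rw [← h0]
    obtain ⟨Q', hQ'⟩ : ∃ Q' : Finset (V × Fin 3), Q' = {fx, fy, rx, ry} := ⟨_, rfl⟩
    have hQm' : ∀ d, d ∈ Q' ↔ d = fx ∨ d = fy ∨ d = rx ∨ d = ry := by
      intro d
      rw [hQ']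
      simp
    rw [← hQ']
    have h1 : Q'.filter (fun d => (G.mate d).1 ∉ W) = (G.cut W).filter (fun d => d ∈ Q') := by
      ext d
      rw [Finset.mem_filter, Finset.mem_filter, mem_cut]
      constructor
      · rintro ⟨h2, h3⟩
        refine ⟨⟨?_, h3⟩, h2⟩
        rw [hQm'] at h2
        rw [hWm]
        rcases h2 with rfl | rfl | rfl | rfl
        · exact Or.inl hp.fx1
        · exact Or.inr (Or.inl hp.fy1)
        · exact Or.inl hp.rx1
        · exact Or.inr (Or.inl hp.ry1)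
      · rintro ⟨⟨h2, h3⟩, h4⟩
        exact ⟨h4, h3⟩
    have h2 : O = (G.cut W).filter (fun d => d ∉ Q') := by
      ext d
      rw [hOm, Finset.mem_filter, mem_cut]
      constructor
      · rintro ⟨⟨h3, h4⟩, h5⟩
        refine ⟨⟨(hWm _).2 (Or.inr (Or.inr h3)), ?_⟩, ?_⟩
        · rw [hWm, not_or, not_or]
          rw [hQm] at h5
          refine ⟨fun h6 => ?_, fun h6 => ?_, h4⟩
          · rcases E1 d h3 h6 with h7 | h7
            · exact h5 (Or.inl h7)
            · exact h5 (Or.inr (Or.inr (Or.inl h7)))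
          · rcases E2 d h3 h6 with h7 | h7
            · exact h5 (Or.inr (Or.inl h7))
            · exact h5 (Or.inr (Or.inr (Or.inr h7)))
        · intro h6
          rw [hQm'] at h6
          rcases h6 with rfl | rfl | rfl | rfl
          · exact (hYA' _ h3).2.1 hp.fx1
          · exact (hYA' _ h3).2.2 hp.fy1
          · exact (hYA' _ h3).2.1 hp.rx1
          · exact (hYA' _ h3).2.2 hp.ry1
      · rintro ⟨⟨h3, h4⟩, h5⟩
        rw [hQm', not_or, not_or, not_or] at h5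
        rw [hWm, not_or, not_or] at h4
        have h6 : d.1 ∈ Y := by
          rcases (hWm _).1 h3 with h7 | h7 | h7
          · exfalso
            rcases pop_all_x hp d h7 with h8 | h8 | h8
            · exact h4.2.1 (by rw [h8])
            · exact h5.2.2.1 h8
            · exact h5.1 h8
          · exfalso
            rcases pop_all_y hG hF.1 hp d h7 with h8 | h8 | h8
            · exact h4.1 (by rw [h8, hmm])
            · exact h5.2.2.2 h8
            · exact h5.2.1 h8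
          · exact h7
        refine ⟨⟨h6, h4.2.2⟩, ?_⟩
        intro h7
        rw [hQm] at h7
        rcases h7 with rfl | rfl | rfl | rfl
        · exact h5.1 (absurd hp.fx1 (by rw [← hma]; exact h4.1))
        · exact h5.1 (absurd hp.fy1 (by rw [← hmb]; exact h4.2.1))
        · exact h5.1 (absurd hp.rx1 (by rw [← hmc]; exact h4.1))
        · exact h5.1 (absurd hp.ry1 (by rw [← hme]; exact h4.2.1))
    rw [h1, h2, add_comm]
    exact (Finset.card_filter_add_card_filter_not (s := G.cut W) (fun d => d ∈ Q')).symm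
  rw [c2] at hY1
  -- contradictions
  have K1 : Y.Nonempty → 3 ≤ (G.cut Y).card ∧
      ((G.cut Y).card = 3 → Y.card = 1 ∨ (G.A \ Y).card = 1) :=
    fun h => hc Y hYsub h fun h' => hgY (h' ▸ hgA)
  have K2 : (G.cut W).card ≠ 1 := by
    intro h1
    have h2 : W ≠ G.A := by
      intro h3
      rw [h3] at h1
      obtain ⟨d, hd⟩ := Finset.card_pos.1 (by rw [h1]; exact one_pos)
      rw [mem_cut] at hd
      exact hd.2 (hG.mem d hd.1)
    have h3 := (hc W hWA ⟨g.1, (hWm _).2 (Or.inl rfl)⟩ h2).1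
    omega
  have K3 : (G.cut Y).card ≠ 1 := by
    intro h1
    obtain ⟨d, hd⟩ := Finset.card_pos.1 (by rw [h1]; exact one_pos)
    rw [mem_cut] at hd
    have h3 := (K1 ⟨_, hd.1⟩).1
    omega
  have K4 : ∀ v ∈ Y, ∀ w ∈ Y, v ≠ w → (G.cut Y).card ≠ 3 := by
    intro v hv w hw hvw h1
    rcases (K1 ⟨v, hv⟩).2 h1 with h2 | h2
    · obtain ⟨z, hz⟩ := Finset.card_eq_one.1 h2
      rw [hz, Finset.mem_singleton] at hv hw
      exact hvw (hv.trans hw.symm)
    · obtain ⟨z, hz⟩ := Finset.card_eq_one.1 h2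
      have h3 : g.1 ∈ G.A \ Y := Finset.mem_sdiff.2 ⟨hgA, hgY⟩
      have h4 : (G.mate g).1 ∈ G.A \ Y := Finset.mem_sdiff.2 ⟨hyA, hmY⟩
      rw [hz, Finset.mem_singleton] at h3 h4
      exact hp.hne (h4.trans h3.symm)
  rw [c3] at K2
  rw [c1] at K3
  have K5 : ∀ v ∈ Y, ∀ w ∈ Y, v ≠ w → _ := K4
  rw [c1] at K5
  clear c1 c2 c3 K1 K4
  by_cases i1 : a.1 ∈ Y <;> by_cases i2 : b.1 ∈ Y <;> by_cases i3 : c.1 ∈ Y <;>
    by_cases i4 : e.1 ∈ Y <;> simp only [i1, i2, i3, i4, not_true_eq_false, not_false_eq_true,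
      and_true, and_false, and_self, if_true, if_false] at hY1 K2 K3 K5
  all_goals first
    | omega
    | (have := K5 a.1 i1 b.1 i2 hba.symm; omega)
    | (have := K5 c.1 i3 e.1 i4 hec.symm; omega)

end Pool.Agent.Lib.MP_1dc4d0_coA6
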