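import Pool.Agent.Lib.MP_1dc4d0_coA6.Pop

set_option autoImplicit false

namespace Pool.Agent.Lib.MP_1dc4d0_coA6

open Finset

variable {V : Type} [DecidableEq V]

theorem plA_mem {G : Gr V} {g rx fx ry fy : V × Fin 3} (v : V) :
    v ∈ (G.pop g rx fx ry fy).A ↔ v ∈ G.A ∧ v ≠ g.1 ∧ v ≠ (G.mate g).1 := by
  simp only [Gr.pop, Finset.mem_erase]
  tauto

section

variable {G : Gr V} {F : Finset (V × Fin 3)} {g rx fx ry fy : V × Fin 3}

theorem pl_ne (hp : PopD G F g rx fx ry fy) {a b : V × Fin 3} (ha : a.1 = g.1)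
    (hb : b.1 = (G.mate g).1) : a ≠ b := by
  rintro rfl
  exact hp.hne (hb.symm.trans ha)

theorem pl_neF {a b : V × Fin 3} (ha : a ∉ F) (hb : b ∈ F) : a ≠ b := by
  rintro rfl
  exact ha hb

theorem pl_mateF (hF : G.Closed F) {d : V × Fin 3} (hd : d.1 ∈ G.A) :
    G.mate d ∈ F ↔ d ∈ F := (hF d hd).symm

/-- The other end of `rx` is an outer dart or `ry`. -/
theorem pl_rx (hG : G.Ok) (hF : G.Closed F) (hp : PopD G F g rx fx ry fy) :
    (G.mate rx).1 ∈ (G.pop g rx fx ry fy).A ∨ G.mate rx = ry := by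
  have hA : rx.1 ∈ G.A := hp.rx1 ▸ hp.gA
  by_cases h1 : (G.mate rx).1 = g.1
  · exfalso
    rcases pop_all_x hp _ h1 with h | h | h
    · have h2 := hG.inv rx hA
      rw [h] at h2
      exact pl_ne hp hp.rx1 rfl h2.symm
    · exact hG.ne rx hA h
    · have h2 := (pl_mateF hF hA).1 (h ▸ hp.fxF)
      exact hp.rxF h2
  by_cases h2 : (G.mate rx).1 = (G.mate g).1
  · right
    rcases pop_all_y hG hF hp _ h2 with h | h | h
    · exfalso
      have h3 := hG.inv rx hA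
      rw [h, hG.inv g hp.gA] at h3
      exact hp.grx h3
    · exact h
    · exfalso
      have h2 := (pl_mateF hF hA).1 (h ▸ hp.fyF)
      exact hp.rxF h2
  · left
    rw [plA_mem]
    exact ⟨hG.mem rx hA, h1, h2⟩

/-- The other end of `fx` is an outer dart or `fy`. -/
theorem pl_fx (hG : G.Ok) (hF : G.Closed F) (hp : PopD G F g rx fx ry fy) :
    (G.mate fx).1 ∈ (G.pop g rx fx ry fy).A ∨ G.mate fx = fy := by
  have hA : fx.1 ∈ G.A := hp.fx1 ▸ hp.gA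
  have hm : G.mate fx ∈ F := (pl_mateF hF hA).2 hp.fxF
  by_cases h1 : (G.mate fx).1 = g.1
  · exfalso
    rcases pop_all_x hp _ h1 with h | h | h
    · exact hp.gF (h ▸ hm)
    · exact hp.rxF (h ▸ hm)
    · exact hG.ne fx hA h
  by_cases h2 : (G.mate fx).1 = (G.mate g).1
  · right
    rcases pop_all_y hG hF hp _ h2 with h | h | h
    · exfalso
      rw [h] at hm
      exact hp.gF ((pl_mateF hF hp.gA).1 hm)
    · exfalso
      exact hp.ryF (h ▸ hm)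
    · exact h
  · left
    rw [plA_mem]
    exact ⟨hG.mem fx hA, h1, h2⟩

theorem pl_out {v : V} (hv : v ∈ (G.pop g rx fx ry fy).A) {a : V × Fin 3}
    (ha : a.1 = g.1 ∨ a.1 = (G.mate g).1) : a.1 ≠ v := by
  rw [plA_mem] at hv
  rintro rfl
  rcases ha with ha | ha
  · exact hv.2.1 ha
  · exact hv.2.2 ha

/-- The other end of `ry` is an outer dart if the one of `rx` is. -/
theorem pl_ry (hG : G.Ok) (hF : G.Closed F) (hp : PopD G F g rx fx ry fy) :
    ((G.mate rx).1 ∈ (G.pop g rx fx ry fy).A ∧ (G.mate ry).1 ∈ (G.pop g rx fx ry fy).A) ∨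
      (G.mate rx = ry ∧ G.mate ry = rx) := by
  have hA : rx.1 ∈ G.A := hp.rx1 ▸ hp.gA
  have hA' : ry.1 ∈ G.A := hp.ry1 ▸ hG.mem g hp.gA
  rcases pl_rx hG hF hp with h0 | h0
  · left
    refine ⟨h0, ?_⟩
    rw [plA_mem]
    have hr : G.mate ry ≠ rx := by
      intro h
      have h3 := hG.inv ry hA'
      rw [h] at h3
      exact pl_out h0 (Or.inr hp.ry1) (by rw [h3])
    refine ⟨hG.mem ry hA', fun h1 => ?_, fun h2 => ?_⟩
    · rcases pop_all_x hp _ h1 with h | h | h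
      · have h3 := hG.inv ry hA'
        rw [h] at h3
        exact hp.gry h3
      · exact hr h
      · exact hp.ryF ((pl_mateF hF hA').1 (h ▸ hp.fxF))
    · rcases pop_all_y hG hF hp _ h2 with h | h | h
      · have h3 := hG.inv ry hA'
        rw [h, hG.inv g hp.gA] at h3
        exact pl_ne hp rfl hp.ry1 h3
      · exact hG.ne ry hA' h
      · exact hp.ryF ((pl_mateF hF hA').1 (h ▸ hp.fyF))
  · right
    refine ⟨h0, ?_⟩
    rw [← h0, hG.inv rx hA]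

theorem pl_fy (hG : G.Ok) (hF : G.Closed F) (hp : PopD G F g rx fx ry fy) :
    ((G.mate fx).1 ∈ (G.pop g rx fx ry fy).A ∧ (G.mate fy).1 ∈ (G.pop g rx fx ry fy).A) ∨
      (G.mate fx = fy ∧ G.mate fy = fx) := by
  have hA : fx.1 ∈ G.A := hp.fx1 ▸ hp.gA
  have hA' : fy.1 ∈ G.A := hp.fy1 ▸ hG.mem g hp.gA
  have hm : G.mate fy ∈ F := (pl_mateF hF hA').2 hp.fyF
  rcases pl_fx hG hF hp with h0 | h0
  · left
    refine ⟨h0, ?_⟩
    rw [plA_mem]
    have hr : G.mate fy ≠ fx := by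
      intro h
      have h3 := hG.inv fy hA'
      rw [h] at h3
      exact pl_out h0 (Or.inr hp.fy1) (by rw [h3])
    refine ⟨hG.mem fy hA', fun h1 => ?_, fun h2 => ?_⟩
    · rcases pop_all_x hp _ h1 with h | h | h
      · exact hp.gF (h ▸ hm)
      · exact hp.rxF (h ▸ hm)
      · exact hr h
    · rcases pop_all_y hG hF hp _ h2 with h | h | h
      · rw [h] at hm
        exact hp.gF ((pl_mateF hF hp.gA).1 hm)
      · exact hp.ryF (h ▸ hm)
      · exact hG.ne fy hA' h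
  · right
    refine ⟨h0, ?_⟩
    rw [← h0, hG.inv fx hA]

theorem pl_mate_fx (hG : G.Ok) (hp : PopD G F g rx fx ry fy) :
    (G.pop g rx fx ry fy).mate (G.mate fx) = G.mate fy := by
  have hA : fx.1 ∈ G.A := hp.fx1 ▸ hp.gA
  simp only [Gr.pop, hG.inv fx hA, if_true]

theorem pl_mate_fy (hG : G.Ok) (hp : PopD G F g rx fx ry fy) :
    (G.pop g rx fx ry fy).mate (G.mate fy) = G.mate fx := by
  have hA : fy.1 ∈ G.A := hp.fy1 ▸ hG.mem g hp.gA
  have h1 : fy ≠ fx := (pl_ne hp hp.fx1 hp.fy1).symm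
  simp only [Gr.pop, hG.inv fy hA, if_true, if_neg h1]

theorem pl_mate_rx (hG : G.Ok) (hp : PopD G F g rx fx ry fy) :
    (G.pop g rx fx ry fy).mate (G.mate rx) = G.mate ry := by
  have hA : rx.1 ∈ G.A := hp.rx1 ▸ hp.gA
  have h1 : rx ≠ fx := pl_neF hp.rxF hp.fxF
  have h2 : rx ≠ fy := pl_neF hp.rxF hp.fyF
  simp only [Gr.pop, hG.inv rx hA, if_true, if_neg h1, if_neg h2]

theorem pl_mate_ry (hG : G.Ok) (hp : PopD G F g rx fx ry fy) :
    (G.pop g rx fx ry fy).mate (G.mate ry) = G.mate rx := by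
  have hA : ry.1 ∈ G.A := hp.ry1 ▸ hG.mem g hp.gA
  have h1 : ry ≠ fx := pl_neF hp.ryF hp.fxF
  have h2 : ry ≠ fy := pl_neF hp.ryF hp.fyF
  have h3 : ry ≠ rx := (pl_ne hp hp.rx1 hp.ry1).symm
  simp only [Gr.pop, hG.inv ry hA, if_true, if_neg h1, if_neg h2, if_neg h3]

/-- The mate of an outer dart whose edge does not touch `x` and `y`. -/
theorem pl_mate_out (hp : PopD G F g rx fx ry fy) {d : V × Fin 3}
    (hd : (G.mate d).1 ∈ (G.pop g rx fx ry fy).A) :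
    (G.pop g rx fx ry fy).mate d = G.mate d := by
  have h1 : G.mate d ≠ fx := fun h => pl_out hd (Or.inl hp.fx1) (by rw [h])
  have h2 : G.mate d ≠ fy := fun h => pl_out hd (Or.inr hp.fy1) (by rw [h])
  have h3 : G.mate d ≠ rx := fun h => pl_out hd (Or.inl hp.rx1) (by rw [h])
  have h4 : G.mate d ≠ ry := fun h => pl_out hd (Or.inr hp.ry1) (by rw [h])
  simp only [Gr.pop, if_neg h1, if_neg h2, if_neg h3, if_neg h4]

/-- An outer dart has an outer mate or is one of the four. -/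
theorem pl_cases (hG : G.Ok) (hF : G.Closed F) (hp : PopD G F g rx fx ry fy) {d : V × Fin 3}
    (hd : d.1 ∈ (G.pop g rx fx ry fy).A) : (G.mate d).1 ∈ (G.pop g rx fx ry fy).A ∨
      d = G.mate fx ∨ d = G.mate fy ∨ d = G.mate rx ∨ d = G.mate ry := by
  have hdA := ((plA_mem _).1 hd).1
  have hi := hG.inv d hdA
  by_cases h1 : (G.mate d).1 = g.1
  · right
    rcases pop_all_x hp _ h1 with h | h | h
    · exfalso
      rw [h] at hi
      exact pl_out (a := G.mate g) hd (Or.inr rfl) (by rw [hi])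
    · rw [h] at hi
      exact Or.inr (Or.inr (Or.inl hi.symm))
    · rw [h] at hi
      exact Or.inl hi.symm
  by_cases h2 : (G.mate d).1 = (G.mate g).1
  · right
    rcases pop_all_y hG hF hp _ h2 with h | h | h
    · exfalso
      rw [h, hG.inv g hp.gA] at hi
      exact pl_out (a := g) hd (Or.inl rfl) (by rw [hi])
    · rw [h] at hi
      exact Or.inr (Or.inr (Or.inr hi.symm))
    · rw [h] at hi
      exact Or.inr (Or.inl hi.symm)
  · left
    rw [plA_mem]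
    exact ⟨hG.mem d hdA, h1, h2⟩

/-- The general lift. -/
theorem pl_gen (hG : G.Ok) (hF : G.Closed F) (hp : PopD G F g rx fx ry fy)
    (P Q : Finset (V × Fin 3)) (hP : (G.pop g rx fx ry fy).Closed P)
    (h1 : ∀ d : V × Fin 3, d.1 ∈ (G.pop g rx fx ry fy).A → (d ∈ Q ↔ d ∈ P))
    (h2 : g ∈ Q ↔ G.mate g ∈ Q) (h3 : fx ∈ Q ↔ fy ∈ Q) (h4 : rx ∈ Q ↔ ry ∈ Q)
    (h5 : (G.mate fx).1 ∈ (G.pop g rx fx ry fy).A → (G.mate fx ∈ P ↔ fx ∈ Q))
    (h6 : (G.mate rx).1 ∈ (G.pop g rx fx ry fy).A → (G.mate rx ∈ P ↔ rx ∈ Q)) :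
    G.Closed Q ∧ ((G.pop g rx fx ry fy).Good F P → G.Good F Q) := by
  have hxA := hp.gA
  have hyA := hG.mem g hp.gA
  have hfxA : fx.1 ∈ G.A := hp.fx1 ▸ hxA
  have hrxA : rx.1 ∈ G.A := hp.rx1 ▸ hxA
  have hfyA : fy.1 ∈ G.A := hp.fy1 ▸ hyA
  have hryA : ry.1 ∈ G.A := hp.ry1 ▸ hyA
  -- the four darts
  have e1 : fx ∈ Q ↔ G.mate fx ∈ Q := by
    rcases pl_fy hG hF hp with ⟨ha, hb⟩ | ⟨ha, hb⟩
    · rw [h1 _ ha, h5 ha]
    · rw [ha, h3]
  have e2 : fy ∈ Q ↔ G.mate fy ∈ Q := by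
    rcases pl_fy hG hF hp with ⟨ha, hb⟩ | ⟨ha, hb⟩
    · have h7 := hP (G.mate fx) ha
      rw [pl_mate_fx hG hp] at h7
      rw [h1 _ hb, ← h7, h5 ha, h3]
    · rw [hb, h3]
  have e3 : rx ∈ Q ↔ G.mate rx ∈ Q := by
    rcases pl_ry hG hF hp with ⟨ha, hb⟩ | ⟨ha, hb⟩
    · rw [h1 _ ha, h6 ha]
    · rw [ha, h4]
  have e4 : ry ∈ Q ↔ G.mate ry ∈ Q := by
    rcases pl_ry hG hF hp with ⟨ha, hb⟩ | ⟨ha, hb⟩
    · have h7 := hP (G.mate rx) ha
      rw [pl_mate_rx hG hp] at h7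
      rw [h1 _ hb, ← h7, h6 ha, h4]
    · rw [hb, h4]
  have hcl : G.Closed Q := by
    intro d hd
    by_cases hx : d.1 = g.1
    · rcases pop_all_x hp _ hx with rfl | rfl | rfl
      · exact h2
      · exact e3
      · exact e1
    by_cases hy : d.1 = (G.mate g).1
    · rcases pop_all_y hG hF hp _ hy with rfl | rfl | rfl
      · rw [hG.inv g hxA]
        exact h2.symm
      · exact e4
      · exact e2
    have hd' : d.1 ∈ (G.pop g rx fx ry fy).A := (plA_mem _).2 ⟨hd, hx, hy⟩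
    rcases pl_cases hG hF hp hd' with h | rfl | rfl | rfl | rfl
    · rw [h1 d hd', h1 _ h, hP d hd', pl_mate_out hp h]
    · rw [hG.inv fx hfxA, e1]
    · rw [hG.inv fy hfyA, e2]
    · rw [hG.inv rx hrxA, e3]
    · rw [hG.inv ry hryA, e4]
  refine ⟨hcl, fun hgood X hX hcut => ?_⟩
  -- darts outside `F` do not cross
  have hcr : ∀ d : V × Fin 3, d.1 ∈ G.A → d ∉ F → (d.1 ∈ X ↔ (G.mate d).1 ∈ X) := by
    intro d hd hdF
    constructor
    · intro h
      by_contra hc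
      exact hdF (hcut d ((mem_cut G X d).2 ⟨h, hc⟩)).1
    · intro h
      by_contra hc
      have h7 := (hcut (G.mate d) ((mem_cut G X _).2 ⟨h, by rw [hG.inv d hd]; exact hc⟩)).1
      exact hdF ((pl_mateF hF hd).1 h7)
  have hxy : g.1 ∈ X ↔ (G.mate g).1 ∈ X := hcr g hxA hp.gF
  have hxr : g.1 ∈ X ↔ (G.mate rx).1 ∈ X := by
    rw [← hp.rx1]
    exact hcr rx hrxA hp.rxF
  have hyr : (G.mate g).1 ∈ X ↔ (G.mate ry).1 ∈ X := by
    rw [← hp.ry1]
    exact hcr ry hryA hp.ryF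
  set X' := (X.erase g.1).erase (G.mate g).1 with hX'
  have memX' : ∀ v, v ∈ (G.pop g rx fx ry fy).A → (v ∈ X' ↔ v ∈ X) := by
    intro v hv
    rw [plA_mem] at hv
    rw [hX', Finset.mem_erase, Finset.mem_erase]
    exact ⟨fun h => h.2.2, fun h => ⟨hv.2.2, hv.2.1, h⟩⟩
  have hX'A : X' ⊆ (G.pop g rx fx ry fy).A := by
    intro v hv
    rw [hX', Finset.mem_erase, Finset.mem_erase] at hv
    exact (plA_mem _).2 ⟨hX hv.2.2, hv.2.1, hv.1⟩
  have key : ∀ d ∈ (G.pop g rx fx ry fy).cut X', d ∈ F ∧ d ∈ P := by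
    intro d hd
    rw [mem_cut] at hd
    obtain ⟨hd1, hd2⟩ := hd
    have hdo := hX'A hd1
    have hdX := (memX' _ hdo).1 hd1
    have hdA := hX hdX
    rcases pl_cases hG hF hp hdo with h | rfl | rfl | rfl | rfl
    · rw [pl_mate_out hp h, memX' _ h] at hd2
      obtain ⟨h7, h8⟩ := hcut d ((mem_cut G X d).2 ⟨hdX, hd2⟩)
      exact ⟨h7, (h1 d hdo).1 h8⟩
    · rw [pl_mate_fx hG hp] at hd2
      have hFm : G.mate fx ∈ F := (pl_mateF hF hfxA).2 hp.fxF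
      refine ⟨hFm, ?_⟩
      rcases pl_fy hG hF hp with ⟨ha, hb⟩ | ⟨ha, hb⟩
      · rw [memX' _ hb] at hd2
        by_cases hx : g.1 ∈ X
        · have h7 := (hcut fy ((mem_cut G X fy).2 ⟨by rw [hp.fy1]; exact hxy.1 hx, hd2⟩)).2
          exact (h5 ha).2 (h3.2 h7)
        · have h7 := (hcut (G.mate fx) ((mem_cut G X _).2 ⟨hdX, by
            rw [hG.inv fx hfxA, hp.fx1]; exact hx⟩)).2
          exact (h1 _ hdo).1 h7
      · exact absurd (by rw [ha]) (pl_out hdo (Or.inr hp.fy1))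
    · rw [pl_mate_fy hG hp] at hd2
      have hFm : G.mate fy ∈ F := (pl_mateF hF hfyA).2 hp.fyF
      refine ⟨hFm, ?_⟩
      rcases pl_fy hG hF hp with ⟨ha, hb⟩ | ⟨ha, hb⟩
      · rw [memX' _ ha] at hd2
        by_cases hx : g.1 ∈ X
        · have h7 := (hcut fx ((mem_cut G X fx).2 ⟨by rw [hp.fx1]; exact hx, hd2⟩)).2
          exact (h1 _ hdo).1 (e2.1 (h3.1 h7))
        · have h7 := (hcut (G.mate fy) ((mem_cut G X _).2 ⟨hdX, by
            rw [hG.inv fy hfyA, hp.fy1]; exact fun h => hx (hxy.2 h)⟩)).2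
          exact (h1 _ hdo).1 h7
      · exact absurd (by rw [hb]) (pl_out hdo (Or.inl hp.fx1))
    · exfalso
      rw [pl_mate_rx hG hp] at hd2
      rcases pl_ry hG hF hp with ⟨ha, hb⟩ | ⟨ha, hb⟩
      · rw [memX' _ hb] at hd2
        exact hd2 (hyr.1 (hxy.1 (hxr.2 hdX)))
      · exact absurd (by rw [ha]) (pl_out hdo (Or.inr hp.ry1))
    · exfalso
      rw [pl_mate_ry hG hp] at hd2
      rcases pl_ry hG hF hp with ⟨ha, hb⟩ | ⟨ha, hb⟩
      · rw [memX' _ ha] at hd2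
        exact hd2 (hxr.1 (hxy.2 (hyr.2 hdX)))
      · exact absurd (by rw [hb]) (pl_out hdo (Or.inl hp.rx1))
  have hev := hgood X' hX'A key
  by_cases hx : g.1 ∈ X
  · have hy := hxy.1 hx
    have h7 : (G.mate g).1 ∈ X.erase g.1 := Finset.mem_erase.2 ⟨hp.hne, hy⟩
    rw [hX', Finset.card_erase_of_mem h7, Finset.card_erase_of_mem hx] at hev
    have h8 : 0 < (X.erase g.1).card := Finset.card_pos.2 ⟨_, h7⟩
    rw [Finset.card_erase_of_mem hx] at h8
    rw [Nat.even_iff] at hev ⊢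
    omega
  · have hy : (G.mate g).1 ∉ X := fun h => hx (hxy.2 h)
    rw [hX', Finset.erase_eq_of_notMem hx, Finset.erase_eq_of_notMem hy] at hev
    exact hev

theorem pl_mem (P : Finset (V × Fin 3)) (a b d : V × Fin 3)
    (h : d.1 = g.1 ∨ d.1 = (G.mate g).1) :
    d ∈ P.filter (fun e => e.1 ∈ (G.pop g rx fx ry fy).A) ∪ {a, b} ↔ d = a ∨ d = b := by
  rw [Finset.mem_union, Finset.mem_filter, Finset.mem_insert, Finset.mem_singleton]
  constructor
  · rintro (h1 | h1)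
    · exact absurd rfl (pl_out h1.2 h)
    · exact h1
  · exact Or.inr

theorem pl_mem' (P : Finset (V × Fin 3)) (a b d : V × Fin 3)
    (ha : a.1 = g.1 ∨ a.1 = (G.mate g).1) (hb : b.1 = g.1 ∨ b.1 = (G.mate g).1)
    (h : d.1 ∈ (G.pop g rx fx ry fy).A) :
    d ∈ P.filter (fun e => e.1 ∈ (G.pop g rx fx ry fy).A) ∪ {a, b} ↔ d ∈ P := by
  rw [Finset.mem_union, Finset.mem_filter, Finset.mem_insert, Finset.mem_singleton]
  constructor
  · rintro (h1 | rfl | rfl)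
    · exact h1.1
    · exact absurd rfl (pl_out h ha)
    · exact absurd rfl (pl_out h hb)
  · exact fun h1 => Or.inl ⟨h1, h⟩

end

/-- Lifting a set of darts which does not contain the new edge outside `F`: at `x` and `y` the lift has either
the edge `g` or the two edges `fx, fy`. -/
theorem pop_liftA {G : Gr V} {F : Finset (V × Fin 3)} {g rx fx ry fy : V × Fin 3} (hG : G.Ok)
    (hF : G.Join F) (hp : PopD G F g rx fx ry fy) (P : Finset (V × Fin 3))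
    (hP : (G.pop g rx fx ry fy).Closed P)
    (hr : (G.mate rx).1 ∈ (G.pop g rx fx ry fy).A → G.mate rx ∉ P) :
    ∃ Q : Finset (V × Fin 3), G.Closed Q ∧ (∀ d : V × Fin 3, d.1 ∈ (G.pop g rx fx ry fy).A → (d ∈ Q ↔ d ∈ P)) ∧
      ((g ∈ Q ∧ G.mate g ∈ Q ∧ fx ∉ Q ∧ fy ∉ Q) ∨ (g ∉ Q ∧ G.mate g ∉ Q ∧ fx ∈ Q ∧ fy ∈ Q)) ∧
      rx ∉ Q ∧ ry ∉ Q ∧ ((G.pop g rx fx ry fy).Good F P → G.Good F Q) := by
  have ngF : G.mate g ∉ F := fun h => hp.gF ((pl_mateF hF.1 hp.gA).1 h)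
  by_cases hc : (G.mate fx).1 ∈ (G.pop g rx fx ry fy).A ∧ G.mate fx ∈ P
  · have hfx : fx ∈ P.filter (fun e => e.1 ∈ (G.pop g rx fx ry fy).A) ∪ {fx, fy} :=
      (pl_mem P fx fy fx (Or.inl hp.fx1)).2 (Or.inl rfl)
    have hfy : fy ∈ P.filter (fun e => e.1 ∈ (G.pop g rx fx ry fy).A) ∪ {fx, fy} :=
      (pl_mem P fx fy fy (Or.inr hp.fy1)).2 (Or.inr rfl)
    have hno : ∀ d : V × Fin 3, (d.1 = g.1 ∨ d.1 = (G.mate g).1) → d ∉ F →
        d ∉ P.filter (fun e => e.1 ∈ (G.pop g rx fx ry fy).A) ∪ {fx, fy} := by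
      intro d hd hdF
      rw [pl_mem P fx fy d hd]
      rintro (rfl | rfl)
      · exact hdF hp.fxF
      · exact hdF hp.fyF
    have hg := hno g (Or.inl rfl) hp.gF
    have hmg := hno (G.mate g) (Or.inr rfl) ngF
    have hrx := hno rx (Or.inl hp.rx1) hp.rxF
    have hry := hno ry (Or.inr hp.ry1) hp.ryF
    have hout := fun d (h : d.1 ∈ (G.pop g rx fx ry fy).A) =>
      pl_mem' P fx fy d (Or.inl hp.fx1) (Or.inr hp.fy1) h
    obtain ⟨ha, hb⟩ := pl_gen hG hF.1 hp P _ hP hout (iff_of_false hg hmg) (iff_of_true hfx hfy)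
      (iff_of_false hrx hry) (fun _ => iff_of_true hc.2 hfx) (fun h => iff_of_false (hr h) hrx)
    exact ⟨_, ha, hout, Or.inr ⟨hg, hmg, hfx, hfy⟩, hrx, hry, hb⟩
  · have hgg : g ∈ P.filter (fun e => e.1 ∈ (G.pop g rx fx ry fy).A) ∪ {g, G.mate g} :=
      (pl_mem P g (G.mate g) g (Or.inl rfl)).2 (Or.inl rfl)
    have hmg : G.mate g ∈ P.filter (fun e => e.1 ∈ (G.pop g rx fx ry fy).A) ∪ {g, G.mate g} :=
      (pl_mem P g (G.mate g) _ (Or.inr rfl)).2 (Or.inr rfl)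
    have hfx : fx ∉ P.filter (fun e => e.1 ∈ (G.pop g rx fx ry fy).A) ∪ {g, G.mate g} := by
      rw [pl_mem P g (G.mate g) fx (Or.inl hp.fx1)]
      rintro (h | h)
      · exact hp.gF (h ▸ hp.fxF)
      · exact ngF (h ▸ hp.fxF)
    have hfy : fy ∉ P.filter (fun e => e.1 ∈ (G.pop g rx fx ry fy).A) ∪ {g, G.mate g} := by
      rw [pl_mem P g (G.mate g) fy (Or.inr hp.fy1)]
      rintro (h | h)
      · exact hp.gF (h ▸ hp.fyF)
      · exact ngF (h ▸ hp.fyF)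
    have hrx : rx ∉ P.filter (fun e => e.1 ∈ (G.pop g rx fx ry fy).A) ∪ {g, G.mate g} := by
      rw [pl_mem P g (G.mate g) rx (Or.inl hp.rx1)]
      rintro (h | h)
      · exact hp.grx h.symm
      · exact pl_ne hp hp.rx1 rfl h
    have hry : ry ∉ P.filter (fun e => e.1 ∈ (G.pop g rx fx ry fy).A) ∪ {g, G.mate g} := by
      rw [pl_mem P g (G.mate g) ry (Or.inr hp.ry1)]
      rintro (h | h)
      · exact pl_ne hp rfl hp.ry1 h.symm
      · exact hp.gry h.symm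
    have hout := fun d (h : d.1 ∈ (G.pop g rx fx ry fy).A) =>
      pl_mem' P g (G.mate g) d (Or.inl rfl) (Or.inr rfl) h
    obtain ⟨ha, hb⟩ := pl_gen hG hF.1 hp P _ hP hout (iff_of_true hgg hmg) (iff_of_false hfx hfy)
      (iff_of_false hrx hry) (fun h => iff_of_false (fun h' => hc ⟨h, h'⟩) hfx)
      (fun h => iff_of_false (hr h) hrx)
    exact ⟨_, ha, hout, Or.inl ⟨hgg, hmg, hfx, hfy⟩, hrx, hry, hb⟩

/-- Lifting a set of darts which contains the new edge outside `F` and not the new edge in `F`. -/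
theorem pop_liftB {G : Gr V} {F : Finset (V × Fin 3)} {g rx fx ry fy : V × Fin 3} (hG : G.Ok)
    (hF : G.Join F) (hp : PopD G F g rx fx ry fy) (P : Finset (V × Fin 3))
    (hP : (G.pop g rx fx ry fy).Closed P)
    (hr : (G.mate rx).1 ∈ (G.pop g rx fx ry fy).A) (hr' : G.mate rx ∈ P)
    (hf : (G.mate fx).1 ∈ (G.pop g rx fx ry fy).A → G.mate fx ∉ P) :
    ∃ Q : Finset (V × Fin 3), G.Closed Q ∧ (∀ d : V × Fin 3, d.1 ∈ (G.pop g rx fx ry fy).A → (d ∈ Q ↔ d ∈ P)) ∧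
      rx ∈ Q ∧ ry ∈ Q ∧ g ∉ Q ∧ G.mate g ∉ Q ∧ fx ∉ Q ∧ fy ∉ Q ∧
      ((G.pop g rx fx ry fy).Good F P → G.Good F Q) := by
  have hrx : rx ∈ P.filter (fun e => e.1 ∈ (G.pop g rx fx ry fy).A) ∪ {rx, ry} :=
    (pl_mem P rx ry rx (Or.inl hp.rx1)).2 (Or.inl rfl)
  have hry : ry ∈ P.filter (fun e => e.1 ∈ (G.pop g rx fx ry fy).A) ∪ {rx, ry} :=
    (pl_mem P rx ry ry (Or.inr hp.ry1)).2 (Or.inr rfl)
  have hgg : g ∉ P.filter (fun e => e.1 ∈ (G.pop g rx fx ry fy).A) ∪ {rx, ry} := by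
    rw [pl_mem P rx ry g (Or.inl rfl)]
    rintro (h | h)
    · exact hp.grx h
    · exact pl_ne hp rfl hp.ry1 h
  have hmg : G.mate g ∉ P.filter (fun e => e.1 ∈ (G.pop g rx fx ry fy).A) ∪ {rx, ry} := by
    rw [pl_mem P rx ry (G.mate g) (Or.inr rfl)]
    rintro (h | h)
    · exact pl_ne hp hp.rx1 rfl h.symm
    · exact hp.gry h
  have hfx : fx ∉ P.filter (fun e => e.1 ∈ (G.pop g rx fx ry fy).A) ∪ {rx, ry} := by
    rw [pl_mem P rx ry fx (Or.inl hp.fx1)]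
    rintro (h | h)
    · exact hp.rxF (h ▸ hp.fxF)
    · exact hp.ryF (h ▸ hp.fxF)
  have hfy : fy ∉ P.filter (fun e => e.1 ∈ (G.pop g rx fx ry fy).A) ∪ {rx, ry} := by
    rw [pl_mem P rx ry fy (Or.inr hp.fy1)]
    rintro (h | h)
    · exact hp.rxF (h ▸ hp.fyF)
    · exact hp.ryF (h ▸ hp.fyF)
  have hout := fun d (h : d.1 ∈ (G.pop g rx fx ry fy).A) =>
    pl_mem' P rx ry d (Or.inl hp.rx1) (Or.inr hp.ry1) h
  obtain ⟨ha, hb⟩ := pl_gen hG hF.1 hp P _ hP hout (iff_of_false hgg hmg) (iff_of_false hfx hfy)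
    (iff_of_true hrx hry) (fun h => iff_of_false (hf h) hfx) (fun _ => iff_of_true hr' hrx)
  exact ⟨_, ha, hout, hrx, hry, hgg, hmg, hfx, hfy, hb⟩

end Pool.Agent.Lib.MP_1dc4d0_coA6
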