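import Pool.Agent.Lib.MP_1dc4d0_coA6.PopOk
import Pool.Agent.Lib.MP_1dc4d0_coA6.PopLift
import Pool.Agent.Lib.MP_1dc4d0_coA6.PopBr

set_option autoImplicit false

namespace Pool.Agent.Lib.MP_1dc4d0_coA6

open Finset

variable {V : Type} [DecidableEq V]

private theorem near_deg {P : Finset (V × Fin 3)} {v : V} {a : V × Fin 3} (ha : a ∈ P)
    (hv : a.1 = v) (hu : ∀ b ∈ P, b.1 = v → b = a) : deg P v = 1 := by
  rw [deg, Finset.card_eq_one]
  refine ⟨a.2, ?_⟩
  ext i
  simp only [Finset.mem_filter, Finset.mem_univ, true_and, Finset.mem_singleton]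
  constructor
  · intro h
    exact congrArg Prod.snd (hu (v, i) h rfl)
  · rintro rfl
    rw [← hv]
    exact ha

private theorem near_uniq {P : Finset (V × Fin 3)} {v : V} (h : deg P v = 1) {a b : V × Fin 3}
    (ha : a ∈ P) (hb : b ∈ P) (ha1 : a.1 = v) (hb1 : b.1 = v) : a = b := by
  rw [deg, Finset.card_eq_one] at h
  obtain ⟨i, hi⟩ := h
  have h1 : a.2 = i := by
    rw [← Finset.mem_singleton, ← hi, Finset.mem_filter]
    refine ⟨Finset.mem_univ _, ?_⟩
    rw [← ha1]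
    exact ha
  have h2 : b.2 = i := by
    rw [← Finset.mem_singleton, ← hi, Finset.mem_filter]
    refine ⟨Finset.mem_univ _, ?_⟩
    rw [← hb1]
    exact hb
  exact Prod.ext (ha1.trans hb1.symm) (h1.trans h2.symm)

private theorem near_congr {P Q : Finset (V × Fin 3)} {v : V}
    (h : ∀ d : V × Fin 3, d.1 = v → (d ∈ Q ↔ d ∈ P)) : deg Q v = deg P v := by
  rw [deg, deg]
  congr 1
  ext i
  simp only [Finset.mem_filter, Finset.mem_univ, true_and]
  exact h (v, i) rfl

/-- The near split: `d` is a dart whose edge does not touch `x = g.1`, `y = (G.mate g).1` but which starts at one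
of the four outer neighbours of `x, y`. -/
theorem near_split {G : Gr V} {F : Finset (V × Fin 3)} (hI : G.Inst F) (hc : G.Cyc) (h6 : 6 ≤ G.A.card)
    (ih : IH V G.A.card) {g rx fx ry fy : V × Fin 3} (hp : PopD G F g rx fx ry fy) (d : V × Fin 3)
    (hd : d.1 ∈ G.A) (h1 : d.1 ≠ g.1) (h2 : d.1 ≠ (G.mate g).1) (h3 : (G.mate d).1 ≠ g.1)
    (h4 : (G.mate d).1 ≠ (G.mate g).1)
    (h5 : d.1 = (G.mate fx).1 ∨ d.1 = (G.mate fy).1 ∨ d.1 = (G.mate rx).1 ∨ d.1 = (G.mate ry).1) :
    G.Star F d := by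
  have hG := hI.ok
  have hF := hI.join
  have hxA : g.1 ∈ G.A := hp.gA
  have hyA : (G.mate g).1 ∈ G.A := hG.mem g hp.gA
  have hA' : ∀ v : V, v ∈ (G.pop g rx fx ry fy).A ↔ v ≠ (G.mate g).1 ∧ v ≠ g.1 ∧ v ∈ G.A := by
    intro v
    rw [Gr.pop, Finset.mem_erase, Finset.mem_erase]
  have hI' : (G.pop g rx fx ry fy).Inst F :=
    ⟨pop_ok hG hF.1 hp, pop_bridgeless hG hF hc h6 hp, pop_join hG hF hp, pop_few hG hF hp hI.few⟩
  have hlt : (G.pop g rx fx ry fy).A.card < G.A.card := by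
    refine Finset.card_lt_card ⟨fun v hv => ((hA' v).1 hv).2.2, fun h => ?_⟩
    exact ((hA' g.1).1 (h hxA)).2.1 rfl
  have hd' : d.1 ∈ (G.pop g rx fx ry fy).A := (hA' _).2 ⟨h2, h1, hd⟩
  obtain ⟨M', hM', hdM, hgood⟩ := ih _ F hI' hlt d hd'
  have huniq : ∀ a : V × Fin 3, a ∈ M' → a.1 = d.1 → a = d := fun a ha ha1 =>
    near_uniq (hM'.2 d.1 hd') ha hdM ha1 rfl
  have hfxA : fx.1 ∈ G.A := by rw [hp.fx1]; exact hxA
  have hfyA : fy.1 ∈ G.A := by rw [hp.fy1]; exact hyA
  have hrxA : rx.1 ∈ G.A := by rw [hp.rx1]; exact hxA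
  have hryA : ry.1 ∈ G.A := by rw [hp.ry1]; exact hyA
  -- the four ends are not in `M'` if `d` starts there
  have c1 : d.1 = (G.mate fx).1 → G.mate fx ∉ M' := by
    intro h hm
    have h7 := huniq _ hm h.symm
    apply h3
    rw [← h7, hG.inv fx hfxA, hp.fx1]
  have c2 : d.1 = (G.mate fy).1 → G.mate fy ∉ M' := by
    intro h hm
    have h7 := huniq _ hm h.symm
    apply h4
    rw [← h7, hG.inv fy hfyA, hp.fy1]
  have c3 : d.1 = (G.mate rx).1 → G.mate rx ∉ M' := by
    intro h hm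
    have h7 := huniq _ hm h.symm
    apply h3
    rw [← h7, hG.inv rx hrxA, hp.rx1]
  have c4 : d.1 = (G.mate ry).1 → G.mate ry ∉ M' := by
    intro h hm
    have h7 := huniq _ hm h.symm
    apply h4
    rw [← h7, hG.inv ry hryA, hp.ry1]
  have m1 : (G.pop g rx fx ry fy).mate (G.mate fx) = G.mate fy := by
    rw [Gr.pop]
    simp only [hG.inv fx hfxA, if_true]
  have n1 : rx ≠ fx := fun h => hp.rxF (by rw [h]; exact hp.fxF)
  have n2 : rx ≠ fy := fun h => hp.rxF (by rw [h]; exact hp.fyF)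
  have m2 : (G.pop g rx fx ry fy).mate (G.mate rx) = G.mate ry := by
    rw [Gr.pop]
    simp only [hG.inv rx hrxA, if_neg n1, if_neg n2, if_true]
  have hcx : ∀ a : V × Fin 3, a.1 = g.1 → a = g ∨ a = rx ∨ a = fx := pop_all_x hp
  have hcy : ∀ a : V × Fin 3, a.1 = (G.mate g).1 → a = G.mate g ∨ a = ry ∨ a = fy :=
    pop_all_y hG hF.1 hp
  by_cases hb : (G.mate rx).1 ∈ (G.pop g rx fx ry fy).A ∧ G.mate rx ∈ M'
  · have hry : G.mate ry ∈ M' := by
      rw [← m2]
      exact (hM'.1 _ hb.1).1 hb.2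
    have hf : (G.mate fx).1 ∈ (G.pop g rx fx ry fy).A → G.mate fx ∉ M' := by
      intro hfa hm
      rcases h5 with h | h | h | h
      · exact c1 h hm
      · refine c2 h ?_
        rw [← m1]
        exact (hM'.1 _ hfa).1 hm
      · exact c3 h hb.2
      · exact c4 h hry
    obtain ⟨Q, hQc, hQm, hrx, hry', hg, hg', hfx, hfy, hQg⟩ :=
      pop_liftB hG hF hp M' hM'.1 hb.1 hb.2 hf
    refine ⟨Q, ⟨hQc, fun v hv => ?_⟩, (hQm d hd').2 hdM, hQg hgood⟩
    by_cases hvx : v = g.1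
    · refine near_deg hrx (hp.rx1.trans hvx.symm) fun b hbQ hb1 => ?_
      rcases hcx b (hb1.trans hvx) with h | h | h
      · exact absurd (h ▸ hbQ) hg
      · exact h
      · exact absurd (h ▸ hbQ) hfx
    · by_cases hvy : v = (G.mate g).1
      · refine near_deg hry' (hp.ry1.trans hvy.symm) fun b hbQ hb1 => ?_
        rcases hcy b (hb1.trans hvy) with h | h | h
        · exact absurd (h ▸ hbQ) hg'
        · exact h
        · exact absurd (h ▸ hbQ) hfy
      · have hv' : v ∈ (G.pop g rx fx ry fy).A := (hA' v).2 ⟨hvy, hvx, hv⟩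
        rw [near_congr fun a ha => hQm a (by rw [ha]; exact hv')]
        exact hM'.2 v hv'
  · have hr : (G.mate rx).1 ∈ (G.pop g rx fx ry fy).A → G.mate rx ∉ M' :=
      fun h h' => hb ⟨h, h'⟩
    obtain ⟨Q, hQc, hQm, hgf, hrx, hry, hQg⟩ := pop_liftA hG hF hp M' hM'.1 hr
    refine ⟨Q, ⟨hQc, fun v hv => ?_⟩, (hQm d hd').2 hdM, hQg hgood⟩
    by_cases hvx : v = g.1
    · rcases hgf with ⟨q1, -, q3, -⟩ | ⟨q1, -, q3, -⟩
      · refine near_deg q1 hvx.symm fun b hbQ hb1 => ?_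
        rcases hcx b (hb1.trans hvx) with h | h | h
        · exact h
        · exact absurd (h ▸ hbQ) hrx
        · exact absurd (h ▸ hbQ) q3
      · refine near_deg q3 (hp.fx1.trans hvx.symm) fun b hbQ hb1 => ?_
        rcases hcx b (hb1.trans hvx) with h | h | h
        · exact absurd (h ▸ hbQ) q1
        · exact absurd (h ▸ hbQ) hrx
        · exact h
    · by_cases hvy : v = (G.mate g).1
      · rcases hgf with ⟨-, q2, -, q4⟩ | ⟨-, q2, -, q4⟩
        · refine near_deg q2 hvy.symm fun b hbQ hb1 => ?_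
          rcases hcy b (hb1.trans hvy) with h | h | h
          · exact h
          · exact absurd (h ▸ hbQ) hry
          · exact absurd (h ▸ hbQ) q4
        · refine near_deg q4 (hp.fy1.trans hvy.symm) fun b hbQ hb1 => ?_
          rcases hcy b (hb1.trans hvy) with h | h | h
          · exact absurd (h ▸ hbQ) q2
          · exact absurd (h ▸ hbQ) hry
          · exact h
      · have hv' : v ∈ (G.pop g rx fx ry fy).A := (hA' v).2 ⟨hvy, hvx, hv⟩
        rw [near_congr fun a ha => hQm a (by rw [ha]; exact hv')]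
        exact hM'.2 v hv'

end Pool.Agent.Lib.MP_1dc4d0_coA6
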