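import Pool.Agent.Lib.MP_1dc4d0_coA6.Defs

set_option autoImplicit false

namespace Pool.Agent.Lib.MP_1dc4d0_coA6

open Finset

variable {V : Type} [DecidableEq V]

/-- `g` is a dart outside `F` from `x = g.1` to `y = (G.mate g).1`, `x ≠ y`; `rx`, `fx` are the other darts at
`x` and `ry`, `fy` the other darts at `y`; `fx, fy ∈ F` and `rx, ry ∉ F`. -/
structure PopD (G : Gr V) (F : Finset (V × Fin 3)) (g rx fx ry fy : V × Fin 3) : Prop where
  gA : g.1 ∈ G.A
  hne : (G.mate g).1 ≠ g.1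
  rx1 : rx.1 = g.1
  fx1 : fx.1 = g.1
  ry1 : ry.1 = (G.mate g).1
  fy1 : fy.1 = (G.mate g).1
  grx : g ≠ rx
  gry : G.mate g ≠ ry
  gF : g ∉ F
  rxF : rx ∉ F
  fxF : fx ∈ F
  ryF : ry ∉ F
  fyF : fy ∈ F

/-- Delete `x` and `y`, join the other ends of `fx, fy` and of `rx, ry`. -/
def Gr.pop (G : Gr V) (g rx fx ry fy : V × Fin 3) : Gr V where
  A := (G.A.erase g.1).erase (G.mate g).1
  mate := fun d => if G.mate d = fx then G.mate fy else if G.mate d = fy then G.mate fx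
    else if G.mate d = rx then G.mate ry else if G.mate d = ry then G.mate rx else G.mate d

theorem pop_all_x {G : Gr V} {F : Finset (V × Fin 3)} {g rx fx ry fy : V × Fin 3}
    (hp : PopD G F g rx fx ry fy) (d : V × Fin 3) (hd : d.1 = g.1) : d = g ∨ d = rx ∨ d = fx := by
  obtain ⟨v, i⟩ := g
  obtain ⟨v1, i1⟩ := rx
  obtain ⟨v2, i2⟩ := fx
  obtain ⟨w, j⟩ := d
  have h1 := hp.rx1
  have h2 := hp.fx1
  have h3 := hp.grx
  have h4 := hp.gF
  have h5 := hp.rxF
  have h6 := hp.fxF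
  simp only at h1 h2 hd
  subst h1 h2 hd
  have n1 : i ≠ i1 := fun h => h3 (by rw [h])
  have n2 : i ≠ i2 := fun h => h4 (by rw [h]; exact h6)
  have n3 : i1 ≠ i2 := fun h => h5 (by rw [h]; exact h6)
  have : j = i ∨ j = i1 ∨ j = i2 := by omega
  rcases this with h | h | h <;> simp [h]

theorem pop_all_y {G : Gr V} {F : Finset (V × Fin 3)} {g rx fx ry fy : V × Fin 3} (hG : G.Ok)
    (hF : G.Closed F)
    (hp : PopD G F g rx fx ry fy) (d : V × Fin 3) (hd : d.1 = (G.mate g).1) :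
    d = G.mate g ∨ d = ry ∨ d = fy := by
  have h4 : G.mate g ∉ F := fun h => hp.gF ((hF g hp.gA).2 h)
  have h1 := hp.ry1
  have h2 := hp.fy1
  have h3 := hp.gry
  have h5 := hp.ryF
  have h6 := hp.fyF
  generalize G.mate g = g' at *
  obtain ⟨v, i⟩ := g'
  obtain ⟨v1, i1⟩ := ry
  obtain ⟨v2, i2⟩ := fy
  obtain ⟨w, j⟩ := d
  simp only at h1 h2 hd
  subst h1 h2 hd
  have n1 : i ≠ i1 := fun h => h3 (by rw [h])
  have n2 : i ≠ i2 := fun h => h4 (by rw [h]; exact h6)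
  have n3 : i1 ≠ i2 := fun h => h5 (by rw [h]; exact h6)
  have : j = i ∨ j = i1 ∨ j = i2 := by omega
  rcases this with h | h | h <;> simp [h]

end Pool.Agent.Lib.MP_1dc4d0_coA6
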