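import Pool.Agent.Lib.MP_1dc4d0_coA6.Ball

set_option autoImplicit false

namespace Pool.Agent.Lib.MP_1dc4d0_coA6

open Finset

variable {V : Type} [DecidableEq V]

theorem six {G : Gr V} {F : Finset (V × Fin 3)} (hI : G.Inst F) (hc : G.Cyc) (h6 : 6 ≤ G.A.card)
    (ih : IH V G.A.card) (d : V × Fin 3) (hd : d.1 ∈ G.A) (hn : ¬ G.Star F d) : 6 ≤ (G.V3 F).card := by
  have hmd : (G.mate d).1 ∈ G.A := hI.ok.mem d hd
  have hn' : ¬ G.Star F (G.mate d) := by
    intro h
    have := star_mate _ hmd h
    rw [hI.ok.inv d hd] at this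
    exact hn this
  have b1 := ball hI hc h6 ih d hd hn
  have b2 := ball hI hc h6 ih (G.mate d) hmd hn'
  have p1 : ∀ v ∈ G.A, Function.Injective (fun i : Fin 3 => (G.mate (v, i)).1) := by
    intro v hv i j hij
    by_contra hne
    exact no_par hI.ok hc h6 (v, j) (v, i) hv (fun h => hne (Prod.mk.injEq _ _ _ _ ▸ h).2) rfl hij
  have hdis : Disjoint (Finset.univ.image (fun i : Fin 3 => (G.mate (d.1, i)).1))
      (Finset.univ.image (fun i : Fin 3 => (G.mate ((G.mate d).1, i)).1)) := by
    rw [Finset.disjoint_left]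
    intro v hv hv'
    simp only [Finset.mem_image, Finset.mem_univ, true_and] at hv hv'
    obtain ⟨i, hi⟩ := hv
    obtain ⟨j, hj⟩ := hv'
    by_cases h : (d.1, i) = d
    · rw [h] at hi
      refine no_loop hI.ok hc h6 ((G.mate d).1, j) hmd ?_
      rw [hj, hi]
    · exact no_tri hI.ok hc h6 d (d.1, i) ((G.mate d).1, j) hd h rfl rfl (hj.trans hi.symm)
  have hsub : (Finset.univ.image (fun i : Fin 3 => (G.mate (d.1, i)).1)) ∪
      (Finset.univ.image (fun i : Fin 3 => (G.mate ((G.mate d).1, i)).1)) ⊆ G.V3 F := by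
    intro v hv
    simp only [Finset.mem_union, Finset.mem_image, Finset.mem_univ, true_and] at hv
    rcases hv with ⟨i, hi⟩ | ⟨i, hi⟩
    · rw [← hi]; exact b1 (d.1, i) rfl
    · rw [← hi]; exact b2 ((G.mate d).1, i) rfl
  have hcard := Finset.card_le_card hsub
  rw [Finset.card_union_of_disjoint hdis, Finset.card_image_of_injective _ (p1 _ hd),
    Finset.card_image_of_injective _ (p1 _ hmd)] at hcard
  simpa using hcard

theorem sixx_cc {G : Gr V} {F : Finset (V × Fin 3)} (v : V) (hv : v ∈ G.V3 F) : G.CC F {v} := by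
  rw [Gr.V3, Finset.mem_filter] at hv
  refine ⟨by simpa using hv.1, ?_⟩
  intro d hd
  rw [mem_cut, Finset.mem_singleton] at hd
  obtain ⟨w, i⟩ := d
  have := hd.1
  simp only at this
  subst this
  exact hv.2 i

theorem v3_le {G : Gr V} {F : Finset (V × Fin 3)} (hI : G.Inst F) : (G.V3 F).card ≤ 6 := by
  by_contra hcon
  have h7 : 7 ≤ (G.V3 F).card := by omega
  obtain ⟨S, hS, hS7⟩ := Finset.exists_subset_card_eq h7
  have e := S.equivFinOfCardEq hS7
  obtain ⟨i, j, hij, hd⟩ := hI.few (fun i => {((e.symm i : S) : V)})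
    (fun i => sixx_cc _ (hS (e.symm i).2)) (fun i => by simp)
  apply hd
  rw [Finset.disjoint_singleton]
  intro h
  exact hij (e.symm.injective (Subtype.ext h))

theorem even_cc {G : Gr V} {F : Finset (V × Fin 3)} (hI : G.Inst F) (h : (G.V3 F).card = 6)
    (X : Finset V) (hX : G.CC F X) (hd : Disjoint X (G.V3 F)) : Even X.card := by
  by_contra hcon
  rw [Nat.not_even_iff_odd] at hcon
  have e := (G.V3 F).equivFinOfCardEq h
  obtain ⟨i, j, hij, hd'⟩ := hI.few
    (Fin.cons X (fun i : Fin 6 => ({((e.symm i : G.V3 F) : V)} : Finset V)))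
    (by
      intro i
      refine Fin.cases ?_ ?_ i
      · exact hX
      · intro j
        rw [Fin.cons_succ]
        exact sixx_cc _ (e.symm j).2)
    (by
      intro i
      refine Fin.cases ?_ ?_ i
      · exact hcon
      · intro j
        rw [Fin.cons_succ]
        simp)
  apply hd'
  rw [Finset.disjoint_left] at hd
  revert hij
  refine Fin.cases ?_ ?_ i
  · refine Fin.cases ?_ ?_ j
    · intro h; exact absurd rfl h
    · intro k _
      rw [Fin.cons_zero, Fin.cons_succ, Finset.disjoint_singleton_right]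
      exact fun hk => hd hk (e.symm k).2
  · intro l
    refine Fin.cases ?_ ?_ j
    · intro _
      rw [Fin.cons_zero, Fin.cons_succ, Finset.disjoint_singleton_left]
      exact fun hk => hd hk (e.symm l).2
    · intro k hlk
      rw [Fin.cons_succ, Fin.cons_succ, Finset.disjoint_singleton]
      intro hh
      have := e.symm.injective (Subtype.ext hh)
      exact hlk (by rw [this])

end Pool.Agent.Lib.MP_1dc4d0_coA6
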