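import Pool.Agent.Lib.MP_1dc4d0_coA6.NDefs
import Pool.Agent.Lib.MP_1dc4d0_coA6.Star0

set_option autoImplicit false

namespace Pool.Agent.Lib.MP_1dc4d0_coA6

open Finset

variable {V : Type} [DecidableEq V]

/-- A dart outside `c` whose mate is at `c` is in `F`. -/
theorem tn_memF {G : Gr V} {F N : Finset (V × Fin 3)} {c : Finset V} (hG : G.Ok) (hF : G.Join F)
    (hN : NData G F c N) {d : V × Fin 3} (hd : d.1 ∈ G.A \ c) (hm : (G.mate d).1 ∈ c) : d ∈ F := by
  rw [Finset.mem_sdiff] at hd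
  refine (hF.1 d hd.1).2 (hN.cc _ ?_)
  rw [mem_cut, hG.inv d hd.1]
  exact ⟨hm, hd.2⟩

/-- Unions of components of the split graph are unions of components. -/
theorem tn_cc {G G' : Gr V} {F N : Finset (V × Fin 3)} {c : Finset V} (hG : G.Ok) (hF : G.Join F)
    (hN : NData G F c N) (hT : TN G F c N G') {X : Finset V} (hX : G'.CC F X) : G.CC F X := by
  have hsub : X ⊆ G.A \ c := by
    rw [← hT.hA]
    exact hX.1
  refine ⟨hsub.trans Finset.sdiff_subset, fun d hd => ?_⟩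
  rw [mem_cut] at hd
  by_cases hc : (G.mate d).1 ∈ c
  · exact tn_memF hG hF hN (hsub hd.1) hc
  · refine hX.2 d ?_
    rw [mem_cut, hT.same d (hsub hd.1) hc]
    exact hd

theorem tn_few {G G' : Gr V} {F N : Finset (V × Fin 3)} {c : Finset V} (hG : G.Ok) (hF : G.Join F)
    (hN : NData G F c N) (hT : TN G F c N G') (hf : G.Few F) : G'.Few F :=
  fun f h1 h2 => hf f (fun i => tn_cc hG hF hN hT (h1 i)) h2

/-- A good perfect matching of `G'` lifts. -/
theorem tn_star {G G' : Gr V} {F N : Finset (V × Fin 3)} {c : Finset V} (hG : G.Ok) (hF : G.Join F)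
    (hN : NData G F c N) (hT : TN G F c N G') (d : V × Fin 3) (hd : d.1 ∈ G.A \ c) (hs : G'.Star F d) :
    G.Star F d := by
  obtain ⟨M, hM, hdM, hgood⟩ := hs
  obtain ⟨Q, hQ, hQ1, hQ2, -, hQ4⟩ := hT.lift M hM.1
  refine ⟨Q, ⟨hQ, fun v hv => ?_⟩, (hQ1 d hd).2 hdM, hQ4 hgood⟩
  by_cases hc : v ∈ c
  · exact hQ2 v hc
  · have hv' : v ∈ G.A \ c := Finset.mem_sdiff.2 ⟨hv, hc⟩
    rw [← hM.2 v (by rw [hT.hA]; exact hv')]
    unfold deg
    congr 1
    ext i
    simp only [Finset.mem_filter, Finset.mem_univ, true_and]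
    exact hQ1 (v, i) hv'

/-- If the claim fails in `G`, some `Y` is blocked. -/
theorem ex_blocked {G : Gr V} {F : Finset (V × Fin 3)} (hI : G.Inst F) (ih : IH V G.A.card) (c : Finset V)
    (hne : c.Nonempty) (N : Finset (V × Fin 3)) (hN : NData G F c N) (hT : ∃ G', TN G F c N G')
    (d : V × Fin 3) (hd : d.1 ∈ G.A \ c) (hn : ¬ G.Star F d) : ∃ Y, Blocked G F c Y := by
  obtain ⟨G', hT⟩ := hT
  by_cases hb : G'.Bridgeless
  · exfalso
    have hInst : G'.Inst F := ⟨hT.ok, hb, hT.join, tn_few hI.ok hI.join hN hT hI.few⟩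
    have hcard : G'.A.card < G.A.card := by
      rw [hT.hA]
      refine Finset.card_lt_card ⟨Finset.sdiff_subset, fun h => ?_⟩
      obtain ⟨v, hv⟩ := hne
      exact (Finset.mem_sdiff.1 (h (hN.sub hv))).2 hv
    exact hn (tn_star hI.ok hI.join hN hT d hd (ih G' F hInst hcard d (by rw [hT.hA]; exact hd)))
  · simp only [Gr.Bridgeless, not_forall, not_not] at hb
    obtain ⟨X, hX, h1⟩ := hb
    exact ⟨X, N, G', hN, hT, by rw [← hT.hA]; exact hX, h1⟩

theorem blocked_compl {G : Gr V} {F : Finset (V × Fin 3)} {c Y : Finset V} (hG : G.Ok)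
    (hb : Blocked G F c Y) : Blocked G F c ((G.A \ c) \ Y) := by
  obtain ⟨N, G', hN, hT, hY, h1⟩ := hb
  refine ⟨N, G', hN, hT, Finset.sdiff_subset, ?_⟩
  have := card_cut_compl G' hT.ok Y (by rw [hT.hA]; exact hY)
  rw [hT.hA] at this
  rw [this, h1]

theorem blocked_nonempty {G : Gr V} {F : Finset (V × Fin 3)} {c Y : Finset V} (hG : G.Ok)
    (hb : Blocked G F c Y) : Y.Nonempty := by
  obtain ⟨N, G', hN, hT, hY, h1⟩ := hb
  obtain ⟨k, hk⟩ := Finset.card_eq_one.1 h1
  have : k ∈ G'.cut Y := by rw [hk]; exact Finset.mem_singleton_self k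
  exact ⟨k.1, ((mem_cut G' Y k).1 this).1⟩

/-- At most one edge of `G` leads from `Y` to the rest of the graph outside `c`. -/
theorem blocked_direct {G : Gr V} {F : Finset (V × Fin 3)} {c Y : Finset V} (hG : G.Ok)
    (hb : Blocked G F c Y) : ((G.cut Y).filter (fun d => (G.mate d).1 ∉ c)).card ≤ 1 := by
  obtain ⟨N, G', hN, hT, hY, h1⟩ := hb
  rw [← h1]
  refine Finset.card_le_card fun d hd => ?_
  rw [Finset.mem_filter, mem_cut] at hd
  rw [mem_cut, hT.same d (hY hd.1.1) hd.2]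
  exact hd.1

/-- A blocked set is a union of components of `(V, E - F)`. -/
theorem blocked_cc {G : Gr V} {F : Finset (V × Fin 3)} {c Y : Finset V} (hG : G.Ok) (hF : G.Join F)
    (hb : Blocked G F c Y) : G.CC F Y := by
  obtain ⟨N, G', hN, hT, hY, h1⟩ := hb
  have hYA : Y ⊆ G'.A := by rw [hT.hA]; exact hY
  refine tn_cc hG hF hN hT ⟨hYA, ?_⟩
  have p1 := par_all G' hT.ok Y hYA
  have p2 := par_join G' hT.ok F hT.join Y hYA
  obtain ⟨k, hk⟩ := Finset.card_eq_one.1 h1
  intro d hd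
  by_contra hdF
  have hd' := hd
  rw [hk, Finset.mem_singleton] at hd'
  have h0 : (G'.cut Y).filter (fun d => d ∈ F) = ∅ := by
    rw [Finset.filter_eq_empty_iff]
    intro e he heF
    rw [hk, Finset.mem_singleton] at he
    rw [he, ← hd'] at heF
    exact hdF heF
  rw [h1] at p1
  rw [h0] at p2
  simp at p2
  omega

end Pool.Agent.Lib.MP_1dc4d0_coA6
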