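import Pool.Agent.Lib.MP_1dc4d0_coA6.NDefs
import Pool.Agent.Lib.MP_1dc4d0_coA6.PopOk
import Pool.Agent.Lib.MP_1dc4d0_coA6.PopLift
import Pool.Agent.Lib.MP_1dc4d0_coA6.Star0

set_option autoImplicit false

namespace Pool.Agent.Lib.MP_1dc4d0_coA6

open Finset

variable {V : Type} [DecidableEq V]

theorem tlnn_uniq {P : Finset (V × Fin 3)} {v : V} (h : deg P v = 1) {d e : V × Fin 3} (hd : d ∈ P)
    (he : e ∈ P) (hd1 : d.1 = v) (he1 : e.1 = v) : d = e := by
  obtain ⟨a, i⟩ := d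
  obtain ⟨b, j⟩ := e
  simp only at hd1 he1
  subst hd1
  subst he1
  rw [deg, Finset.card_eq_one] at h
  obtain ⟨k, hk⟩ := h
  have h1 : i ∈ (Finset.univ.filter (fun i : Fin 3 => (b, i) ∈ P)) := by simp [hd]
  have h2 : j ∈ (Finset.univ.filter (fun i : Fin 3 => (b, i) ∈ P)) := by simp [he]
  rw [hk, Finset.mem_singleton] at h1 h2
  rw [h1, h2]

theorem tlnn_one {P : Finset (V × Fin 3)} {v : V} (d : V × Fin 3) (hd : d ∈ P) (hd1 : d.1 = v)
    (h : ∀ e ∈ P, e.1 = v → e = d) : deg P v = 1 := by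
  obtain ⟨a, i⟩ := d
  simp only at hd1
  subst hd1
  rw [deg, Finset.card_eq_one]
  refine ⟨i, ?_⟩
  ext j
  simp only [Finset.mem_filter, Finset.mem_univ, true_and, Finset.mem_singleton]
  constructor
  · intro hj
    have := h (a, j) hj rfl
    exact (Prod.mk.injEq _ _ _ _ ▸ this).2
  · intro hj
    rw [hj]; exact hd

theorem tlnn_deg_eq {P Q : Finset (V × Fin 3)} {v : V} (h : ∀ i, (v, i) ∈ P ↔ (v, i) ∈ Q) :
    deg P v = deg Q v := by
  rw [deg, deg]
  congr 1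
  ext i
  simp [h i]

theorem tlnn_ex {P : Finset (V × Fin 3)} {v : V} (h : deg P v = 1) : ∃ d ∈ P, d.1 = v := by
  rw [deg, Finset.card_eq_one] at h
  obtain ⟨k, hk⟩ := h
  have h1 : k ∈ (Finset.univ.filter (fun i : Fin 3 => (v, i) ∈ P)) := by rw [hk]; simp
  exact ⟨(v, k), (Finset.mem_filter.1 h1).2, rfl⟩

theorem tlnn_mate_else {G : Gr V} {g rx fx ry fy d : V × Fin 3} (h1 : G.mate d ≠ fx)
    (h2 : G.mate d ≠ fy) (h3 : G.mate d ≠ rx) (h4 : G.mate d ≠ ry) :
    (G.pop g rx fx ry fy).mate d = G.mate d := by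
  simp [Gr.pop, h1, h2, h3, h4]

theorem tlnn_step {G G' : Gr V} {F : Finset (V × Fin 3)} {g rx fx ry fy : V × Fin 3} (hG : G.Ok)
    (hF : G.Join F) {c N : _} (hN : NData G F c N) (hp : PopD G F g rx fx ry fy) (hgN : g ∈ N)
    (hT : TN (G.pop g rx fx ry fy) F ((c.erase g.1).erase (G.mate g).1)
      (N.filter (fun d => d.1 ∈ (c.erase g.1).erase (G.mate g).1)) G') : TN G F c N G' := by
  have hgc : g.1 ∈ c := (hN.mem g hgN).1
  have hmN : G.mate g ∈ N := (hN.mem g hgN).2.2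
  have hmc : (G.mate g).1 ∈ c := (hN.mem _ hmN).1
  have hA : ∀ v, v ∈ (G.pop g rx fx ry fy).A ↔ v ∈ G.A ∧ v ≠ g.1 ∧ v ≠ (G.mate g).1 := by
    intro v
    simp only [Gr.pop, Finset.mem_erase]
    tauto
  have hc1 : ∀ v, v ∈ ((c.erase g.1).erase (G.mate g).1) ↔ v ∈ c ∧ v ≠ g.1 ∧ v ≠ (G.mate g).1 := by
    intro v
    simp only [Finset.mem_erase]
    tauto
  have hrx : rx.1 ∈ c := by rw [hp.rx1]; exact hgc
  have hfx : fx.1 ∈ c := by rw [hp.fx1]; exact hgc
  have hry : ry.1 ∈ c := by rw [hp.ry1]; exact hmc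
  have hfy : fy.1 ∈ c := by rw [hp.fy1]; exact hmc
  have hmrx : (G.mate rx).1 ∈ c := by
    by_contra hcon
    exact hp.rxF (hN.cc rx ((mem_cut _ _ _).2 ⟨hrx, hcon⟩))
  have hrxN : rx ∉ N := fun h => hp.grx (tlnn_uniq (hN.oneN _ hgc) hgN h rfl hp.rx1)
  refine ⟨?_, hT.ok, hT.join, ?_, ?_⟩
  · rw [hT.hA]
    ext v
    rw [Finset.mem_sdiff, Finset.mem_sdiff, hA, hc1]
    constructor
    · rintro ⟨⟨h1, h2, h3⟩, h4⟩
      exact ⟨h1, fun h => h4 ⟨h, h2, h3⟩⟩
    · rintro ⟨h1, h2⟩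
      exact ⟨⟨h1, fun h => h2 (h ▸ hgc), fun h => h2 (h ▸ hmc)⟩, fun h => h2 h.1⟩
  · intro d hd hmd
    rw [Finset.mem_sdiff] at hd
    have e1 : (G.pop g rx fx ry fy).mate d = G.mate d := by
      refine tlnn_mate_else ?_ ?_ ?_ ?_ <;> intro h <;> apply hmd <;> rw [h] <;> assumption
    have e2 := hT.same d (by
      rw [Finset.mem_sdiff, hA, hc1]
      exact ⟨⟨hd.1, fun h => hd.2 (h ▸ hgc), fun h => hd.2 (h ▸ hmc)⟩, fun h => hd.2 h.1⟩) (by
      rw [e1, hc1]
      exact fun h => hmd h.1)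
    rw [e2, e1]
  · intro P hP
    obtain ⟨Q1, hQ1, a1, a2, a3, a4⟩ := hT.lift P hP
    have hr : (G.mate rx).1 ∈ (G.pop g rx fx ry fy).A → G.mate rx ∉ Q1 := by
      intro hm hq
      rw [hA] at hm
      rcases a3 _ hq ((hc1 _).2 ⟨hmrx, hm.2⟩) with h | h
      · exact hp.rxF ((hF.1 rx (hN.sub hrx)).2 h)
      · have h1 := (hN.mem _ (Finset.mem_filter.1 h).1).2.2
        rw [hG.inv rx (hN.sub hrx)] at h1
        exact hrxN h1
    obtain ⟨Q, hQ, b1, b2, b3, b4, b5⟩ := pop_liftA hG hF hp Q1 hQ1 hr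
    refine ⟨Q, hQ, ?_, ?_, ?_, fun h => b5 (a4 h)⟩
    · intro d hd
      rw [Finset.mem_sdiff] at hd
      have hd1 : d.1 ≠ g.1 := fun h => hd.2 (h ▸ hgc)
      have hd2 : d.1 ≠ (G.mate g).1 := fun h => hd.2 (h ▸ hmc)
      rw [b1 d ((hA _).2 ⟨hd.1, hd1, hd2⟩)]
      exact a1 d (by
        rw [Finset.mem_sdiff, hA, hc1]
        exact ⟨⟨hd.1, hd1, hd2⟩, fun h => hd.2 h.1⟩)
    · intro v hv
      by_cases hv1 : v = g.1
      · rcases b2 with ⟨c1, c2, c3, c4⟩ | ⟨c1, c2, c3, c4⟩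
        · refine tlnn_one g c1 hv1.symm ?_
          intro e he hev
          rcases pop_all_x hp e (hev.trans hv1) with h | h | h
          · exact h
          · exact absurd (h ▸ he) b3
          · exact absurd (h ▸ he) c3
        · refine tlnn_one fx c3 (hp.fx1.trans hv1.symm) ?_
          intro e he hev
          rcases pop_all_x hp e (hev.trans hv1) with h | h | h
          · exact absurd (h ▸ he) c1
          · exact absurd (h ▸ he) b3
          · exact h
      · by_cases hv2 : v = (G.mate g).1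
        · rcases b2 with ⟨c1, c2, c3, c4⟩ | ⟨c1, c2, c3, c4⟩
          · refine tlnn_one (G.mate g) c2 hv2.symm ?_
            intro e he hev
            rcases pop_all_y hG hF.1 hp e (hev.trans hv2) with h | h | h
            · exact h
            · exact absurd (h ▸ he) b4
            · exact absurd (h ▸ he) c4
          · refine tlnn_one fy c4 (hp.fy1.trans hv2.symm) ?_
            intro e he hev
            rcases pop_all_y hG hF.1 hp e (hev.trans hv2) with h | h | h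
            · exact absurd (h ▸ he) c2
            · exact absurd (h ▸ he) b4
            · exact h
        · rw [← a2 v ((hc1 v).2 ⟨hv, hv1, hv2⟩)]
          exact tlnn_deg_eq fun i => b1 (v, i) ((hA _).2 ⟨hN.sub hv, hv1, hv2⟩)
    · intro d hd hdc
      by_cases hv1 : d.1 = g.1
      · rcases pop_all_x hp d hv1 with h | h | h
        · exact Or.inr (h ▸ hgN)
        · exact absurd (h ▸ hd) b3
        · exact Or.inl (h ▸ hp.fxF)
      · by_cases hv2 : d.1 = (G.mate g).1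
        · rcases pop_all_y hG hF.1 hp d hv2 with h | h | h
          · exact Or.inr (h ▸ hmN)
          · exact absurd (h ▸ hd) b4
          · exact Or.inl (h ▸ hp.fyF)
        · have hd1 : d ∈ Q1 := (b1 d ((hA _).2 ⟨hN.sub hdc, hv1, hv2⟩)).1 hd
          rcases a3 d hd1 ((hc1 _).2 ⟨hdc, hv1, hv2⟩) with h | h
          · exact Or.inl h
          · exact Or.inr (Finset.mem_filter.1 h).1

theorem tlnn_ndata {G : Gr V} {F : Finset (V × Fin 3)} {g rx fx ry fy : V × Fin 3} (hG : G.Ok)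
    (hF : G.Join F) {c N : _} (hN : NData G F c N) (hp : PopD G F g rx fx ry fy) (hgN : g ∈ N) :
    NData (G.pop g rx fx ry fy) F ((c.erase g.1).erase (G.mate g).1)
      (N.filter (fun d => d.1 ∈ (c.erase g.1).erase (G.mate g).1)) := by
  have hgc : g.1 ∈ c := (hN.mem g hgN).1
  have hmN : G.mate g ∈ N := (hN.mem g hgN).2.2
  have hmc : (G.mate g).1 ∈ c := (hN.mem _ hmN).1
  have hA : ∀ v, v ∈ (G.pop g rx fx ry fy).A ↔ v ∈ G.A ∧ v ≠ g.1 ∧ v ≠ (G.mate g).1 := by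
    intro v
    simp only [Gr.pop, Finset.mem_erase]
    tauto
  have hc1 : ∀ v, v ∈ ((c.erase g.1).erase (G.mate g).1) ↔ v ∈ c ∧ v ≠ g.1 ∧ v ≠ (G.mate g).1 := by
    intro v
    simp only [Finset.mem_erase]
    tauto
  have hrx : rx.1 ∈ c := by rw [hp.rx1]; exact hgc
  have hry : ry.1 ∈ c := by rw [hp.ry1]; exact hmc
  have hin : ∀ d : V × Fin 3, d.1 ∈ c → d ∉ F → (G.mate d).1 ∈ c := by
    intro d h1 h2
    by_contra hcon
    exact h2 (hN.cc d ((mem_cut _ _ _).2 ⟨h1, hcon⟩))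
  have hrxN : rx ∉ N := fun h => hp.grx (tlnn_uniq (hN.oneN _ hgc) hgN h rfl hp.rx1)
  have hryN : ry ∉ N := fun h => hp.gry (tlnn_uniq (hN.oneN _ hmc) hmN h rfl hp.ry1)
  have hok := pop_ok hG hF.1 hp
  refine ⟨?_, ?_, ?_, ?_, ?_⟩
  · intro v hv
    rw [hc1] at hv
    exact (hA v).2 ⟨hN.sub hv.1, hv.2⟩
  · intro d hd
    rw [mem_cut] at hd
    obtain ⟨h1, h2⟩ := hd
    rw [hc1] at h1
    by_contra hdF
    have hdA : d.1 ∈ (G.pop g rx fx ry fy).A := (hA _).2 ⟨hN.sub h1.1, h1.2⟩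
    have h3 := (hA _).1 (hok.mem d hdA)
    apply h2
    rw [hc1]
    refine ⟨?_, h3.2⟩
    have hmF : G.mate d ∉ F := fun h => hdF ((hF.1 d (hN.sub h1.1)).2 h)
    have k1 : G.mate d ≠ fx := fun h => hmF (h ▸ hp.fxF)
    have k2 : G.mate d ≠ fy := fun h => hmF (h ▸ hp.fyF)
    by_cases k3 : G.mate d = rx
    · have : (G.pop g rx fx ry fy).mate d = G.mate ry := by
        simp only [Gr.pop, if_neg k1, if_neg k2, if_pos k3]
      rw [this]
      exact hin ry hry hp.ryF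
    · by_cases k4 : G.mate d = ry
      · have : (G.pop g rx fx ry fy).mate d = G.mate rx := by
          simp only [Gr.pop, if_neg k1, if_neg k2, if_neg k3, if_pos k4]
        rw [this]
        exact hin rx hrx hp.rxF
      · rw [tlnn_mate_else k1 k2 k3 k4]
        exact hin d h1.1 hdF
  · intro v hv
    exact hN.oneF v ((hc1 v).1 hv).1
  · intro v hv
    rw [← hN.oneN v ((hc1 v).1 hv).1]
    refine tlnn_deg_eq fun i => ?_
    rw [Finset.mem_filter]
    exact ⟨fun h => h.1, fun h => ⟨h, hv⟩⟩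
  · intro d hd
    rw [Finset.mem_filter] at hd
    obtain ⟨h1, h2⟩ := hd
    obtain ⟨h3, h4, h5⟩ := hN.mem d h1
    have h5' := hN.mem _ h5
    have e1 : (G.pop g rx fx ry fy).mate d = G.mate d := by
      refine tlnn_mate_else ?_ ?_ ?_ ?_
      · exact fun h => h5'.2.1 (h ▸ hp.fxF)
      · exact fun h => h5'.2.1 (h ▸ hp.fyF)
      · exact fun h => hrxN (h ▸ h5)
      · exact fun h => hryN (h ▸ h5)
    refine ⟨h2, h4, ?_⟩
    rw [Finset.mem_filter]
    refine ⟨e1 ▸ h5, ?_⟩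
    rw [hc1]
    have hdA : d.1 ∈ (G.pop g rx fx ry fy).A := (hA _).2 ⟨hN.sub h3, ((hc1 _).1 h2).2⟩
    refine ⟨?_, ((hA _).1 (hok.mem d hdA)).2⟩
    rw [e1]
    exact h5'.1

theorem toolN {G : Gr V} {F : Finset (V × Fin 3)} (hG : G.Ok) (hF : G.Join F) (c : Finset V)
    (N : Finset (V × Fin 3)) (hN : NData G F c N) : ∃ G', TN G F c N G' := by
  induction hk : c.card using Nat.strong_induction_on generalizing G c N with
  | _ k ih =>
    rcases Finset.eq_empty_or_nonempty c with hc | ⟨v, hv⟩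
    · subst hc
      refine ⟨G, by simp, hG, hF, fun _ _ _ => rfl, ?_⟩
      intro P hP
      exact ⟨P, hP, fun _ _ => Iff.rfl, fun v hv => absurd hv (Finset.notMem_empty v),
        fun d _ hd => absurd hd (Finset.notMem_empty _), fun h => h⟩
    · obtain ⟨g, hgN, hg1⟩ := tlnn_ex (hN.oneN v hv)
      have hgc : g.1 ∈ c := (hN.mem g hgN).1
      have hmN : G.mate g ∈ N := (hN.mem g hgN).2.2
      have hne : (G.mate g).1 ≠ g.1 := by
        intro h
        exact hG.ne g (hN.sub hgc) (tlnn_uniq (hN.oneN _ hgc) hmN hgN h rfl)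
      obtain ⟨rx, fx, ry, fy, hp⟩ := exPop hG hF g (hN.sub hgc) (hN.mem g hgN).2.1 hne
      have hlt : ((c.erase g.1).erase (G.mate g).1).card < k := by
        rw [← hk]
        refine Finset.card_lt_card ?_
        refine lt_of_le_of_lt (Finset.erase_subset _ _) ?_
        exact Finset.erase_ssubset hgc
      obtain ⟨G', hG'⟩ := ih _ hlt (pop_ok hG hF.1 hp) (pop_join hG hF hp) _ _
        (tlnn_ndata hG hF hN hp hgN) rfl
      exact ⟨G', tlnn_step hG hF hN hp hgN hG'⟩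

end Pool.Agent.Lib.MP_1dc4d0_coA6
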