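import Pool.Agent.Lib.MP_1dc4d0_coA6.Defs

set_option autoImplicit false

namespace Pool.Agent.Lib.MP_1dc4d0_coA6

open Finset

section

variable {V E : Type} [Fintype V] [Fintype E] (ends : E → Sym2 V)

/-- `e` has one end in `S` and one end outside `S`. -/
def Crosses (S : Set V) (e : E) : Prop := ∃ x y : V, x ∈ ends e ∧ y ∈ ends e ∧ x ∈ S ∧ y ∉ S

/-- The graph on `V` with the edges outside `F`. -/
def offGraph (F : Set E) : SimpleGraph V where
  Adj x y := x ≠ y ∧ ∃ e, e ∉ F ∧ x ∈ ends e ∧ y ∈ ends e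
  symm := ⟨fun x y h => ⟨h.1.symm, by obtain ⟨e, h1, h2, h3⟩ := h.2; exact ⟨e, h1, h3, h2⟩⟩⟩
  loopless := ⟨fun x h => h.1 rfl⟩

/-- The components of `(V, E - F)` with an odd number of vertices. -/
def oddComponents (F : Set E) : Set (offGraph ends F).ConnectedComponent :=
  {c | Odd c.supp.ncard}

end

/-- A dart model of a multigraph: `ed` gives the edge of a dart. -/
structure Model {V E : Type} [Fintype V] (ends : E → Sym2 V) (G : Gr V) (ed : V × Fin 3 → E) : Prop where
  hA : G.A = Finset.univ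
  ok : ∀ d, G.mate (G.mate d) = d
  ne : ∀ d, (G.mate d).1 ≠ d.1
  edm : ∀ d, ed (G.mate d) = ed d
  ends_ed : ∀ d, ends (ed d) = s(d.1, (G.mate d).1)
  inj : ∀ d d', d.1 = d'.1 → ed d = ed d' → d = d'
  surj : ∀ (v : V) (e : E), v ∈ ends e → ∃ d : V × Fin 3, d.1 = v ∧ ed d = e

theorem exists_model {V E : Type} [Fintype V] [Fintype E] (ends : E → Sym2 V)
    (hloop : ∀ e : E, ∃ x y : V, x ≠ y ∧ x ∈ ends e ∧ y ∈ ends e)
    (hcub : ∀ v : V, {e : E | v ∈ ends e}.ncard = 3) :
    ∃ (G : Gr V) (ed : V × Fin 3 → E), Model ends G ed := by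
  classical
  have hφ : ∀ v : V, Nonempty (Fin 3 ≃ {e : E // v ∈ ends e}) := by
    intro v
    have h1 : Fintype.card {e : E // v ∈ ends e} = 3 := by
      rw [← hcub v, Set.ncard_eq_toFinset_card', Fintype.card_subtype]
      congr 1
      ext e
      simp
    exact ⟨(Fintype.equivFinOfCardEq h1).symm⟩
  let φ' : ∀ v : V, Fin 3 ≃ {e : E // v ∈ ends e} := fun v => Classical.choice (hφ v)
  -- other end
  have hother : ∀ (v : V) (e : E) (h : v ∈ ends e), Sym2.Mem.other h ≠ v := by
    intro v e h hc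
    obtain ⟨x, y, hxy, hx, hy⟩ := hloop e
    have h1 := Sym2.other_spec h
    rw [hc] at h1
    rw [← h1] at hx hy
    simp only [Sym2.mem_iff, or_self] at hx hy
    exact hxy (hx.trans hy.symm)
  let ed : V × Fin 3 → E := fun d => (φ' d.1 d.2).1
  have hed : ∀ d : V × Fin 3, d.1 ∈ ends (ed d) := fun d => (φ' d.1 d.2).2
  let oth : V × Fin 3 → V := fun d => Sym2.Mem.other (hed d)
  have hoth : ∀ d, oth d ∈ ends (ed d) := fun d => Sym2.other_mem (hed d)
  let mate : V × Fin 3 → V × Fin 3 := fun d => (oth d, (φ' (oth d)).symm ⟨ed d, hoth d⟩)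
  have hinj : ∀ d d' : V × Fin 3, d.1 = d'.1 → ed d = ed d' → d = d' := by
    rintro ⟨v, i⟩ ⟨w, j⟩ h1 h2
    simp only at h1
    subst h1
    have : φ' v i = φ' v j := Subtype.ext h2
    rw [(φ' v).injective this]
  have hedm : ∀ d, ed (mate d) = ed d := by
    intro d
    simp only [ed, mate, Equiv.apply_symm_apply]
  have hspec : ∀ d, ends (ed d) = s(d.1, (mate d).1) := fun d => (Sym2.other_spec (hed d)).symm
  have hne : ∀ d, (mate d).1 ≠ d.1 := fun d => hother _ _ (hed d)
  have hmm : ∀ d, mate (mate d) = d := by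
    intro d
    apply hinj
    · have h1 := hspec (mate d)
      rw [hedm, hspec d] at h1
      have h2 := hne (mate d)
      have h3 : (mate (mate d)).1 ∈ s(d.1, (mate d).1) := by rw [h1]; simp
      rw [Sym2.mem_iff] at h3
      rcases h3 with h3 | h3
      · exact h3
      · exact absurd h3 h2
    · rw [hedm, hedm]
  refine ⟨⟨Finset.univ, mate⟩, ed, ⟨rfl, hmm, hne, hedm, hspec, hinj, ?_⟩⟩
  intro v e he
  refine ⟨(v, (φ' v).symm ⟨e, he⟩), rfl, ?_⟩
  simp only [ed, Equiv.apply_symm_apply]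

section

variable {V E : Type} [Fintype V] [Fintype E] [DecidableEq V] {ends : E → Sym2 V} {G : Gr V} {ed : V × Fin 3 → E}

theorem Model.Ok (h : Model ends G ed) : G.Ok where
  mem := fun d _ => by rw [h.hA]; exact Finset.mem_univ _
  inv := fun d _ => h.ok d
  ne := fun d _ hd => h.ne d (by rw [hd])

theorem Model.eq_or (h : Model ends G ed) (d d' : V × Fin 3) (he : ed d = ed d') : d' = d ∨ d' = G.mate d := by
  have h1 : d'.1 ∈ ends (ed d) := by rw [he, h.ends_ed d']; simp
  rw [h.ends_ed d, Sym2.mem_iff] at h1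
  rcases h1 with h1 | h1
  · left; exact h.inj _ _ h1 he.symm
  · right; exact h.inj _ _ h1 (by rw [h.edm]; exact he.symm)

theorem Model.crosses_iff (h : Model ends G ed) (X : Finset V) (e : E) :
    Crosses ends (X : Set V) e ↔ ∃ d ∈ G.cut X, ed d = e := by
  constructor
  · rintro ⟨x, y, hx, hy, hxX, hyX⟩
    obtain ⟨d, hd, hde⟩ := h.surj x e hx
    refine ⟨d, ?_, hde⟩
    rw [mem_cut, hd]
    refine ⟨hxX, ?_⟩
    have : y ∈ s(d.1, (G.mate d).1) := by rw [← h.ends_ed d, hde]; exact hy
    rw [Sym2.mem_iff, hd] at this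
    rcases this with h1 | h1
    · rw [h1] at hyX; exact absurd hxX hyX
    · rw [← h1]; exact hyX
  · rintro ⟨d, hd, rfl⟩
    rw [mem_cut] at hd
    exact ⟨d.1, (G.mate d).1, by rw [h.ends_ed]; simp, by rw [h.ends_ed]; simp, hd.1, hd.2⟩

theorem Model.cut_inj (h : Model ends G ed) (X : Finset V) (d d' : V × Fin 3) (hd : d ∈ G.cut X)
    (hd' : d' ∈ G.cut X) (he : ed d = ed d') : d = d' := by
  rcases h.eq_or d d' he with h1 | h1
  · exact h1.symm
  · rw [mem_cut] at hd hd'
    rw [h1] at hd'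
    exact absurd hd'.1 hd.2

theorem Model.card_cut (h : Model ends G ed) (X : Finset V) :
    {e : E | Crosses ends (X : Set V) e}.ncard = (G.cut X).card := by
  classical
  have : {e : E | Crosses ends (X : Set V) e} = ((G.cut X).image ed : Finset E) := by
    ext e
    simp only [Set.mem_setOf_eq, Finset.coe_image, Set.mem_image, Finset.mem_coe]
    exact h.crosses_iff X e
  rw [this, Set.ncard_coe_finset, Finset.card_image_of_injOn]
  intro d hd d' hd' he
  exact h.cut_inj X d d' hd hd' he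

theorem Model.bridgeless (h : Model ends G ed)
    (hbr : ∀ (S : Set V) (b : E), ¬ (∀ e : E, Crosses ends S e ↔ e = b)) : G.Bridgeless := by
  intro X _ h1
  obtain ⟨k, hk⟩ := Finset.card_eq_one.1 h1
  refine hbr X (ed k) fun e => ?_
  rw [h.crosses_iff, hk]
  simp only [Finset.mem_singleton, exists_eq_left]
  exact ⟨fun hh => hh.symm, fun hh => hh.symm⟩

theorem Model.deg_eq (h : Model ends G ed) (F : Set E) (P : Finset (V × Fin 3))
    (hP : ∀ d, d ∈ P ↔ ed d ∈ F) (v : V) : deg P v = {e : E | e ∈ F ∧ v ∈ ends e}.ncard := by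
  classical
  have : {e : E | e ∈ F ∧ v ∈ ends e} = ((Finset.univ.filter (fun i : Fin 3 => (v, i) ∈ P)).image
      (fun i => ed (v, i)) : Finset E) := by
    ext e
    simp only [Set.mem_setOf_eq, Finset.coe_image, Set.mem_image, Finset.mem_coe, Finset.mem_filter,
      Finset.mem_univ, true_and]
    constructor
    · rintro ⟨h1, h2⟩
      obtain ⟨⟨w, i⟩, hd, hde⟩ := h.surj v e h2
      simp only at hd
      subst hd
      exact ⟨i, (hP _).2 (by rw [hde]; exact h1), hde⟩
    · rintro ⟨i, hi, rfl⟩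
      exact ⟨(hP _).1 hi, by rw [h.ends_ed]; simp⟩
  rw [this, Set.ncard_coe_finset, Finset.card_image_of_injOn]
  · rfl
  · intro i _ j _ hij
    have := h.inj (v, i) (v, j) rfl hij
    exact (Prod.mk.inj this).2

theorem Model.closed (h : Model ends G ed) (F : Set E) (P : Finset (V × Fin 3))
    (hP : ∀ d, d ∈ P ↔ ed d ∈ F) : G.Closed P := by
  intro d _
  rw [hP, hP, h.edm]

/-- An odd union of components contains an odd component. -/
theorem Model.exists_odd (h : Model ends G ed) (F : Set E) (P : Finset (V × Fin 3))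
    (hP : ∀ d, d ∈ P ↔ ed d ∈ F) (X : Finset V) (hX : G.CC P X) (hodd : Odd X.card) :
    ∃ c ∈ oddComponents ends F, c.supp ⊆ (X : Set V) := by
  classical
  have hadj : ∀ x y : V, x ∈ X → (offGraph ends F).Adj x y → y ∈ X := by
    intro x y hx hxy
    by_contra hy
    obtain ⟨hne, e, heF, hxe, hye⟩ := hxy
    obtain ⟨d, hd, hde⟩ := (h.crosses_iff X e).1 ⟨x, y, hxe, hye, hx, hy⟩
    have := (hP d).1 (hX.2 d hd)
    rw [hde] at this
    exact heF this
  have hreach : ∀ x y : V, (offGraph ends F).Reachable x y → x ∈ X → y ∈ X := by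
    intro x y hr
    obtain ⟨p⟩ := hr
    induction p with
    | nil => exact id
    | cons hxy _ ih => exact fun hx => ih (hadj _ _ hx hxy)
  by_contra hcon
  push Not at hcon
  have hev : Even X.card := by
    rw [Finset.card_eq_sum_card_fiberwise (f := fun v => (offGraph ends F).connectedComponentMk v)
      (t := X.image (fun v => (offGraph ends F).connectedComponentMk v))
      (fun v hv => Finset.mem_image_of_mem _ hv)]
    apply Finset.even_sum
    intro c hc
    obtain ⟨v, hv, rfl⟩ := Finset.mem_image.1 hc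
    have hsupp : ((offGraph ends F).connectedComponentMk v).supp
        = ((X.filter (fun w => (offGraph ends F).connectedComponentMk w
            = (offGraph ends F).connectedComponentMk v) : Finset V) : Set V) := by
      ext w
      simp only [SimpleGraph.ConnectedComponent.mem_supp_iff, Finset.coe_filter, Set.mem_setOf_eq]
      constructor
      · intro hw
        refine ⟨?_, hw⟩
        exact hreach v w ((SimpleGraph.ConnectedComponent.eq.1 hw).symm) hv
      · exact fun hw => hw.2
    have hsub : ((offGraph ends F).connectedComponentMk v).supp ⊆ (X : Set V) := by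
      rw [hsupp]
      intro w hw
      exact (Finset.mem_filter.1 hw).1
    by_contra hne
    rw [Nat.not_even_iff_odd] at hne
    refine hcon ((offGraph ends F).connectedComponentMk v) ?_ hsub
    change Odd (Set.ncard _)
    rw [hsupp, Set.ncard_coe_finset]
    exact hne
  rw [← Nat.not_even_iff_odd] at hodd
  exact hodd hev

theorem Model.few (h : Model ends G ed) (F : Set E) (P : Finset (V × Fin 3))
    (hP : ∀ d, d ∈ P ↔ ed d ∈ F) (h6 : (oddComponents ends F).ncard ≤ 6) : G.Few P := by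
  classical
  intro f hf hodd
  by_contra hcon
  push Not at hcon
  choose c hc hsub using fun i => h.exists_odd F P hP (f i) (hf i) (hodd i)
  have hinj : Function.Injective c := by
    intro i j hij
    by_contra hne
    obtain ⟨v, hv⟩ := (c i).nonempty_supp
    exact (Finset.disjoint_left.1 (hcon i j hne)) (hsub i hv) (hsub j (by rw [← hij]; exact hv))
  have h7 : 7 ≤ (oddComponents ends F).ncard := by
    have : (Set.range c).ncard = 7 := by
      rw [← Set.image_univ, Set.ncard_image_of_injective _ hinj, Set.ncard_univ]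
      simp
    rw [← this]
    exact Set.ncard_le_ncard (by rintro _ ⟨i, rfl⟩; exact hc i) (Set.toFinite _)
  omega

end

theorem translate
    (main : ∀ (V : Type) [DecidableEq V] (G : Gr V) (F : Finset (V × Fin 3)), G.Inst F →
      ∀ d : V × Fin 3, d.1 ∈ G.A → G.Star F d)
    (V E : Type) [Fintype V] [Fintype E] (ends : E → Sym2 V)
    (hloop : ∀ e : E, ∃ x y : V, x ≠ y ∧ x ∈ ends e ∧ y ∈ ends e)
    (hcub : ∀ v : V, {e : E | v ∈ ends e}.ncard = 3)
    (hbr : ∀ (S : Set V) (b : E), ¬ (∀ e : E, Crosses ends S e ↔ e = b))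
    (F : Set E) (hF : ∀ v : V, Odd {e : E | e ∈ F ∧ v ∈ ends e}.ncard)
    (h6 : (oddComponents ends F).ncard ≤ 6) (e₀ : E) :
    ∃ M : Set E, (∀ v : V, ∃! e : E, e ∈ M ∧ v ∈ ends e) ∧ e₀ ∈ M ∧
      ∀ S : Set V, Odd {e : E | Crosses ends S e}.ncard →
        ¬ (∀ e : E, Crosses ends S e → e ∈ F ∧ e ∈ M) := by
  classical
  obtain ⟨G, ed, h⟩ := exists_model ends hloop hcub
  let P : Finset (V × Fin 3) := Finset.univ.filter (fun d => ed d ∈ F)
  have hP : ∀ d, d ∈ P ↔ ed d ∈ F := fun d => by simp [P]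
  have hI : G.Inst P := ⟨h.Ok, h.bridgeless hbr, ⟨h.closed F P hP, fun v _ => by
    rw [h.deg_eq F P hP v]; exact hF v⟩, h.few F P hP h6⟩
  obtain ⟨x, y, hxy, hx, hy⟩ := hloop e₀
  obtain ⟨d₀, hd₀, hde₀⟩ := h.surj x e₀ hx
  have hAuniv : ∀ v : V, v ∈ G.A := fun v => by rw [h.hA]; exact Finset.mem_univ v
  obtain ⟨M, hM, hdM, hgood⟩ := main V G P hI d₀ (hAuniv _)
  let ME : Set E := {e | ∃ d ∈ M, ed d = e}
  have hME : ∀ d, d ∈ M ↔ ed d ∈ ME := by
    intro d
    constructor
    · intro hd; exact ⟨d, hd, rfl⟩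
    · rintro ⟨d', hd', he⟩
      rcases h.eq_or d' d he with h1 | h1
      · rw [h1]; exact hd'
      · rw [h1]; exact (hM.1 d' (hAuniv _)).1 hd'
  refine ⟨ME, ?_, ⟨d₀, hdM, hde₀⟩, ?_⟩
  · intro v
    have h1 : {e : E | e ∈ ME ∧ v ∈ ends e}.ncard = 1 := by
      rw [← h.deg_eq ME M hME v]; exact hM.2 v (hAuniv v)
    obtain ⟨a, ha⟩ := Set.ncard_eq_one.1 h1
    refine ⟨a, ?_, ?_⟩
    · have : a ∈ {e : E | e ∈ ME ∧ v ∈ ends e} := by rw [ha]; exact rfl
      exact this
    · intro b hb
      have : b ∈ {e : E | e ∈ ME ∧ v ∈ ends e} := hb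
      rw [ha] at this
      exact this
  · intro S hS hcon
    have hSX : ((S.toFinset : Finset V) : Set V) = S := Set.coe_toFinset S
    have hsub : S.toFinset ⊆ G.A := fun v _ => hAuniv v
    have heven : Even (S.toFinset).card := by
      apply hgood _ hsub
      intro d hd
      have hcr : Crosses ends S (ed d) := by
        rw [← hSX]; exact (h.crosses_iff _ _).2 ⟨d, hd, rfl⟩
      have := hcon _ hcr
      exact ⟨(hP d).2 this.1, (hME d).2 this.2⟩
    have h2 := par_all G h.Ok S.toFinset hsub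
    rw [← h.card_cut, hSX] at h2
    rw [Nat.even_iff] at heven
    rw [Nat.odd_iff] at hS
    omega

end Pool.Agent.Lib.MP_1dc4d0_coA6
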