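import Pool.Agent.Lib.MP_1dc4d0_coA6.TNuse
import Pool.Agent.Lib.MP_1dc4d0_coA6.Atoms
import Pool.Agent.Lib.MP_1dc4d0_coA6.ExN
import Pool.Agent.Lib.MP_1dc4d0_coA6.ToolN
import Pool.Agent.Lib.MP_1dc4d0_coA6.Six

set_option autoImplicit false

namespace Pool.Agent.Lib.MP_1dc4d0_coA6

open Finset

variable {V : Type} [DecidableEq V]

private theorem blocked_sub {G : Gr V} {F : Finset (V × Fin 3)} {c Y : Finset V}
    (hb : Blocked G F c Y) : Y ⊆ G.A \ c := by
  obtain ⟨_, _, _, _, h, _⟩ := hb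
  exact h

/-- Uncrossing: a circuit inside a blocked set gives a smaller blocked set. -/
theorem uncross {G : Gr V} {F : Finset (V × Fin 3)} (hI : G.Inst F) (hc : G.Cyc)
    (c Y : Finset V) (hca : Atom G F c) (hb : Blocked G F c Y) (c' Y' : Finset V) (hca' : Atom G F c')
    (hsub : c' ⊆ Y) (hb' : Blocked G F c' Y') (hdis : Disjoint c Y') : Y' ⊂ Y := by
  have hY' := blocked_sub hb'
  have hYA : Y' ⊆ G.A := hY'.trans Finset.sdiff_subset
  obtain ⟨w, hw⟩ := hca'.ne
  have hwY' : w ∉ Y' := fun h => (Finset.mem_sdiff.1 (hY' h)).2 hw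
  have hWA : Y' \ Y ⊆ G.A := Finset.sdiff_subset.trans hYA
  have hcard : (G.cut (Y' \ Y)).card ≤ 2 := by
    have hsp : G.cut (Y' \ Y) ⊆ ((G.cut Y).filter (fun d => (G.mate d).1 ∉ c)).image G.mate ∪
        (G.cut Y').filter (fun d => (G.mate d).1 ∉ c') := by
      intro d hd
      rw [mem_cut, Finset.mem_sdiff] at hd
      obtain ⟨⟨h1, h2⟩, h3⟩ := hd
      have hdA := hYA h1
      rw [Finset.mem_union]
      by_cases h4 : (G.mate d).1 ∈ Y
      · left
        refine Finset.mem_image.2 ⟨G.mate d, ?_, hI.ok.inv d hdA⟩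
        rw [Finset.mem_filter, mem_cut, hI.ok.inv d hdA]
        exact ⟨⟨h4, h2⟩, fun h5 => (Finset.disjoint_left.1 hdis h5) h1⟩
      · right
        rw [Finset.mem_filter, mem_cut]
        refine ⟨⟨h1, fun h5 => h3 (Finset.mem_sdiff.2 ⟨h5, h4⟩)⟩, fun h5 => h4 (hsub h5)⟩
    have h5 := Finset.card_le_card hsp
    have h6 := Finset.card_union_le
      (((G.cut Y).filter (fun d => (G.mate d).1 ∉ c)).image G.mate)
      ((G.cut Y').filter (fun d => (G.mate d).1 ∉ c'))
    have h7 := Finset.card_image_le (s := (G.cut Y).filter (fun d => (G.mate d).1 ∉ c)) (f := G.mate)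
    have h8 := blocked_direct hI.ok hb
    have h9 := blocked_direct hI.ok hb'
    omega
  have hW : Y' \ Y = ∅ := by
    by_contra hne
    have h1 := (hc (Y' \ Y) hWA (Finset.nonempty_iff_ne_empty.2 hne) (fun h => ?_)).1
    · omega
    · have : w ∈ Y' \ Y := by rw [h]; exact hca'.sub hw
      exact hwY' (Finset.mem_sdiff.1 this).1
  rw [Finset.sdiff_eq_empty_iff_subset] at hW
  exact ⟨hW, fun h => hwY' (h (hsub hw))⟩

/-- In a minimal counterexample some blocked set has at most three vertices, all in `V3`. -/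
theorem ex_small_blocked {G : Gr V} {F : Finset (V × Fin 3)} (hI : G.Inst F) (hc : G.Cyc) (h6 : 6 ≤ G.A.card)
    (ih : IH V G.A.card) (d : V × Fin 3) (hd : d.1 ∈ G.A) (hn : ¬ G.Star F d) (hA : G.V3 F ≠ G.A) :
    ∃ c Y, Atom G F c ∧ Blocked G F c Y ∧ Y ⊆ G.V3 F ∧ Y.card ≤ 3 := by
  have hG := hI.ok
  have hF := hI.join
  have hcard : (G.V3 F).card = 6 := le_antisymm (v3_le hI) (six hI hc h6 ih d hd hn)
  have hdV : d.1 ∈ G.V3 F := by
    have h1 : ¬ G.Star F (G.mate d) := fun h => hn (by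
      have := star_mate (G.mate d) (hG.mem d hd) h
      rwa [hG.inv d hd] at this)
    have := ball hI hc h6 ih (G.mate d) (hG.mem d hd) h1 (G.mate d) rfl
    rwa [hG.inv d hd] at this
  have h3 : ∀ v ∈ G.V3 F, deg F v = 3 := by
    intro v hv
    have hv' := (Finset.mem_filter.1 hv).2
    rw [deg, Finset.filter_true_of_mem (fun i _ => hv' i), Finset.card_univ, Fintype.card_fin]
  -- every atom is blocked
  have hblk : ∀ c, Atom G F c → ∃ Y, Blocked G F c Y := by
    intro c hca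
    have hev : ∀ X ⊆ c, (∀ d ∈ G.cut X, d ∈ F) → Even X.card := by
      intro X hX hcut
      refine even_cc hI hcard X ⟨hX.trans hca.sub, hcut⟩ ?_
      rw [Finset.disjoint_left]
      intro v hv hv3
      have h1 := hca.oneF v (hX hv)
      rw [h3 v hv3] at h1
      omega
    obtain ⟨N, hN⟩ := exN hG hF c hca.sub hca.cc hca.oneF hev
    have hT := toolN hG hF c N hN
    refine ex_blocked hI ih c hca.ne N hN hT d (Finset.mem_sdiff.2 ⟨hd, fun h => ?_⟩) hn
    have h1 := hca.oneF d.1 h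
    rw [h3 _ hdV] at h1
    omega
  -- the claim
  have hclaim : ∀ n : ℕ, ∀ c Y, Y.card ≤ n → Atom G F c → Blocked G F c Y →
      ∃ c0 Y0, Atom G F c0 ∧ Blocked G F c0 Y0 ∧ Y0 ⊆ Y ∧ Y0 ⊆ G.V3 F := by
    intro n
    induction n with
    | zero =>
      intro c Y hn hca hb
      have := (blocked_nonempty hG hb).card_pos
      omega
    | succ n ihn =>
      intro c Y hYn hca hb
      by_cases hY3 : Y ⊆ G.V3 F
      · exact ⟨c, Y, hca, hb, Finset.Subset.refl _, hY3⟩
      rw [Finset.not_subset] at hY3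
      obtain ⟨w, hwY, hw3⟩ := hY3
      have hwA : w ∈ G.A := (Finset.mem_sdiff.1 (blocked_sub hb hwY)).1
      obtain ⟨c', hca', -, hsub⟩ := ex_atom hG hF Y (blocked_cc hG hF hb) w hwY (deg_one hF w hwA hw3)
      obtain ⟨Y1, hb1⟩ := hblk c' hca'
      have hrec : ∀ Y2, Blocked G F c' Y2 → Disjoint c Y2 →
          ∃ c0 Y0, Atom G F c0 ∧ Blocked G F c0 Y0 ∧ Y0 ⊆ Y ∧ Y0 ⊆ G.V3 F := by
        intro Y2 hb2 hdis
        have hlt := uncross hI hc c Y hca hb c' Y2 hca' hsub hb2 hdis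
        have hlt' := Finset.card_lt_card hlt
        obtain ⟨c0, Y0, g1, g2, g3, g4⟩ := ihn c' Y2 (by omega) hca' hb2
        exact ⟨c0, Y0, g1, g2, g3.trans hlt.1, g4⟩
      have hcc1 := blocked_cc hG hF hb1
      rcases hca.atom Y1 hcc1.1 hcc1.2 with h | h
      · refine hrec _ (blocked_compl hG hb1) ?_
        rw [Finset.disjoint_left]
        intro v hv hv'
        exact (Finset.mem_sdiff.1 hv').2 (h hv)
      · exact hrec Y1 hb1 h
  -- an atom
  obtain ⟨w, hwA, hw3⟩ : ∃ w ∈ G.A, w ∉ G.V3 F := by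
    by_contra hcon
    push Not at hcon
    exact hA (Finset.Subset.antisymm (Finset.filter_subset _ _) hcon)
  have hccA : G.CC F G.A := by
    refine ⟨Finset.Subset.refl _, fun k hk => ?_⟩
    rw [mem_cut] at hk
    exact absurd (hG.mem k hk.1) hk.2
  obtain ⟨c, hca, -, -⟩ := ex_atom hG hF G.A hccA w hwA (deg_one hF w hwA hw3)
  obtain ⟨Y, hb⟩ := hblk c hca
  obtain ⟨c1, Y1, a1, b1, s1, t1⟩ := hclaim _ c Y le_rfl hca hb
  obtain ⟨c2, Y2, a2, b2, s2, t2⟩ := hclaim _ c _ le_rfl hca (blocked_compl hG hb)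
  have hdisj : Disjoint Y1 Y2 := by
    rw [Finset.disjoint_left]
    intro v hv hv'
    exact (Finset.mem_sdiff.1 (s2 hv')).2 (s1 hv)
  have hsum : Y1.card + Y2.card ≤ 6 := by
    rw [← Finset.card_union_of_disjoint hdisj, ← hcard]
    exact Finset.card_le_card (Finset.union_subset t1 t2)
  by_cases h : Y1.card ≤ 3
  · exact ⟨c1, Y1, a1, b1, t1, h⟩
  · exact ⟨c2, Y2, a2, b2, t2, by omega⟩

end Pool.Agent.Lib.MP_1dc4d0_coA6
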